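import Pool.Agent.Q257.CR.Good3

/-!
The Capelli form.
-/

set_option autoImplicit false
set_option linter.unusedSectionVars false
set_option linter.unusedDecidableInType false
set_option linter.unusedTactic false
set_option linter.unreachableTactic false
set_option linter.unusedSimpArgs false

namespace Q257.CR

open Matrix Finset

variable {κ : Type} [Fintype κ] [DecidableEq κ] {V : Type} [DecidableEq V]

/-- the index type of the Capelli form -/
noncomputable abbrev G3 (κ : Type) [Fintype κ] : Type := Fin (dd κ) × Fin 3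

/-- the Capelli form as an alternating map -/
noncomputable def capAlt (X : G3 κ → Matrix κ κ ℂ) :
    (Matrix κ κ ℂ) [⋀^Fin (dd κ)]→ₗ[ℂ] (Matrix κ κ ℂ) :=
  MultilinearMap.alternatization ((MultilinearMap.mkPiAlgebraFin ℂ (dd κ) (Matrix κ κ ℂ)).compLinearMap
    (fun i => (LinearMap.mulLeft ℂ (X (i, 0))).comp (LinearMap.mulRight ℂ (X (i, 2)))))

/-- the Capelli form -/
noncomputable def Cap (X : G3 κ → Matrix κ κ ℂ) : Matrix κ κ ℂ :=
  ∑ π : Equiv.Perm (Fin (dd κ)), ((Equiv.Perm.sign π : ℤ) : ℂ) •
    (List.ofFn fun i => X (i, 0) * (X (π i, 1) * X (i, 2))).prod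

lemma capAlt_apply (X : G3 κ → Matrix κ κ ℂ) (v : Fin (dd κ) → Matrix κ κ ℂ) :
    capAlt X v = ∑ π : Equiv.Perm (Fin (dd κ)), ((Equiv.Perm.sign π : ℤ) : ℂ) •
      (List.ofFn fun i => X (i, 0) * (v (π i) * X (i, 2))).prod := by
  unfold capAlt
  rw [MultilinearMap.alternatization_apply]
  refine Finset.sum_congr rfl fun π _ => ?_
  rw [MultilinearMap.domDomCongr_apply, MultilinearMap.compLinearMap_apply,
    MultilinearMap.mkPiAlgebraFin_apply, Units.smul_def, ← Int.cast_smul_eq_zsmul ℂ]
  rfl

lemma Cap_eq (X : G3 κ → Matrix κ κ ℂ) : Cap X = capAlt X (fun i => X (i, 1)) := by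
  rw [capAlt_apply]
  rfl

lemma capAlt_congr {X X' : G3 κ → Matrix κ κ ℂ} (h : ∀ i, X (i, 0) = X' (i, 0))
    (h' : ∀ i, X (i, 2) = X' (i, 2)) : capAlt X = capAlt X' := by
  unfold capAlt
  simp only [h, h']

/-- the list of letters of a term -/
noncomputable def capList (κ : Type) [Fintype κ] (π : Equiv.Perm (Fin (dd κ))) : List (G3 κ) :=
  (List.finRange (dd κ)).flatMap fun i => [(i, 0), (π i, 1), (i, 2)]

lemma capList_nodup (π : Equiv.Perm (Fin (dd κ))) : (capList κ π).Nodup := by
  unfold capList
  rw [List.nodup_flatMap]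
  constructor
  · intro i _
    simp
  · refine (List.nodup_finRange (dd κ)).imp ?_
    intro i j hij
    rw [Function.onFun, List.disjoint_left]
    intro a ha hb
    simp only [List.mem_cons, List.not_mem_nil, or_false] at ha hb
    rcases ha with rfl | rfl | rfl <;> rcases hb with h | h | h <;>
      simp only [Prod.mk.injEq] at h
    · exact hij h.1
    · exact absurd h.2 (by decide)
    · exact absurd h.2 (by decide)
    · exact absurd h.2 (by decide)
    · exact hij (π.injective h.1)
    · exact absurd h.2 (by decide)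
    · exact absurd h.2 (by decide)
    · exact absurd h.2 (by decide)
    · exact hij h.1

lemma capList_toFinset (π : Equiv.Perm (Fin (dd κ))) : (capList κ π).toFinset = univ := by
  rw [Finset.eq_univ_iff_forall]
  rintro ⟨i, c⟩
  rw [List.mem_toFinset]
  unfold capList
  rw [List.mem_flatMap]
  fin_cases c
  · exact ⟨i, List.mem_finRange i, by simp⟩
  · exact ⟨π.symm i, List.mem_finRange _, by simp⟩
  · exact ⟨i, List.mem_finRange i, by simp⟩

lemma wd_capList (π : Equiv.Perm (Fin (dd κ))) (X : G3 κ → Matrix κ κ ℂ) :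
    wd κ (capList κ π) X = (List.ofFn fun i => X (i, 0) * (X (π i, 1) * X (i, 2))).prod := by
  unfold wd capList
  rw [List.ofFn_eq_map]
  induction List.finRange (dd κ) with
  | nil => simp
  | cons i l ih =>
    rw [List.flatMap_cons, List.map_append, List.prod_append, ih, List.map_cons, List.prod_cons]
    simp

lemma wd_map {γ : Type} (l : List γ) (ν : γ → V) (x : V → Matrix κ κ ℂ) :
    wd κ (l.map ν) x = wd κ l (x ∘ ν) := by
  unfold wd
  rw [List.map_map]

lemma Cap_mem (ν : G3 κ → V) (hν : Function.Injective ν) :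
    (fun x : V → Matrix κ κ ℂ => Cap (x ∘ ν)) ∈ TT κ (univ.image ν) := by
  have : (fun x : V → Matrix κ κ ℂ => Cap (x ∘ ν)) =
      ∑ π : Equiv.Perm (Fin (dd κ)), ((Equiv.Perm.sign π : ℤ) : ℂ) • wd κ ((capList κ π).map ν) := by
    ext x : 1
    rw [Finset.sum_apply]
    unfold Cap
    refine Finset.sum_congr rfl fun π _ => ?_
    rw [Pi.smul_apply, wd_map, wd_capList]
  rw [this]
  refine Submodule.sum_mem _ fun π _ => Submodule.smul_mem _ _ ?_
  refine Submodule.subset_span ⟨(capList κ π).map ν, (capList_nodup π).map hν, ?_, rfl⟩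
  rw [← capList_toFinset π]
  ext v
  simp

lemma Cap_mem' : (Cap (κ := κ)) ∈ TT κ (univ : Finset (G3 κ)) := by
  have := Cap_mem (κ := κ) (V := G3 κ) id Function.injective_id
  rw [image_id] at this
  exact this

lemma Cap_alt (ν : G3 κ → V) :
    AltOn (fun i => ν (i, 1)) (fun x : V → Matrix κ κ ℂ => Cap (x ∘ ν)) := by
  intro x i j hij h
  show Cap (x ∘ ν) = 0
  rw [Cap_eq]
  exact (capAlt (x ∘ ν)).map_eq_zero_of_eq _ h hij

/-- the trace of the Capelli form -/
noncomputable def Qc (X : G3 κ → Matrix κ κ ℂ) : ℂ := (Cap X).trace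

/-- the key identity -/
lemma Qc_identity (X : G3 κ → Matrix κ κ ℂ) (a : Matrix κ κ ℂ) :
    ∑ i : Fin (dd κ), X (i, 1) * a * EE Qc (i, 1) X = (Qc X * a.trace) • (1 : Matrix κ κ ℂ) := by
  set g : (Matrix κ κ ℂ) [⋀^Fin (dd κ)]→ₗ[ℂ] ℂ :=
    (Matrix.traceLinearMap κ ℂ ℂ).compAlternatingMap (capAlt X) with hg
  have h1 : ∀ i z, Qc (Function.update X (i, 1) z) = g (Function.update (fun j => X (j, 1)) i z) := by
    intro i z
    unfold Qc
    rw [Cap_eq, hg, LinearMap.compAlternatingMap_apply, Matrix.traceLinearMap_apply]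
    congr 1
    rw [capAlt_congr (X := Function.update X (i, 1) z) (X' := X)
      (fun j => Function.update_of_ne (by simp) _ _) (fun j => Function.update_of_ne (by simp) _ _)]
    congr 1
    ext j : 1
    by_cases h : j = i
    · subst h; simp
    · rw [Function.update_of_ne h, Function.update_of_ne (by simp [h])]
  have h2 : Qc X = g (fun j => X (j, 1)) := by
    unfold Qc
    rw [Cap_eq]
    rfl
  ext r s
  rw [Matrix.sum_apply, Matrix.smul_apply, smul_eq_mul]
  have h3 : ∀ i, (X (i, 1) * a * EE Qc (i, 1) X) r s =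
      ∑ q, ∑ t, a t q * ((X (i, 1)) r t *
        g (Function.update (fun j => X (j, 1)) i (Matrix.single s q 1))) := by
    intro i
    rw [Matrix.mul_apply]
    refine Finset.sum_congr rfl fun q _ => ?_
    rw [Matrix.mul_apply, Finset.sum_mul]
    refine Finset.sum_congr rfl fun t _ => ?_
    unfold EE
    rw [Matrix.of_apply, h1]
    ring
  simp only [h3]
  rw [Finset.sum_comm]
  have h4 : ∀ q t, ∑ i, (X (i, 1)) r t *
        g (Function.update (fun j => X (j, 1)) i (Matrix.single s q 1)) =
      (Matrix.single s q (1 : ℂ)) r t * g (fun j => X (j, 1)) := by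
    intro q t
    have := cramer_alt g (Matrix.entryLinearMap ℂ ℂ r t) (fun j => X (j, 1)) (Matrix.single s q 1)
    simp only [Matrix.entryLinearMap_apply, smul_eq_mul] at this
    exact this
  have h5 : ∀ q, ∑ i, ∑ t, a t q * ((X (i, 1)) r t *
        g (Function.update (fun j => X (j, 1)) i (Matrix.single s q 1))) =
      (1 : Matrix κ κ ℂ) r s * a q q * Qc X := by
    intro q
    rw [Finset.sum_comm]
    simp only [← Finset.mul_sum]
    simp only [h4]
    rw [Finset.sum_eq_single q]
    · rw [Matrix.single_apply, h2, Matrix.one_apply]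
      by_cases h : s = r
      · subst h; simp
      · rw [if_neg (by tauto), if_neg (fun h' => h h'.symm)]; ring
    · intro t _ ht
      rw [Matrix.single_apply, if_neg (by tauto)]
      ring
    · intro h; exact absurd (mem_univ _) h
  simp only [h5]
  rw [← Finset.sum_mul, ← Finset.mul_sum]
  unfold Matrix.trace
  simp only [Matrix.diag_apply]
  ring

/-- the form does not vanish -/
lemma Qc_ne [Nonempty κ] : ∃ X : G3 κ → Matrix κ κ ℂ, Qc X ≠ 0 := by
  obtain ⟨o⟩ := ‹Nonempty κ›
  set e := Fintype.equivFin (κ × κ) with he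
  set X : G3 κ → Matrix κ κ ℂ := fun p =>
    if p.2 = 0 then Matrix.single o (e.symm p.1).1 1
    else if p.2 = 1 then Matrix.single (e.symm p.1).1 (e.symm p.1).2 1
    else Matrix.single (e.symm p.1).2 o 1 with hX
  refine ⟨X, ?_⟩
  have h0 : ∀ i, X (i, 0) = Matrix.single o (e.symm i).1 1 := fun i => rfl
  have h1 : ∀ i, X (i, 1) = Matrix.single (e.symm i).1 (e.symm i).2 1 := fun i => rfl
  have h2 : ∀ i, X (i, 2) = Matrix.single (e.symm i).2 o 1 := fun i => rfl
  have h3 : ∀ (π : Equiv.Perm (Fin (dd κ))) i, X (i, 0) * (X (π i, 1) * X (i, 2)) =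
      if π i = i then Matrix.single o o 1 else 0 := by
    intro π i
    rw [h0, h1, h2]
    split_ifs with h
    · rw [h, Matrix.single_mul_single_same, Matrix.single_mul_single_same]
      simp
    · by_cases hb : (e.symm (π i)).2 = (e.symm i).2
      · rw [hb, Matrix.single_mul_single_same]
        have ha : (e.symm i).1 ≠ (e.symm (π i)).1 := by
          intro ha
          exact h (e.symm.injective (Prod.ext ha.symm hb))
        rw [Matrix.single_mul_single_of_ne _ _ _ _ ha]
      · rw [Matrix.single_mul_single_of_ne (h := hb), mul_zero]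
  have hd : 0 < dd κ := Fintype.card_pos_iff.2 ⟨(o, o)⟩
  have h4 : ∀ n : ℕ, (List.replicate (n + 1) (Matrix.single o o (1 : ℂ))).prod = Matrix.single o o 1 := by
    intro n
    induction n with
    | zero => simp
    | succ n ih =>
      rw [List.replicate_succ, List.prod_cons, ih, Matrix.single_mul_single_same, mul_one]
  have h5 : Cap X = Matrix.single o o 1 := by
    unfold Cap
    rw [Finset.sum_eq_single 1]
    · have : (fun i => X (i, 0) * (X ((1 : Equiv.Perm (Fin (dd κ))) i, 1) * X (i, 2))) =
          fun _ => Matrix.single o o 1 := by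
        ext i : 1
        rw [h3 1 i]
        simp
      rw [this, List.ofFn_const]
      obtain ⟨n, hn⟩ : ∃ n, dd κ = n + 1 := ⟨dd κ - 1, by omega⟩
      rw [hn, h4]
      simp
    · intro π _ hπ
      obtain ⟨i, hi⟩ : ∃ i, π i ≠ i := by
        by_contra hcon
        push Not at hcon
        exact hπ (Equiv.ext hcon)
      rw [List.prod_eq_zero, smul_zero]
      rw [List.mem_ofFn]
      exact ⟨i, by rw [h3, if_neg hi]⟩
    · intro h; exact absurd (mem_univ _) h
  unfold Qc
  rw [h5]
  simp [Matrix.trace_single_eq_same]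

end Q257.CR
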