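import Pool.Agent.Q257.CR.Key

/-!
Counting: the span of the block products has small codimension.
-/

set_option autoImplicit false
set_option linter.unusedSectionVars false
set_option linter.unusedDecidableInType false
set_option linter.unusedTactic false
set_option linter.unreachableTactic false
set_option linter.unusedSimpArgs false

namespace Q257.CR

open Matrix Finset MeasureTheory

variable {κ : Type} [Fintype κ] [DecidableEq κ]
  {ι : Type} [Fintype ι] [DecidableEq ι] {β : Type} [Fintype β] [DecidableEq β]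

/-- the complement of a block -/
abbrev Co (ν : β → ι) : Type := {i : ι // ∀ b, ν b ≠ i}

/-- splitting off a block -/
noncomputable def spl (ν : β → ι) (hν : Function.Injective ν) : β ⊕ Co ν ≃ ι :=
  Equiv.ofBijective (Sum.elim ν Subtype.val) (by
    constructor
    · rintro (a | a) (b | b) h
      · exact congrArg _ (hν h)
      · exact absurd h (b.2 a)
      · exact absurd h.symm (a.2 b)
      · exact congrArg _ (Subtype.ext h)
    · intro i
      by_cases h : ∃ b, ν b = i
      · obtain ⟨b, hb⟩ := h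
        exact ⟨Sum.inl b, hb⟩
      · push Not at h
        exact ⟨Sum.inr ⟨i, h⟩, rfl⟩)

lemma spl_inl (ν : β → ι) (hν : Function.Injective ν) (b : β) : spl ν hν (Sum.inl b) = ν b := rfl
lemma spl_inr (ν : β → ι) (hν : Function.Injective ν) (c : Co ν) : spl ν hν (Sum.inr c) = c.1 := rfl

/-- block products -/
def bp (ν : β → ι) (F : (β → κ × κ) → ℂ) (G : (Co ν → κ × κ) → ℂ) : (ι → κ × κ) → ℂ :=
  fun m => F (fun b => m (ν b)) * G (fun c => m c.1)

lemma prod_split (ν : β → ι) (hν : Function.Injective ν) (h : ι → ℂ) :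
    ∏ i, h i = (∏ b, h (ν b)) * ∏ c : Co ν, h c.1 := by
  rw [← (spl ν hν).prod_comp, Fintype.prod_sum_type]
  rfl

/-- splitting functions -/
noncomputable def splf (A : Type) (ν : β → ι) (hν : Function.Injective ν) :
    (ι → A) ≃ (β → A) × (Co ν → A) :=
  (Equiv.arrowCongr (spl ν hν).symm (Equiv.refl A)).trans (Equiv.sumArrowEquivProdArrow _ _ _)

lemma splf_fst (A : Type) (ν : β → ι) (hν : Function.Injective ν) (m : ι → A) :
    (splf A ν hν m).1 = fun b => m (ν b) := rfl
lemma splf_snd (A : Type) (ν : β → ι) (hν : Function.Injective ν) (m : ι → A) :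
    (splf A ν hν m).2 = fun c => m c.1 := rfl

lemma sum_split (ν : β → ι) (hν : Function.Injective ν) (f : (β → κ × κ) → ℂ)
    (g : (Co ν → κ × κ) → ℂ) :
    ∑ m : ι → κ × κ, f (fun b => m (ν b)) * g (fun c => m c.1) = (∑ a, f a) * ∑ b, g b := by
  rw [Finset.sum_mul_sum, ← Fintype.sum_prod_type', ← (splf (κ × κ) ν hν).sum_comp]
  rfl

lemma phi_bp (ν : β → ι) (hν : Function.Injective ν) (F : (β → κ × κ) → ℂ)
    (G : (Co ν → κ × κ) → ℂ) (x : ι → Matrix κ κ ℂ) :
    phi (bp ν F G) x = phi F (fun b => x (ν b)) * phi G (fun c => x c.1) := by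
  unfold phi
  rw [← sum_split ν hν]
  refine Finset.sum_congr rfl fun m _ => ?_
  rw [prod_split ν hν]
  unfold bp
  ring

lemma AA_bp (ν : β → ι) (hν : Function.Injective ν) (F : (β → κ × κ) → ℂ)
    (G : (Co ν → κ × κ) → ℂ) (U : Matrix.unitaryGroup κ ℂ) :
    AA ι U *ᵥ (bp ν F G) = bp ν (AA β U *ᵥ F) (AA (Co ν) U *ᵥ G) := by
  ext m
  have h1 : (AA ι U *ᵥ (bp ν F G)) m = ∑ m', AA ι U m m' * bp ν F G m' := rfl
  have h2 : bp ν (AA β U *ᵥ F) (AA (Co ν) U *ᵥ G) m =
      (∑ m', AA β U (fun b => m (ν b)) m' * F m') *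
        ∑ m', AA (Co ν) U (fun c => m c.1) m' * G m' := rfl
  rw [h1, h2, ← sum_split ν hν]
  refine Finset.sum_congr rfl fun m' _ => ?_
  unfold AA
  rw [prod_split ν hν]
  unfold bp
  ring

lemma bp_mem (ν : β → ι) (hν : Function.Injective ν) {F : (β → κ × κ) → ℂ}
    {G : (Co ν → κ × κ) → ℂ} (hF : F ∈ CC κ β) (hG : G ∈ CC κ (Co ν)) : bp ν F G ∈ CC κ ι := by
  refine (mem_Inv (A := AA (κ := κ) ι)).2 fun U => ?_
  rw [AA_bp ν hν, (mem_Inv (A := AA (κ := κ) β)).1 hF, (mem_Inv (A := AA (κ := κ) (Co ν))).1 hG]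

/-- the block product as a linear map -/
def bpL (ν : β → ι) (F : (β → κ × κ) → ℂ) : ((Co ν → κ × κ) → ℂ) →ₗ[ℂ] ((ι → κ × κ) → ℂ) where
  toFun := bp ν F
  map_add' := fun G G' => by ext m; simp [bp, mul_add]
  map_smul' := fun c G => by ext m; simp [bp]; ring

/-- averaging a block product -/
lemma RR_bp (μ : Measure (Matrix.unitaryGroup κ ℂ)) [μ.IsHaarMeasure] [IsProbabilityMeasure μ]
    (ν : β → ι) (hν : Function.Injective ν) {F : (β → κ × κ) → ℂ} (hF : F ∈ CC κ β)
    (G : (Co ν → κ × κ) → ℂ) :
    RR μ (AA (κ := κ) ι) *ᵥ (bp ν F G) = bp ν F (RR μ (AA (κ := κ) (Co ν)) *ᵥ G) := by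
  ext m
  rw [RR_mulVec μ AA_cont]
  simp only [AA_bp ν hν, (mem_Inv (A := AA (κ := κ) β)).1 hF]
  unfold bp
  rw [integral_const_mul, RR_mulVec μ AA_cont]

variable {q : ℕ}

/-- the invariant block products -/
noncomputable def WW (blk : Fin q → β → ι) (F : (β → κ × κ) → ℂ) : Submodule ℂ ((ι → κ × κ) → ℂ) :=
  ⨆ j, (CC κ (Co (blk j))).map (bpL (blk j) F)

/-- all block products -/
noncomputable def HH (blk : Fin q → β → ι) (F : (β → κ × κ) → ℂ) : Submodule ℂ ((ι → κ × κ) → ℂ) :=
  ⨆ j, LinearMap.range (bpL (κ := κ) (blk j) F)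

/-- the bad index functions -/
def Bad (blk : Fin q → β → ι) (m0 : β → κ × κ) : Type :=
  {m : ι → κ × κ // ∀ j, (fun b => m (blk j b)) ≠ m0}

noncomputable instance (blk : Fin q → β → ι) (m0 : β → κ × κ) : Fintype (Bad blk m0) := by
  unfold Bad
  infer_instance

/-- the span of the bad coordinate vectors -/
noncomputable def KK (blk : Fin q → β → ι) (m0 : β → κ × κ) : Submodule ℂ ((ι → κ × κ) → ℂ) :=
  Submodule.span ℂ (Set.range fun m : Bad blk m0 => Pi.single m.1 (1 : ℂ))

lemma single_mem (blk : Fin q → β → ι) (hinj : ∀ j, Function.Injective (blk j))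
    (hdis : ∀ j j' b b', j ≠ j' → blk j b ≠ blk j' b') (F : (β → κ × κ) → ℂ) (m0 : β → κ × κ)
    (h0 : F m0 ≠ 0) : ∀ (N : ℕ) (m : ι → κ × κ),
      (univ.filter fun j => (fun b => m (blk j b)) = m0).card ≤ N →
        (Pi.single m (1 : ℂ) : (ι → κ × κ) → ℂ) ∈ HH (κ := κ) blk F ⊔ KK blk m0 := by
  intro N
  induction N with
  | zero =>
    intro m hm
    apply Submodule.mem_sup_right
    have h1 : ∀ j, (fun b => m (blk j b)) ≠ m0 := by
      intro j hj
      have : j ∈ univ.filter fun j => (fun b => m (blk j b)) = m0 :=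
        mem_filter.2 ⟨mem_univ _, hj⟩
      rw [Finset.card_eq_zero.1 (Nat.le_zero.1 hm)] at this
      simp at this
    exact Submodule.subset_span ⟨⟨m, h1⟩, rfl⟩
  | succ N ih =>
    intro m hm
    by_cases hex : ∃ j, (fun b => m (blk j b)) = m0
    · obtain ⟨j, hj⟩ := hex
      set e := splf (κ × κ) (blk j) (hinj j) with he
      set gl : (β → κ × κ) → (ι → κ × κ) := fun b => e.symm (b, fun c => m c.1) with hgl
      have hgl1 : ∀ b, (fun b' => gl b (blk j b')) = b := by
        intro b
        have := congrArg Prod.fst (e.apply_symm_apply (b, fun c => m c.1))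
        exact this
      have hgl2 : ∀ b, (fun c : Co (blk j) => gl b c.1) = fun c => m c.1 := by
        intro b
        have := congrArg Prod.snd (e.apply_symm_apply (b, fun c => m c.1))
        exact this
      have hgl0 : gl m0 = m := by
        apply e.injective
        rw [hgl]
        simp only [Equiv.apply_symm_apply]
        rw [← hj]
        rfl
      have h1 : bp (blk j) F (Pi.single (fun c => m c.1) (1 : ℂ)) =
          ∑ b : β → κ × κ, F b • (Pi.single (gl b) (1 : ℂ) : (ι → κ × κ) → ℂ) := by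
        ext m'
        rw [Finset.sum_apply]
        unfold bp
        rw [Finset.sum_eq_single (fun b => m' (blk j b))]
        · rw [Pi.smul_apply, smul_eq_mul]
          congr 1
          by_cases hmm : (fun c : Co (blk j) => m' c.1) = fun c => m c.1
          · have : gl (fun b => m' (blk j b)) = m' := by
              apply e.injective
              rw [hgl]
              simp only [Equiv.apply_symm_apply]
              rw [← hmm]
              rfl
            rw [hmm, this, Pi.single_eq_same, Pi.single_eq_same]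
          · rw [Pi.single_eq_of_ne hmm, Pi.single_eq_of_ne]
            intro h
            apply hmm
            rw [h, hgl2]
        · intro b _ hb
          rw [Pi.smul_apply, Pi.single_eq_of_ne, smul_zero]
          rintro rfl
          exact hb (hgl1 b).symm
        · intro h; exact absurd (mem_univ _) h
      have h2 : (Pi.single m (1 : ℂ) : (ι → κ × κ) → ℂ) =
          (F m0)⁻¹ • (bp (blk j) F (Pi.single (fun c => m c.1) (1 : ℂ)) -
            ∑ b ∈ univ.erase m0, F b • (Pi.single (gl b) (1 : ℂ) : (ι → κ × κ) → ℂ)) := by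
        rw [h1, ← Finset.add_sum_erase univ _ (mem_univ m0), add_sub_cancel_right, hgl0, smul_smul,
          inv_mul_cancel₀ h0, one_smul]
      rw [h2]
      refine Submodule.smul_mem _ _ (Submodule.sub_mem _ ?_ (Submodule.sum_mem _ fun b hb =>
        Submodule.smul_mem _ _ ?_))
      · apply Submodule.mem_sup_left
        unfold HH
        exact Submodule.mem_iSup_of_mem j ⟨_, rfl⟩
      · apply ih
        have hb' : b ≠ m0 := (mem_erase.1 hb).1
        have hsub : (univ.filter fun j' => (fun b' => gl b (blk j' b')) = m0) ⊆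
            (univ.filter fun j' => (fun b' => m (blk j' b')) = m0).erase j := by
          intro j' hj'
          have hj'' := (mem_filter.1 hj').2
          have hne : j' ≠ j := by
            rintro rfl
            rw [hgl1] at hj''
            exact hb' hj''
          rw [mem_erase, mem_filter]
          refine ⟨hne, mem_univ _, ?_⟩
          rw [← hj'']
          ext1 b'
          have := congrFun (hgl2 b) ⟨blk j' b', fun b'' => hdis j j' b'' b' hne.symm⟩
          exact this.symm
        have hcard := Finset.card_le_card hsub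
        have hjm : j ∈ univ.filter fun j' => (fun b' => m (blk j' b')) = m0 :=
          mem_filter.2 ⟨mem_univ _, hj⟩
        have hlt := Finset.card_erase_lt_of_mem hjm
        omega
    · push Not at hex
      apply Submodule.mem_sup_right
      exact Submodule.subset_span ⟨⟨m, hex⟩, rfl⟩

lemma KK_finrank (blk : Fin q → β → ι) (m0 : β → κ × κ) :
    Module.finrank ℂ (KK (κ := κ) blk m0) ≤ Fintype.card (Bad blk m0) := by
  have h := finrank_range_le_card (R := ℂ)
    (b := fun m : Bad blk m0 => (Pi.single m.1 (1 : ℂ) : (ι → κ × κ) → ℂ))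
  exact h

theorem finrank_le (blk : Fin q → β → ι) (hinj : ∀ j, Function.Injective (blk j))
    (hdis : ∀ j j' b b', j ≠ j' → blk j b ≠ blk j' b') {F : (β → κ × κ) → ℂ} (hF : F ∈ CC κ β)
    (m0 : β → κ × κ) (h0 : F m0 ≠ 0) :
    Module.finrank ℂ (CC κ ι) ≤ Module.finrank ℂ (WW (κ := κ) blk F) + Fintype.card (Bad blk m0) := by
  obtain ⟨μ, h1, h2⟩ := exists_haar (κ := κ)
  set R := Matrix.toLin' (RR μ (AA (κ := κ) ι)) with hR
  have htop : HH (κ := κ) blk F ⊔ KK blk m0 = ⊤ := by
    rw [eq_top_iff]
    intro v _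
    have : v = ∑ m, v m • (Pi.single m (1 : ℂ) : (ι → κ × κ) → ℂ) := by
      ext m
      rw [Finset.sum_apply, Finset.sum_eq_single m]
      · simp
      · intro m' _ hm'
        rw [Pi.smul_apply, Pi.single_eq_of_ne hm'.symm, smul_zero]
      · intro h; exact absurd (mem_univ _) h
    rw [this]
    exact Submodule.sum_mem _ fun m _ => Submodule.smul_mem _ _
      (single_mem blk hinj hdis F m0 h0 _ m le_rfl)
  have hle : CC κ ι ≤ WW (κ := κ) blk F ⊔ (KK blk m0).map R := by
    intro v hv
    have h3 : v = R v := by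
      rw [hR, Matrix.toLin'_apply, RR_fix μ AA_cont hv]
    have h4 : R v ∈ (HH (κ := κ) blk F ⊔ KK blk m0).map R := by
      rw [htop]
      exact ⟨v, trivial, rfl⟩
    rw [h3]
    rw [Submodule.map_sup] at h4
    have h5 : (HH (κ := κ) blk F).map R ≤ WW (κ := κ) blk F := by
      unfold HH WW
      rw [Submodule.map_iSup]
      apply iSup_mono
      intro j
      rintro _ ⟨_, ⟨G, rfl⟩, rfl⟩
      refine ⟨RR μ (AA (κ := κ) (Co (blk j))) *ᵥ G, RR_mem μ AA_cont AA_mul G, ?_⟩
      rw [hR, Matrix.toLin'_apply]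
      exact (RR_bp μ (blk j) (hinj j) hF G).symm
    exact (sup_le_sup_right h5 _) h4
  calc Module.finrank ℂ (CC κ ι) ≤ Module.finrank ℂ
        (WW (κ := κ) blk F ⊔ (KK blk m0).map R : Submodule ℂ _) := Submodule.finrank_mono hle
    _ ≤ Module.finrank ℂ (WW (κ := κ) blk F) + Module.finrank ℂ ((KK blk m0).map R) :=
        Submodule.finrank_add_le_finrank_add_finrank _ _
    _ ≤ _ := by
        have h5 : Module.finrank ℂ ((KK blk m0).map R) ≤ Module.finrank ℂ (KK (κ := κ) blk m0) :=
          Submodule.finrank_map_le _ _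
        have h6 : Module.finrank ℂ (KK (κ := κ) blk m0) ≤ Fintype.card (Bad blk m0) := by
          exact KK_finrank blk m0
        omega

end Q257.CR
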