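import Pool.Agent.Q257.CR.Count

/-!
Dimension estimates.
-/

set_option autoImplicit false
set_option linter.unusedSectionVars false
set_option linter.unusedDecidableInType false
set_option linter.unusedTactic false
set_option linter.unreachableTactic false
set_option linter.unusedSimpArgs false

namespace Q257.CR

open Matrix Finset

variable {κ : Type} [Fintype κ] [DecidableEq κ]
  {ι : Type} [Fintype ι] [DecidableEq ι] {V : Type} [DecidableEq V] {γ : Type} [DecidableEq γ]

instance TT_finite (S : Finset V) : Module.Finite ℂ (TT κ S) := by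
  unfold TT
  apply FiniteDimensional.span_of_finite
  have h1 : {l : List V | l.Nodup ∧ l.toFinset = S}.Finite := by
    refine (List.finite_toSet S.toList.permutations).subset ?_
    rintro l ⟨h1, h2⟩
    show l ∈ S.toList.permutations
    rw [List.mem_permutations]
    apply List.perm_of_nodup_nodup_toFinset_eq h1 (Finset.nodup_toList S)
    rw [h2, Finset.toList_toFinset]
  refine (h1.image (wd κ)).subset ?_
  rintro f ⟨l, h2, h3, rfl⟩
  exact ⟨l, ⟨h2, h3⟩, rfl⟩

/-- renaming of variables -/
def pull (κ : Type) {γ V : Type} (a : γ → V) : ((γ → Matrix κ κ ℂ) → Matrix κ κ ℂ) →ₗ[ℂ]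
    ((V → Matrix κ κ ℂ) → Matrix κ κ ℂ) where
  toFun f := fun x => f (fun i => x (a i))
  map_add' := fun _ _ => rfl
  map_smul' := fun _ _ => rfl

lemma pull_wd (a : γ → V) (l : List γ) : pull κ a (wd κ l) = wd κ (l.map a) := by
  ext x : 1
  rw [wd_map]
  rfl

lemma pull_mem {a : γ → V} {S : Finset γ} (ha : Set.InjOn a S)
    {f : (γ → Matrix κ κ ℂ) → Matrix κ κ ℂ} (hf : f ∈ TT κ S) : pull κ a f ∈ TT κ (S.image a) := by
  have : TT κ S ≤ (TT κ (S.image a)).comap (pull κ a) := by
    unfold TT
    rw [Submodule.span_le]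
    rintro f ⟨l, h1, h2, rfl⟩
    refine Submodule.subset_span ⟨l.map a, ?_, ?_, pull_wd a l⟩
    · refine h1.map_on ?_
      intro x hx y hy hxy
      exact ha (by rw [← h2]; simpa using hx) (by rw [← h2]; simpa using hy) hxy
    · rw [← h2]
      ext v
      simp
  exact this hf

lemma pull_injective {a : γ → V} (ha : Function.Injective a) : Function.Injective (pull κ a) := by
  intro f g h
  ext x : 1
  obtain ⟨y, hy⟩ : ∃ y : V → Matrix κ κ ℂ, (fun i => y (a i)) = x :=
    ⟨Function.extend a x 0, by ext i : 1; rw [ha.extend_apply]⟩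
  have := congrFun h y
  show f x = g x
  rw [← hy]
  exact this

/-- the ordinary codimensions -/
noncomputable def cc (κ : Type) [Fintype κ] [DecidableEq κ] (n : ℕ) : ℕ :=
  Module.finrank ℂ (TT κ (univ : Finset (Fin n)))

lemma finrank_TT (S : Finset V) : Module.finrank ℂ (TT κ S) = cc κ S.card := by
  set a : Fin S.card → V := fun i => (S.equivFin.symm i).1 with ha
  have hai : Function.Injective a := fun i j h => S.equivFin.symm.injective (Subtype.ext h)
  have haS : ∀ v, v ∈ S ↔ ∃ i, a i = v := by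
    intro v
    constructor
    · intro hv
      exact ⟨S.equivFin ⟨v, hv⟩, by simp [ha]⟩
    · rintro ⟨i, rfl⟩
      exact (S.equivFin.symm i).2
  have h1 : (TT κ (univ : Finset (Fin S.card))).map (pull κ a) = TT κ S := by
    apply le_antisymm
    · rintro _ ⟨f, hf, rfl⟩
      have := pull_mem (hai.injOn) hf
      have h2 : (univ : Finset (Fin S.card)).image a = S := by
        ext v
        rw [haS]
        simp
      rw [h2] at this
      exact this
    · unfold TT
      rw [Submodule.span_le]
      rintro f ⟨l, h1, h2, rfl⟩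
      have h3 : l ∈ Set.range (List.map a) := by
        rw [Set.range_list_map]
        intro v hv
        exact (haS v).1 (by rw [← h2]; simpa using hv)
      obtain ⟨l', rfl⟩ := h3
      refine ⟨wd κ l', Submodule.subset_span ⟨l', h1.of_map a, ?_, rfl⟩, pull_wd a l'⟩
      rw [Finset.eq_univ_iff_forall]
      intro i
      have h4 : a i ∈ (l'.map a).toFinset := by
        rw [h2, haS]
        exact ⟨i, rfl⟩
      rw [List.mem_toFinset, List.mem_map] at h4
      obtain ⟨j, hj, hji⟩ := h4
      rw [List.mem_toFinset, ← hai hji]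
      exact hj
  rw [← h1]
  unfold cc
  exact (Submodule.equivMapOfInjective _ (pull_injective hai) _).finrank_eq.symm

/-- the center valued maps -/
def Cen (κ : Type) [Fintype κ] [DecidableEq κ] (V : Type) : Submodule ℂ ((V → Matrix κ κ ℂ) → Matrix κ κ ℂ) where
  carrier := {f | ∀ x, ∃ c : ℂ, f x = c • (1 : Matrix κ κ ℂ)}
  add_mem' := by
    intro f g hf hg x
    obtain ⟨c, hc⟩ := hf x
    obtain ⟨d, hd⟩ := hg x
    exact ⟨c + d, by rw [Pi.add_apply, hc, hd, add_smul]⟩
  zero_mem' := fun x => ⟨0, by simp⟩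
  smul_mem' := by
    intro d f hf x
    obtain ⟨c, hc⟩ := hf x
    exact ⟨d * c, by rw [Pi.smul_apply, hc, smul_smul]⟩

/-- the differences of codimensions -/
noncomputable def zz (κ : Type) [Fintype κ] [DecidableEq κ] (n : ℕ) : ℕ :=
  Module.finrank ℂ (TT κ (univ : Finset (Fin n)) ⊓ Cen κ (Fin n) : Submodule ℂ _)

/-- the conductor tensor -/
noncomputable def Fh (κ : Type) [Fintype κ] [DecidableEq κ] : (G3 κ ⊕ G3 κ → κ × κ) → ℂ :=
  fun m => FQ κ (fun i => m (Sum.inl i)) * FQ κ (fun i => m (Sum.inr i))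

lemma phi_Fh (x : G3 κ ⊕ G3 κ → Matrix κ κ ℂ) :
    phi (Fh κ) x = Qc (fun i => x (Sum.inl i)) * Qc (fun i => x (Sum.inr i)) := by
  rw [← phi_FQ]
  unfold phi
  rw [Finset.sum_mul_sum, ← Fintype.sum_prod_type',
    ← (Equiv.sumArrowEquivProdArrow (G3 κ) (G3 κ) (κ × κ)).sum_comp]
  refine Finset.sum_congr rfl fun m _ => ?_
  rw [Fintype.prod_sum_type]
  unfold Fh
  simp only [Equiv.sumArrowEquivProdArrow, Equiv.coe_fn_mk, Function.comp_apply]
  unfold Function.comp
  ring

lemma Fh_mem : Fh κ ∈ CC κ (G3 κ ⊕ G3 κ) := by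
  rw [mem_CC_iff]
  intro A hA x
  have h := (mem_CC_iff (κ := κ)).1 FQ_mem A hA
  rw [phi_FQ] at h
  rw [phi_Fh, phi_Fh, h (fun i => x (Sum.inl i)), h (fun i => x (Sum.inr i))]

lemma Fh_ne [Nonempty κ] : ∃ m, Fh κ m ≠ 0 := by
  obtain ⟨m, hm⟩ := FQ_ne (κ := κ)
  exact ⟨Sum.elim m m, mul_ne_zero hm hm⟩

/-- opening a slot, as a linear map -/
noncomputable def opn (s : ι) : ((ι → κ × κ) → ℂ) →ₗ[ℂ] ((ι → Matrix κ κ ℂ) → Matrix κ κ ℂ) where
  toFun F := EE (phi F) s
  map_add' := by
    intro F G
    ext y q p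
    show phi (F + G) _ = phi F _ + phi G _
    rw [phi_add]
  map_smul' := by
    intro c F
    ext y q p
    show phi (c • F) _ = c • phi F _
    rw [phi_smul, smul_eq_mul]

lemma opn_injective (s : ι) : Function.Injective (opn (κ := κ) s) := by
  rw [injective_iff_map_eq_zero]
  intro F hF
  ext m
  have h1 := congrFun (congrFun (congrFun hF (fun i => Matrix.single (m i).1 (m i).2 1)) (m s).2) (m s).1
  have h2 : Function.update (fun i => Matrix.single (m i).1 (m i).2 (1 : ℂ)) s
      (Matrix.single (m s).1 (m s).2 1) = fun i => Matrix.single (m i).1 (m i).2 1 := by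
    ext i : 1
    by_cases h : i = s
    · subst h; simp
    · rw [Function.update_of_ne h]
  have h3 : opn s F (fun i => Matrix.single (m i).1 (m i).2 1) (m s).2 (m s).1 =
      phi F (Function.update (fun i => Matrix.single (m i).1 (m i).2 (1 : ℂ)) s
      (Matrix.single (m s).1 (m s).2 1)) := rfl
  rw [h3, h2, phi_single] at h1
  exact h1

lemma finrank_le_cc [Nonempty κ] {q : ℕ} (blk : Fin q → G3 κ ⊕ G3 κ → ι)
    (hinj : ∀ j, Function.Injective (blk j)) (s : ι) (hs : ∀ j b, blk j b ≠ s) :
    Module.finrank ℂ (WW (κ := κ) blk (Fh κ)) ≤ cc κ (Fintype.card ι - 1) := by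
  have h1 : (WW (κ := κ) blk (Fh κ)).map (opn s) ≤ TT κ (univ.erase s) := by
    unfold WW
    rw [Submodule.map_iSup]
    apply iSup_le
    intro j
    rintro _ ⟨_, ⟨G, hG, rfl⟩, rfl⟩
    have h2 := key (V := ι) (⟨s, hs j⟩ : Co (blk j)) hG (blk j) (hinj j) Subtype.val
      (fun a b _ _ h => Subtype.ext h) (fun a _ b h => a.2 b h.symm)
    have h3 : opn s (bpL (blk j) (Fh κ) G) = (fun x : ι → Matrix κ κ ℂ =>
        (Qc (fun i => x (blk j (Sum.inl i))) * Qc (fun i => x (blk j (Sum.inr i)))) •
        EE (phi G) (⟨s, hs j⟩ : Co (blk j)) (x ∘ Subtype.val)) := by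
      ext x q p
      show phi (bp (blk j) (Fh κ) G) (Function.update x s (Matrix.single p q 1)) = _
      rw [phi_bp (blk j) (hinj j), phi_Fh, Matrix.smul_apply, smul_eq_mul]
      have e1 : ∀ b, Function.update x s (Matrix.single p q 1) (blk j b) = x (blk j b) :=
        fun b => Function.update_of_ne (hs j b) _ _
      simp only [e1]
      congr 1
      show _ = phi G _
      congr 1
      ext c : 1
      by_cases hc : c = ⟨s, hs j⟩
      · subst hc
        rw [Function.update_self, Function.update_self]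
      · rw [Function.update_of_ne hc, Function.update_of_ne (fun h => hc (Subtype.ext h))]
        rfl
    rw [h3]
    have h4 : (univ.image (blk j) ∪ (univ.erase (⟨s, hs j⟩ : Co (blk j))).image Subtype.val) =
        univ.erase s := by
      ext i
      simp only [mem_union, mem_image, mem_erase, mem_univ, and_true, true_and]
      constructor
      · rintro (⟨b, rfl⟩ | ⟨c, hc, rfl⟩)
        · exact hs j b
        · exact fun h => hc (Subtype.ext h)
      · intro hi
        by_cases hb : ∃ b, blk j b = i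
        · exact Or.inl hb
        · push Not at hb
          exact Or.inr ⟨⟨i, hb⟩, fun h => hi (congrArg Subtype.val h), rfl⟩
    rw [← h4]
    exact h2
  calc Module.finrank ℂ (WW (κ := κ) blk (Fh κ)) =
      Module.finrank ℂ ((WW (κ := κ) blk (Fh κ)).map (opn s)) :=
        (Submodule.equivMapOfInjective _ (opn_injective s) _).finrank_eq
    _ ≤ Module.finrank ℂ (TT κ (univ.erase s)) := Submodule.finrank_mono h1
    _ = cc κ (Fintype.card ι - 1) := by
      rw [finrank_TT, Finset.card_erase_of_mem (mem_univ s), Finset.card_univ]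

/-- adding a trace factor -/
def addtr (G : (ι → κ × κ) → ℂ) : (Option ι → κ × κ) → ℂ :=
  fun m => G (fun i => m (some i)) * if (m none).1 = (m none).2 then 1 else 0

lemma phi_addtr (G : (ι → κ × κ) → ℂ) (y : Option ι → Matrix κ κ ℂ) :
    phi (addtr G) y = phi G (fun i => y (some i)) * (y none).trace := by
  unfold phi
  rw [← (Equiv.piOptionEquivProd (β := fun _ : Option ι => κ × κ)).symm.sum_comp,
    Fintype.sum_prod_type_right, Finset.sum_mul]
  refine Finset.sum_congr rfl fun m _ => ?_
  unfold addtr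
  simp only [Fintype.prod_option, Equiv.piOptionEquivProd_symm_apply]
  rw [Fintype.sum_prod_type]
  unfold Matrix.trace
  rw [Finset.mul_sum]
  refine Finset.sum_congr rfl fun p _ => ?_
  rw [Finset.sum_eq_single p]
  · simp only [if_true, Matrix.diag_apply, mul_one]
    ring
  · intro q _ hq
    rw [if_neg (fun h => hq h.symm)]
    ring
  · intro h; exact absurd (mem_univ _) h

lemma addtr_mem {G : (ι → κ × κ) → ℂ} (hG : G ∈ CC κ ι) : addtr G ∈ CC κ (Option ι) := by
  rw [mem_CC_iff]
  intro A hA x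
  have h2 : Aᴴ * A = 1 := Matrix.mem_unitaryGroup_iff'.1 hA
  have h := (mem_CC_iff (κ := κ)).1 hG A hA
  rw [phi_addtr, phi_addtr, h (fun i => x (some i)), Matrix.trace_mul_cycle, h2, one_mul]

lemma EE_addtr (G : (ι → κ × κ) → ℂ) (y : Option ι → Matrix κ κ ℂ) :
    EE (phi (addtr G)) none y = phi G (fun i => y (some i)) • (1 : Matrix κ κ ℂ) := by
  ext q p
  unfold EE
  rw [Matrix.of_apply, phi_addtr, Function.update_self, Matrix.smul_apply, smul_eq_mul]
  congr 1
  by_cases h : q = p
  · subst h; simp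
  · rw [Matrix.one_apply_ne h, Matrix.trace_single_eq_of_ne _ _ _ (fun h' => h h'.symm)]

/-- scalar maps -/
noncomputable def sca {n : ℕ} (e : ι ≃ Fin n) : ((ι → κ × κ) → ℂ) →ₗ[ℂ]
    ((Fin n → Matrix κ κ ℂ) → Matrix κ κ ℂ) where
  toFun F := fun x => phi F (fun i => x (e i)) • (1 : Matrix κ κ ℂ)
  map_add' := by
    intro F G
    ext x : 1
    rw [Pi.add_apply, phi_add, add_smul]
  map_smul' := by
    intro c F
    ext x : 1
    rw [Pi.smul_apply, phi_smul, mul_smul, RingHom.id_apply]

lemma sca_injective [Nonempty κ] {n : ℕ} (e : ι ≃ Fin n) : Function.Injective (sca (κ := κ) e) := by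
  rw [injective_iff_map_eq_zero]
  intro F hF
  ext m
  obtain ⟨o⟩ := ‹Nonempty κ›
  have h1 := congrFun (congrFun (congrFun hF
    (fun j => Matrix.single (m (e.symm j)).1 (m (e.symm j)).2 1)) o) o
  have h3 : sca e F (fun j => Matrix.single (m (e.symm j)).1 (m (e.symm j)).2 1) o o =
      phi F (fun i => Matrix.single (m (e.symm (e i))).1 (m (e.symm (e i))).2 1) *
        (1 : Matrix κ κ ℂ) o o := rfl
  rw [h3, Matrix.one_apply_eq, mul_one] at h1
  simp only [Equiv.symm_apply_apply] at h1
  rw [phi_single] at h1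
  exact h1

lemma finrank_le_zz [Nonempty κ] {q : ℕ} (blk : Fin q → G3 κ ⊕ G3 κ → ι)
    (hinj : ∀ j, Function.Injective (blk j)) :
    Module.finrank ℂ (WW (κ := κ) blk (Fh κ)) ≤ zz κ (Fintype.card ι) := by
  set e := Fintype.equivFin ι with he
  have hd : 0 < dd κ := Fintype.card_pos_iff.2 inferInstance
  have h1 : (WW (κ := κ) blk (Fh κ)).map (sca e) ≤
      (TT κ (univ : Finset (Fin (Fintype.card ι))) ⊓ Cen κ (Fin (Fintype.card ι))) := by
    unfold WW
    rw [Submodule.map_iSup]
    apply iSup_le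
    intro j
    rintro _ ⟨_, ⟨G, hG, rfl⟩, rfl⟩
    refine ⟨?_, fun x => ⟨_, rfl⟩⟩
    set μ : Option (Co (blk j)) → ι := fun o => o.elim (blk j (Sum.inl (⟨0, hd⟩, 0))) Subtype.val with hμ
    have h2 := key (V := ι) (none : Option (Co (blk j))) (addtr_mem hG) (blk j) (hinj j) μ
      (fun a b ha hb h => by
        obtain ⟨a', rfl⟩ := Option.ne_none_iff_exists'.1 ha
        obtain ⟨b', rfl⟩ := Option.ne_none_iff_exists'.1 hb
        exact congrArg some (Subtype.ext h)) (fun a ha b h => by
        obtain ⟨a', rfl⟩ := Option.ne_none_iff_exists'.1 ha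
        exact a'.2 b h.symm)
    have h4 : (univ.image (blk j) ∪ (univ.erase (none : Option (Co (blk j)))).image μ) =
        univ := by
      rw [Finset.eq_univ_iff_forall]
      intro i
      rw [mem_union, mem_image, mem_image]
      by_cases hb : ∃ b, blk j b = i
      · obtain ⟨b, hb⟩ := hb
        exact Or.inl ⟨b, mem_univ _, hb⟩
      · push Not at hb
        exact Or.inr ⟨some ⟨i, hb⟩, mem_erase.2 ⟨by simp, mem_univ _⟩, rfl⟩
    rw [h4] at h2
    have h5 := pull_mem (a := e) e.injective.injOn h2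
    rw [Finset.image_univ_of_surjective e.surjective] at h5
    have h3 : sca e (bpL (blk j) (Fh κ) G) = pull κ e (fun x : ι → Matrix κ κ ℂ =>
        (Qc (fun i => x (blk j (Sum.inl i))) * Qc (fun i => x (blk j (Sum.inr i)))) •
        EE (phi (addtr G)) none (x ∘ μ)) := by
      ext x : 1
      show phi (bp (blk j) (Fh κ) G) (fun i => x (e i)) • (1 : Matrix κ κ ℂ) =
        (Qc (fun i => x (e (blk j (Sum.inl i)))) * Qc (fun i => x (e (blk j (Sum.inr i))))) •
        EE (phi (addtr G)) none ((fun i => x (e i)) ∘ μ)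
      rw [phi_bp (blk j) (hinj j), phi_Fh, EE_addtr, smul_smul]
      rfl
    rw [h3]
    exact h5
  have hfin : Module.Finite ℂ (TT κ (univ : Finset (Fin (Fintype.card ι))) ⊓
      Cen κ (Fin (Fintype.card ι)) : Submodule ℂ _) :=
    Submodule.finiteDimensional_of_le (inf_le_left)
  calc Module.finrank ℂ (WW (κ := κ) blk (Fh κ)) =
      Module.finrank ℂ ((WW (κ := κ) blk (Fh κ)).map (sca e)) :=
        (Submodule.equivMapOfInjective _ (sca_injective e) _).finrank_eq
    _ ≤ zz κ (Fintype.card ι) := Submodule.finrank_mono h1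

end Q257.CR
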