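import Mathlib

/-!
The first fundamental theorem for matrices commuting with the tensor powers of the unitary group.
-/

set_option autoImplicit false
set_option linter.unusedSectionVars false
set_option linter.unusedDecidableInType false

namespace Q257.CR

open Matrix Finset

variable {κ : Type} [Fintype κ] [DecidableEq κ] {ι : Type} [Fintype ι] [DecidableEq ι]

/-- tensor powers -/
def TU (M : Matrix κ κ ℂ) : Matrix (ι → κ) (ι → κ) ℂ := fun a b => ∏ i, M (a i) (b i)

lemma TU_mul (M N : Matrix κ κ ℂ) : (TU (M * N) : Matrix (ι → κ) (ι → κ) ℂ) = TU M * TU N := by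
  ext a b
  unfold TU
  simp only [Matrix.mul_apply]
  rw [Finset.prod_univ_sum, Fintype.piFinset_univ]
  exact Finset.sum_congr rfl fun c _ => Finset.prod_mul_distrib

lemma TU_one : (TU (1 : Matrix κ κ ℂ) : Matrix (ι → κ) (ι → κ) ℂ) = 1 := by
  ext a b
  unfold TU
  rw [Matrix.one_apply]
  split_ifs with h
  · subst h
    simp
  · obtain ⟨i, hi⟩ := Function.ne_iff.1 h
    exact Finset.prod_eq_zero (mem_univ i) (Matrix.one_apply_ne hi)

/-- step one: diagonal matrices -/
lemma comm_diag (X : Matrix (ι → κ) (ι → κ) ℂ)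
    (hX : ∀ U ∈ Matrix.unitaryGroup κ ℂ, X * TU U = TU U * X) (s : κ → ℂ) :
    X * TU (diagonal s) = TU (diagonal s) * X := by
  have hTd : ∀ s : κ → ℂ, (TU (diagonal s) : Matrix (ι → κ) (ι → κ) ℂ) =
      diagonal (fun a => ∏ i, s (a i)) := by
    intro s
    ext a b
    unfold TU
    rw [Matrix.diagonal_apply]
    split_ifs with h
    · subst h
      simp
    · obtain ⟨i, hi⟩ := Function.ne_iff.1 h
      exact Finset.prod_eq_zero (mem_univ i) (Matrix.diagonal_apply_ne _ hi)
  rw [hTd]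
  ext a b
  rw [Matrix.mul_diagonal, Matrix.diagonal_mul]
  by_cases hab : X a b = 0
  · rw [hab, zero_mul, mul_zero]
  have hcount : ∀ (c : ι → κ) (s : κ → ℂ), ∏ i, s (c i) = ∏ j, s j ^ (univ.filter (fun i => c i = j)).card := by
    intro c s
    rw [← Finset.prod_fiberwise univ c (fun i => s (c i))]
    refine Finset.prod_congr rfl fun j _ => ?_
    rw [Finset.prod_congr rfl (fun i hi => by rw [(mem_filter.1 hi).2]), Finset.prod_const]
  have hcnt : ∀ j, (univ.filter (fun i => a i = j)).card = (univ.filter (fun i => b i = j)).card := by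
    intro j
    set N := (univ.filter (fun i => a i = j)).card + (univ.filter (fun i => b i = j)).card + 1 with hN
    have hN0 : N ≠ 0 := by omega
    have hz := Complex.isPrimitiveRoot_exp N hN0
    set z := Complex.exp (2 * Real.pi * Complex.I / N) with hzdef
    have hznorm : ‖z‖ = 1 := hz.norm'_eq_one hN0
    set t : κ → ℂ := Function.update (fun _ => 1) j z with ht
    have htn : ∀ l, ‖t l‖ = 1 := by
      intro l
      by_cases hl : l = j
      · rw [hl, ht, Function.update_self, hznorm]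
      · rw [ht, Function.update_of_ne hl, norm_one]
    have hU : diagonal t ∈ Matrix.unitaryGroup κ ℂ := by
      rw [Matrix.mem_unitaryGroup_iff, Matrix.star_eq_conjTranspose, Matrix.diagonal_conjTranspose,
        Matrix.diagonal_mul_diagonal, ← Matrix.diagonal_one]
      congr 1
      ext l
      rw [Pi.star_apply, RCLike.star_def, Complex.mul_conj, Complex.normSq_eq_norm_sq, htn]
      norm_num
    have h1 := congrFun (congrFun (hX _ hU) a) b
    rw [hTd, Matrix.mul_diagonal, Matrix.diagonal_mul, mul_comm] at h1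
    have h2 := mul_right_cancel₀ hab h1
    rw [hcount, hcount] at h2
    have h3 : ∀ c : ι → κ, ∏ l, t l ^ (univ.filter (fun i => c i = l)).card =
        z ^ (univ.filter (fun i => c i = j)).card := by
      intro c
      rw [Finset.prod_eq_single j]
      · rw [ht, Function.update_self]
      · intro l _ hl
        rw [ht, Function.update_of_ne hl, one_pow]
      · intro h; exact absurd (mem_univ j) h
    rw [h3, h3] at h2
    exact (hz.pow_inj (by omega) (by omega) h2).symm
  rw [hcount a, hcount b, mul_comm]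
  simp only [hcnt]

/-- step two: Hermitian matrices -/
lemma comm_herm (X : Matrix (ι → κ) (ι → κ) ℂ)
    (hX : ∀ U ∈ Matrix.unitaryGroup κ ℂ, X * TU U = TU U * X) (H : Matrix κ κ ℂ)
    (hH : H.IsHermitian) : X * TU H = TU H * X := by
  have h1 := hH.spectral_theorem
  have h2 : ∃ U ∈ Matrix.unitaryGroup κ ℂ, ∃ s : κ → ℂ, H = U * diagonal s * star U := by
    refine ⟨_, hH.eigenvectorUnitary.2, (RCLike.ofReal ∘ hH.eigenvalues), ?_⟩
    rw [Unitary.conjStarAlgAut_apply] at h1
    exact h1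
  obtain ⟨U, hU, s, rfl⟩ := h2
  have hU' : star U ∈ Matrix.unitaryGroup κ ℂ := Unitary.star_mem hU
  rw [TU_mul, TU_mul, ← mul_assoc, ← mul_assoc, hX U hU, mul_assoc (TU U) X, comm_diag X hX,
    ← mul_assoc, mul_assoc _ X, hX _ hU', ← mul_assoc]

/-- step three: all matrices -/
lemma comm_all (X : Matrix (ι → κ) (ι → κ) ℂ)
    (hX : ∀ U ∈ Matrix.unitaryGroup κ ℂ, X * TU U = TU U * X) (M : Matrix κ κ ℂ) :
    X * TU M = TU M * X := by
  set H1 : Matrix κ κ ℂ := (1 / 2 : ℂ) • (M + Mᴴ) with hH1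
  set H2 : Matrix κ κ ℂ := (-Complex.I / 2 : ℂ) • (M - Mᴴ) with hH2
  have e : M = H1 + Complex.I • H2 := by
    rw [hH1, hH2, smul_smul]
    have : Complex.I * (-Complex.I / 2) = 1 / 2 := by
      rw [mul_div_assoc', mul_neg, Complex.I_mul_I, neg_neg]
    rw [this, ← smul_add]
    ext i j
    simp
    ring
  have hh1 : H1.IsHermitian := by
    unfold Matrix.IsHermitian
    rw [hH1, conjTranspose_smul, conjTranspose_add, conjTranspose_conjTranspose, add_comm Mᴴ M]
    simp
  have hh2 : H2.IsHermitian := by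
    unfold Matrix.IsHermitian
    rw [hH2, conjTranspose_smul, conjTranspose_sub, conjTranspose_conjTranspose]
    have : star (-Complex.I / 2) = Complex.I / 2 := by
      simp
    rw [this, ← neg_sub M Mᴴ, smul_neg, neg_div, neg_smul]
  have hreal : ∀ t : ℝ, X * TU (H1 + (t : ℂ) • H2) = TU (H1 + (t : ℂ) • H2) * X := by
    intro t
    apply comm_herm X hX
    apply hh1.add
    unfold Matrix.IsHermitian
    rw [conjTranspose_smul, hh2.eq]
    simp
  ext a b
  let P : Polynomial ℂ := ∑ c, Polynomial.C (X a c) *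
      ∏ i, (Polynomial.C (H1 (c i) (b i)) + Polynomial.X * Polynomial.C (H2 (c i) (b i))) -
    ∑ c, (∏ i, (Polynomial.C (H1 (a i) (c i)) + Polynomial.X * Polynomial.C (H2 (a i) (c i)))) *
      Polynomial.C (X c b)
  have hP : ∀ z : ℂ, P.eval z = (X * (TU (H1 + z • H2) : Matrix (ι → κ) (ι → κ) ℂ)) a b -
      ((TU (H1 + z • H2) : Matrix (ι → κ) (ι → κ) ℂ) * X) a b := by
    intro z
    simp only [P, Polynomial.eval_sub, Polynomial.eval_finsetSum, Polynomial.eval_mul,
      Polynomial.eval_C, Polynomial.eval_prod, Polynomial.eval_add, Polynomial.eval_X,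
      Matrix.mul_apply, TU, Matrix.add_apply, Matrix.smul_apply, smul_eq_mul]
  have hP0 : P = 0 := by
    apply Polynomial.eq_zero_of_infinite_isRoot
    apply Set.Infinite.mono (s := Set.range (fun t : ℝ => (t : ℂ)))
    · rintro _ ⟨t, rfl⟩
      show P.eval (t : ℂ) = 0
      rw [hP, hreal t, sub_self]
    · exact Set.infinite_range_of_injective Complex.ofReal_injective
  have h1 := hP Complex.I
  rw [hP0, Polynomial.eval_zero, ← e] at h1
  exact sub_eq_zero.1 h1.symm

/-- symmetrized tensor products -/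
def Sy (H : ι → Matrix κ κ ℂ) : Matrix (ι → κ) (ι → κ) ℂ :=
  fun a b => ∑ σ : Equiv.Perm ι, ∏ i, H (σ i) (a i) (b i)

/-- polarization -/
lemma Sy_eq (H : ι → Matrix κ κ ℂ) : Sy H =
    ∑ S ∈ (univ : Finset ι).powerset, ((-1 : ℂ) ^ (Fintype.card ι - S.card)) •
      (TU (∑ j ∈ S, H j) : Matrix (ι → κ) (ι → κ) ℂ) := by
  ext a b
  rw [Matrix.sum_apply]
  simp only [Matrix.smul_apply, smul_eq_mul]
  unfold TU Sy
  simp only [Matrix.sum_apply]
  set m : ι → ι → ℂ := fun i j => H j (a i) (b i) with hm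
  -- expand the products
  have h1 : ∀ S : Finset ι, ∏ i, ∑ j ∈ S, H j (a i) (b i) =
      ∑ f : ι → ι, if (∀ i, f i ∈ S) then ∏ i, m i (f i) else 0 := by
    intro S
    rw [Finset.prod_univ_sum, ← Finset.sum_filter]
    apply Finset.sum_congr _ (fun _ _ => rfl)
    ext f
    simp [Fintype.mem_piFinset]
  simp only [h1, Finset.mul_sum]
  rw [Finset.sum_comm]
  have h2 : ∀ f : ι → ι, ∑ S ∈ (univ : Finset ι).powerset,
      (-1 : ℂ) ^ (Fintype.card ι - S.card) * (if (∀ i, f i ∈ S) then ∏ i, m i (f i) else 0) =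
      if Function.Surjective f then ∏ i, m i (f i) else 0 := by
    intro f
    have h3 : ∀ S : Finset ι, (∀ i, f i ∈ S) ↔ univ.image f ⊆ S := by
      intro S
      rw [Finset.image_subset_iff]
      simp
    simp only [h3]
    have h4 : ∑ S ∈ (univ : Finset ι).powerset, (-1 : ℂ) ^ (Fintype.card ι - S.card) *
        (if univ.image f ⊆ S then ∏ i, m i (f i) else 0) =
        (∑ T ∈ ((univ : Finset ι) \ univ.image f).powerset, (-1 : ℂ) ^ T.card) * ∏ i, m i (f i) := by
      rw [Finset.sum_mul]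
      simp only [mul_ite, mul_zero]
      rw [← Finset.sum_filter]
      refine Finset.sum_bij' (fun S _ => univ \ S) (fun T _ => univ \ T) ?_ ?_ ?_ ?_ ?_
      · intro S hS
        rw [mem_filter] at hS
        rw [mem_powerset]
        exact sdiff_subset_sdiff (Subset.refl _) hS.2
      · intro T hT
        rw [mem_powerset] at hT
        rw [mem_filter, mem_powerset]
        refine ⟨subset_univ _, ?_⟩
        intro x hx
        rw [mem_sdiff]
        refine ⟨mem_univ _, fun hxT => ?_⟩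
        exact (mem_sdiff.1 (hT hxT)).2 hx
      · intro S _
        simp
      · intro T _
        simp
      · intro S _
        rw [Finset.card_univ_sdiff]
    rw [h4]
    have h5 := Finset.sum_powerset_neg_one_pow_card (x := (univ : Finset ι) \ univ.image f)
    have h6 : ∑ T ∈ ((univ : Finset ι) \ univ.image f).powerset, (-1 : ℂ) ^ T.card =
        if (univ : Finset ι) \ univ.image f = ∅ then 1 else 0 := by
      have h7 := congrArg (Int.cast : ℤ → ℂ) h5
      push_cast at h7
      rw [h7]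
    rw [h6]
    have h7 : (univ : Finset ι) \ univ.image f = ∅ ↔ Function.Surjective f := by
      rw [Finset.sdiff_eq_empty_iff_subset, Finset.univ_subset_iff, Finset.eq_univ_iff_forall]
      simp only [Finset.mem_image, Finset.mem_univ, true_and]
      rfl
    simp only [h7]
    split_ifs <;> simp
  simp only [h2]
  rw [← Finset.sum_filter]
  refine Finset.sum_nbij (fun σ : Equiv.Perm ι => (σ : ι → ι)) ?_ ?_ ?_ ?_
  · intro σ _
    rw [mem_filter]
    exact ⟨mem_univ _, σ.surjective⟩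
  · intro σ _ τ _ h
    exact DFunLike.coe_injective h
  · intro f hf
    rw [Finset.mem_coe, mem_filter] at hf
    refine ⟨Equiv.ofBijective f (Finite.surjective_iff_bijective.1 hf.2), Finset.mem_coe.2 (mem_univ _), rfl⟩
  · intro σ _
    rfl

/-- invariance under simultaneous permutations -/
def Sinv (Y : Matrix (ι → κ) (ι → κ) ℂ) : Prop :=
  ∀ (σ : Equiv.Perm ι) (a b : ι → κ), Y (a ∘ σ) (b ∘ σ) = Y a b

/-- step four -/
lemma comm_Sinv (X : Matrix (ι → κ) (ι → κ) ℂ)
    (hX : ∀ M : Matrix κ κ ℂ, X * TU M = TU M * X) (Y : Matrix (ι → κ) (ι → κ) ℂ)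
    (hY : Sinv Y) : X * Y = Y * X := by
  have h1 : ∀ H : ι → Matrix κ κ ℂ, X * Sy H = Sy H * X := by
    intro H
    rw [Sy_eq, Finset.mul_sum, Finset.sum_mul]
    refine Finset.sum_congr rfl fun S _ => ?_
    rw [Matrix.mul_smul, Matrix.smul_mul, hX]
  have h2 : (Fintype.card (Equiv.Perm ι) : ℂ) • Y =
      ∑ c : ι → κ, ∑ d : ι → κ, Y c d • Sy (fun i => Matrix.single (c i) (d i) (1 : ℂ)) := by
    ext a b
    simp only [Matrix.sum_apply, Matrix.smul_apply, smul_eq_mul]
    unfold Sy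
    simp only [Finset.mul_sum]
    have h3 : ∀ c d : ι → κ, ∀ σ : Equiv.Perm ι,
        Y c d * ∏ i, Matrix.single (c (σ i)) (d (σ i)) (1 : ℂ) (a i) (b i) =
        if c = a ∘ σ.symm ∧ d = b ∘ σ.symm then Y c d else 0 := by
      intro c d σ
      split_ifs with h
      · obtain ⟨rfl, rfl⟩ := h
        simp
      · rw [mul_eq_zero]
        right
        by_contra h0
        apply h
        have h0' := Finset.prod_ne_zero_iff.1 h0
        have h4 : ∀ i, c (σ i) = a i ∧ d (σ i) = b i := by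
          intro i
          by_contra h5
          apply h0' i (mem_univ i)
          rw [Matrix.single_apply]
          exact if_neg h5
        constructor
        · ext i
          have := (h4 (σ.symm i)).1
          simpa using this
        · ext i
          have := (h4 (σ.symm i)).2
          simpa using this
    simp only [h3]
    have h4 : ∀ c : ι → κ, ∑ d : ι → κ, ∑ σ : Equiv.Perm ι,
        (if c = a ∘ σ.symm ∧ d = b ∘ σ.symm then Y c d else 0) =
        ∑ σ : Equiv.Perm ι, if c = a ∘ σ.symm then Y c (b ∘ σ.symm) else 0 := by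
      intro c
      rw [Finset.sum_comm]
      refine Finset.sum_congr rfl fun σ _ => ?_
      by_cases hc : c = a ∘ σ.symm
      · simp [hc]
      · simp [hc]
    simp only [h4]
    rw [Finset.sum_comm]
    have h5 : ∀ σ : Equiv.Perm ι, ∑ c : ι → κ, (if c = a ∘ σ.symm then Y c (b ∘ σ.symm) else 0) =
        Y a b := by
      intro σ
      rw [Finset.sum_ite_eq' univ (a ∘ σ.symm) (fun c => Y c (b ∘ σ.symm)), if_pos (mem_univ _)]
      exact hY σ.symm a b
    simp only [h5]
    rw [Finset.sum_const, Finset.card_univ, nsmul_eq_mul]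
  have h3 : X * ((Fintype.card (Equiv.Perm ι) : ℂ) • Y) = ((Fintype.card (Equiv.Perm ι) : ℂ) • Y) * X := by
    rw [h2, Finset.mul_sum, Finset.sum_mul]
    refine Finset.sum_congr rfl fun c _ => ?_
    rw [Finset.mul_sum, Finset.sum_mul]
    refine Finset.sum_congr rfl fun d _ => ?_
    rw [Matrix.mul_smul, Matrix.smul_mul, h1]
  rw [Matrix.mul_smul, Matrix.smul_mul] at h3
  have hne : (Fintype.card (Equiv.Perm ι) : ℂ) ≠ 0 := by
    rw [Nat.cast_ne_zero]
    exact Fintype.card_ne_zero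
  exact smul_right_injective _ hne h3

/-- permutation matrices -/
def Pm (σ : Equiv.Perm ι) : Matrix (ι → κ) (ι → κ) ℂ := fun a b => if b = a ∘ σ then 1 else 0

lemma Pm_mul_apply (σ : Equiv.Perm ι) (Z : Matrix (ι → κ) (ι → κ) ℂ) (a b : ι → κ) :
    ((Pm σ : Matrix (ι → κ) (ι → κ) ℂ) * Z) a b = Z (a ∘ σ) b := by
  rw [Matrix.mul_apply]
  unfold Pm
  simp

lemma Pm_one : (Pm 1 : Matrix (ι → κ) (ι → κ) ℂ) = 1 := by
  ext a b
  unfold Pm
  rw [Matrix.one_apply]
  by_cases h : a = b
  · subst h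
    simp
  · rw [if_neg h, if_neg]
    intro h2
    exact h (by simpa using h2.symm)

lemma Pm_mul (σ τ : Equiv.Perm ι) :
    (Pm σ : Matrix (ι → κ) (ι → κ) ℂ) * (Pm τ : Matrix (ι → κ) (ι → κ) ℂ) = Pm (σ * τ) := by
  ext a b
  rw [Pm_mul_apply]
  rfl

/-- the span of the permutation matrices -/
def PS : Submodule ℂ (Matrix (ι → κ) (ι → κ) ℂ) := Submodule.span ℂ (Set.range Pm)

lemma Pm_mul_mem (σ : Equiv.Perm ι) {Z : Matrix (ι → κ) (ι → κ) ℂ} (hZ : Z ∈ (PS : Submodule ℂ _)) :
    Pm σ * Z ∈ (PS : Submodule ℂ (Matrix (ι → κ) (ι → κ) ℂ)) := by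
  refine Submodule.span_induction ?_ ?_ ?_ ?_ hZ
  · rintro _ ⟨τ, rfl⟩
    rw [Pm_mul]
    exact Submodule.subset_span ⟨_, rfl⟩
  · rw [mul_zero]; exact Submodule.zero_mem _
  · intro x y _ _ hx hy
    rw [mul_add]
    exact Submodule.add_mem _ hx hy
  · intro c x _ hx
    rw [Matrix.mul_smul]
    exact Submodule.smul_mem _ c hx

/-- **The first fundamental theorem**. -/
theorem fft (X : Matrix (ι → κ) (ι → κ) ℂ)
    (hX : ∀ U ∈ Matrix.unitaryGroup κ ℂ, X * TU U = TU U * X) :
    X ∈ (PS : Submodule ℂ (Matrix (ι → κ) (ι → κ) ℂ)) := by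
  have hcomm := comm_Sinv X (comm_all X hX)
  obtain ⟨q, hq⟩ := (PS : Submodule ℂ (Matrix (ι → κ) (ι → κ) ℂ)).subtype.exists_leftInverse_of_injective
    (Submodule.ker_subtype _)
  set N : ℂ := (Fintype.card (Equiv.Perm ι) : ℂ) with hN
  have hne : N ≠ 0 := by
    rw [hN, Nat.cast_ne_zero]
    exact Fintype.card_ne_zero
  let p : Matrix (ι → κ) (ι → κ) ℂ → Matrix (ι → κ) (ι → κ) ℂ := fun Z =>
    N⁻¹ • ∑ σ : Equiv.Perm ι, Pm σ * (q (Pm σ⁻¹ * Z) : Matrix (ι → κ) (ι → κ) ℂ)
  have hp_mem : ∀ Z, p Z ∈ (PS : Submodule ℂ (Matrix (ι → κ) (ι → κ) ℂ)) := fun Z =>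
    Submodule.smul_mem _ _ (Submodule.sum_mem _ fun σ _ => Pm_mul_mem σ (q _).2)
  have hp_fix : ∀ Z ∈ (PS : Submodule ℂ (Matrix (ι → κ) (ι → κ) ℂ)), p Z = Z := by
    intro Z hZ
    have h1 : ∀ σ : Equiv.Perm ι, Pm σ * (q (Pm σ⁻¹ * Z) : Matrix (ι → κ) (ι → κ) ℂ) = Z := by
      intro σ
      have h2 := Pm_mul_mem σ⁻¹ hZ
      have h3 : q (Pm σ⁻¹ * Z) = ⟨Pm σ⁻¹ * Z, h2⟩ := by
        have := LinearMap.congr_fun hq ⟨Pm σ⁻¹ * Z, h2⟩
        simpa using this
      rw [h3]
      show Pm σ * (Pm σ⁻¹ * Z) = Z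
      rw [← mul_assoc, Pm_mul, mul_inv_cancel, Pm_one, one_mul]
    show N⁻¹ • ∑ σ : Equiv.Perm ι, Pm σ * (q (Pm σ⁻¹ * Z) : Matrix (ι → κ) (ι → κ) ℂ) = Z
    rw [Finset.sum_congr rfl (fun σ _ => h1 σ), Finset.sum_const, Finset.card_univ,
      ← Nat.cast_smul_eq_nsmul ℂ, ← hN, smul_smul, inv_mul_cancel₀ hne, one_smul]
  have hp_Pm : ∀ (τ : Equiv.Perm ι) Z, p (Pm τ * Z) = Pm τ * p Z := by
    intro τ Z
    show N⁻¹ • ∑ σ : Equiv.Perm ι, Pm σ * (q (Pm σ⁻¹ * (Pm τ * Z)) : Matrix (ι → κ) (ι → κ) ℂ) =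
      Pm τ * (N⁻¹ • ∑ σ : Equiv.Perm ι, Pm σ * (q (Pm σ⁻¹ * Z) : Matrix (ι → κ) (ι → κ) ℂ))
    rw [Matrix.mul_smul, Finset.mul_sum]
    congr 1
    rw [← Equiv.sum_comp (Equiv.mulLeft τ)]
    refine Finset.sum_congr rfl fun σ _ => ?_
    rw [Equiv.coe_mulLeft, _root_.mul_inv_rev, ← mul_assoc, Pm_mul, inv_mul_cancel_right, ← mul_assoc,
      Pm_mul]
  have hp_add : ∀ Z Z', p (Z + Z') = p Z + p Z' := by
    intro Z Z'
    show N⁻¹ • ∑ σ : Equiv.Perm ι, Pm σ * (q (Pm σ⁻¹ * (Z + Z')) : Matrix (ι → κ) (ι → κ) ℂ) = _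
    simp only [mul_add, map_add, Submodule.coe_add, Finset.sum_add_distrib, smul_add]
    rfl
  have hp_smul : ∀ (c : ℂ) Z, p (c • Z) = c • p Z := by
    intro c Z
    show N⁻¹ • ∑ σ : Equiv.Perm ι, Pm σ * (q (Pm σ⁻¹ * (c • Z)) : Matrix (ι → κ) (ι → κ) ℂ) =
      c • (N⁻¹ • ∑ σ : Equiv.Perm ι, Pm σ * (q (Pm σ⁻¹ * Z) : Matrix (ι → κ) (ι → κ) ℂ))
    simp only [Matrix.mul_smul, map_smul, Submodule.coe_smul, ← Finset.smul_sum]
    rw [smul_comm]
  let pL : Matrix (ι → κ) (ι → κ) ℂ →ₗ[ℂ] Matrix (ι → κ) (ι → κ) ℂ :=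
    { toFun := p, map_add' := hp_add, map_smul' := hp_smul }
  -- the coefficients
  have hY : ∀ b d : ι → κ, Sinv (fun a c : ι → κ => p (Matrix.single c d (1 : ℂ)) a b) := by
    intro b d σ a c
    show p (Matrix.single (c ∘ σ) d (1 : ℂ)) (a ∘ σ) b = p (Matrix.single c d (1 : ℂ)) a b
    have h1 : (Matrix.single (c ∘ σ) d (1 : ℂ) : Matrix (ι → κ) (ι → κ) ℂ) =
        Pm σ⁻¹ * Matrix.single c d (1 : ℂ) := by
      ext a' b'
      rw [Pm_mul_apply, Matrix.single_apply, Matrix.single_apply]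
      have : c ∘ σ = a' ↔ c = a' ∘ (σ⁻¹ : Equiv.Perm ι) := by
        constructor
        · rintro rfl
          ext i
          simp
        · rintro rfl
          ext i
          simp
      simp only [this]
    rw [h1, hp_Pm, Pm_mul_apply]
    congr 1
    ext i
    simp
  have hexp : ∀ Z : Matrix (ι → κ) (ι → κ) ℂ, ∀ a b : ι → κ,
      p Z a b = ∑ d : ι → κ, ∑ c : ι → κ, p (Matrix.single c d (1 : ℂ)) a b * Z c d := by
    intro Z a b
    have h1 : Z = ∑ c : ι → κ, ∑ d : ι → κ, Z c d • Matrix.single c d (1 : ℂ) := by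
      conv_lhs => rw [Matrix.matrix_eq_sum_single Z]
      refine Finset.sum_congr rfl fun c _ => Finset.sum_congr rfl fun d _ => ?_
      rw [Matrix.smul_single, smul_eq_mul, mul_one]
    have h2 : p Z = pL Z := rfl
    rw [h2]
    conv_lhs => rw [h1]
    rw [map_sum, Matrix.sum_apply, Finset.sum_comm]
    refine Finset.sum_congr rfl fun c _ => ?_
    rw [map_sum, Matrix.sum_apply]
    refine Finset.sum_congr rfl fun d _ => ?_
    rw [map_smul, Matrix.smul_apply, smul_eq_mul, mul_comm]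
    rfl
  have hXp : p X = X := by
    ext a b
    rw [hexp]
    have h1 : ∀ d : ι → κ, ∑ c : ι → κ, p (Matrix.single c d (1 : ℂ)) a b * X c d =
        ∑ c : ι → κ, X a c * p (Matrix.single d d (1 : ℂ)) c b := by
      intro d
      have h2 : ∑ c : ι → κ, X a c * p (Matrix.single d d (1 : ℂ)) c b =
          ∑ c : ι → κ, p (Matrix.single c d (1 : ℂ)) a b * X c d :=
        congrFun (congrFun (hcomm _ (hY b d)) a) d
      exact h2.symm
    simp only [h1]
    rw [Finset.sum_comm]
    have h2 : ∀ c : ι → κ, ∑ d : ι → κ, X a c * p (Matrix.single d d (1 : ℂ)) c b =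
        X a c * (1 : Matrix (ι → κ) (ι → κ) ℂ) c b := by
      intro c
      rw [← Finset.mul_sum]
      congr 1
      have h3 : p 1 = 1 := hp_fix 1 (by
        rw [← Pm_one]
        exact Submodule.subset_span ⟨_, rfl⟩)
      have h4 := hexp 1 c b
      rw [h3] at h4
      rw [h4]
      refine Finset.sum_congr rfl fun d _ => ?_
      rw [Finset.sum_eq_single d]
      · rw [Matrix.one_apply_eq, mul_one]
      · intro c' _ hc'
        rw [Matrix.one_apply_ne hc', mul_zero]
      · intro h; exact absurd (mem_univ d) h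
    simp only [h2]
    rw [← Matrix.mul_apply, mul_one]
  rw [← hXp]
  exact hp_mem X

end Q257.CR
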