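import Mathlib

/-!
Independence of the codimensions of the field.
-/

set_option autoImplicit false
set_option linter.unusedSectionVars false
set_option linter.unusedDecidableInType false
set_option linter.unusedTactic false
set_option linter.unreachableTactic false
set_option linter.unusedSimpArgs false

namespace Q257.CR

open Matrix Finset

/-- the rank of a family of integer vectors does not depend on the field -/
theorem rank_cast (F : Type) [Field F] [CharZero F] {S N : Type} [Fintype N] [DecidableEq N]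
    (v : S → N → ℤ) :
    Module.finrank F (Submodule.span F (Set.range fun s : S => fun n : N => ((v s n : ℤ) : F))) =
      Module.finrank ℚ (Submodule.span ℚ (Set.range fun s : S => fun n : N => ((v s n : ℤ) : ℚ))) := by
  classical
  set vQ : S → N → ℚ := fun s n => ((v s n : ℤ) : ℚ) with hvQ
  set vF : S → N → F := fun s n => ((v s n : ℤ) : F) with hvF
  obtain ⟨J, a, -, hspan, hli⟩ := exists_linearIndependent' ℚ vQ
  have hfin : Finite J := hli.finite
  have : Fintype J := Fintype.ofFinite J
  have hinj : Function.Injective (Fintype.linearCombination ℚ (vQ ∘ a)) := by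
    rw [injective_iff_map_eq_zero]
    intro c hc
    rw [Fintype.linearCombination_apply] at hc
    ext j
    exact Fintype.linearIndependent_iff.1 hli c hc j
  obtain ⟨g, hg⟩ := LinearMap.exists_leftInverse_of_injective _ (LinearMap.ker_eq_bot.2 hinj)
  have hg1 : ∀ j j', g (vQ (a j')) j = if j' = j then 1 else 0 := by
    intro j j'
    have h1 := congrFun (LinearMap.congr_fun hg (Pi.single j' 1)) j
    rw [LinearMap.comp_apply, Fintype.linearCombination_apply] at h1
    have h2 : ∑ i, (Pi.single j' (1 : ℚ) : J → ℚ) i • (vQ ∘ a) i = vQ (a j') := by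
      rw [Finset.sum_eq_single j']
      · simp
      · intro i _ hi
        rw [Pi.single_eq_of_ne hi, zero_smul]
      · intro h; exact absurd (mem_univ _) h
    rw [h2] at h1
    rw [h1, LinearMap.id_apply, Pi.single_apply]
    by_cases h : j = j'
    · subst h; simp
    · rw [if_neg h, if_neg (fun h' => h h'.symm)]
  have hg2 : ∀ j (w : N → ℚ), g w j = ∑ n, w n * g (Pi.single n 1) j := by
    intro j w
    have h1 : w = ∑ n, w n • (Pi.single n (1 : ℚ) : N → ℚ) := by
      ext n
      rw [Finset.sum_apply, Finset.sum_eq_single n]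
      · simp
      · intro n' _ hn'
        rw [Pi.smul_apply, Pi.single_eq_of_ne hn'.symm, smul_zero]
      · intro h; exact absurd (mem_univ _) h
    conv_lhs => rw [h1]
    rw [map_sum, Finset.sum_apply]
    refine Finset.sum_congr rfl fun n _ => ?_
    rw [map_smul, Pi.smul_apply, smul_eq_mul]
  have hliF : LinearIndependent F (vF ∘ a) := by
    rw [Fintype.linearIndependent_iff]
    intro c hc j
    have h1 : ∑ n, ((g (Pi.single n 1) j : ℚ) : F) * (∑ i, c i • (vF ∘ a) i) n = 0 := by
      rw [hc]
      simp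
    have h2 : ∀ i, ∑ n, ((g (Pi.single n 1) j : ℚ) : F) * vF (a i) n = if i = j then 1 else 0 := by
      intro i
      have h3 := hg1 j i
      rw [hg2] at h3
      have h4 := congrArg (fun r : ℚ => (r : F)) h3
      simp only [Rat.cast_sum, Rat.cast_mul] at h4
      have h5 : (((if i = j then 1 else 0 : ℚ)) : F) = if i = j then 1 else 0 := by
        split_ifs <;> simp
      rw [h5] at h4
      rw [← h4]
      refine Finset.sum_congr rfl fun n _ => ?_
      rw [hvQ, hvF]
      simp only [Rat.cast_intCast]
      ring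
    have h6 : ∑ n, ((g (Pi.single n 1) j : ℚ) : F) * (∑ i, c i • (vF ∘ a) i) n =
        ∑ i, c i * ∑ n, ((g (Pi.single n 1) j : ℚ) : F) * vF (a i) n := by
      simp only [Finset.sum_apply, Finset.mul_sum]
      rw [Finset.sum_comm]
      refine Finset.sum_congr rfl fun i _ => Finset.sum_congr rfl fun n _ => ?_
      rw [Pi.smul_apply, smul_eq_mul]
      show _ * (c i * vF (a i) n) = _
      ring
    rw [h6] at h1
    simp only [h2] at h1
    simpa using h1
  have hspanF : Submodule.span F (Set.range (vF ∘ a)) = Submodule.span F (Set.range vF) := by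
    apply le_antisymm
    · apply Submodule.span_mono
      rintro _ ⟨j, rfl⟩
      exact ⟨a j, rfl⟩
    · rw [Submodule.span_le]
      rintro _ ⟨s, rfl⟩
      have h1 : vQ s ∈ Submodule.span ℚ (Set.range (vQ ∘ a)) := by
        rw [hspan]
        exact Submodule.subset_span ⟨s, rfl⟩
      rw [Submodule.mem_span_range_iff_exists_fun] at h1
      obtain ⟨c, hc⟩ := h1
      have h2 : vF s = ∑ i, ((c i : ℚ) : F) • (vF ∘ a) i := by
        ext n
        have h3 := congrArg (fun r : ℚ => (r : F)) (congrFun hc n)
        simp only [Finset.sum_apply, Pi.smul_apply, smul_eq_mul, Function.comp_apply,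
          Rat.cast_sum, Rat.cast_mul, hvQ, Rat.cast_intCast] at h3
        simp only [Finset.sum_apply, Pi.smul_apply, smul_eq_mul, Function.comp_apply, hvF]
        exact h3.symm
      rw [h2]
      exact Submodule.sum_mem _ fun i _ => Submodule.smul_mem _ _ (Submodule.subset_span ⟨i, rfl⟩)
  rw [← hspanF, ← hspan, finrank_span_eq_card hliF, finrank_span_eq_card hli]

variable (F : Type) [Field F] [CharZero F] {κ : Type} [Fintype κ] [DecidableEq κ]

/-- the word maps -/
def WF {n : ℕ} (σ : Equiv.Perm (Fin n)) (x : Fin n → Matrix κ κ F) : Matrix κ κ F :=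
  (List.ofFn fun i => x (σ i)).prod

/-- the word maps as multilinear maps -/
noncomputable def mlW {n : ℕ} (σ : Equiv.Perm (Fin n)) :
    MultilinearMap F (fun _ : Fin n => Matrix κ κ F) (Matrix κ κ F) :=
  (MultilinearMap.mkPiAlgebraFin F n (Matrix κ κ F)).domDomCongr σ

lemma mlW_apply {n : ℕ} (σ : Equiv.Perm (Fin n)) (x : Fin n → Matrix κ κ F) :
    mlW F σ x = WF F σ x := by
  unfold mlW WF
  rw [MultilinearMap.domDomCongr_apply, MultilinearMap.mkPiAlgebraFin_apply]

/-- the values of the words at matrix units -/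
def WZ {n : ℕ} (σ : Equiv.Perm (Fin n)) (m : Fin n → κ × κ) : Matrix κ κ ℤ :=
  (List.ofFn fun i => Matrix.single (m (σ i)).1 (m (σ i)).2 (1 : ℤ)).prod

lemma WF_single {n : ℕ} (σ : Equiv.Perm (Fin n)) (m : Fin n → κ × κ) :
    WF F σ (fun i => Matrix.single (m i).1 (m i).2 (1 : F)) =
      (WZ σ m).map (Int.cast : ℤ → F) := by
  have h1 : ∀ X : Matrix κ κ ℤ, X.map (Int.cast : ℤ → F) = (Int.castRingHom F).mapMatrix X :=
    fun X => rfl
  unfold WF WZ
  rw [h1, map_list_prod, List.map_ofFn]
  congr 2
  ext i : 1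
  rw [Function.comp_apply, RingHom.mapMatrix_apply, Matrix.map_single]
  simp

variable {P : Type} [AddCommGroup P] [Module F P]

/-- the evaluation at matrix units -/
noncomputable def evT {n : ℕ} (D : P →ₗ[F] (κ × κ → F)) :
    ((Fin n → Matrix κ κ F) → P) →ₗ[F] (((Fin n → κ × κ) × (κ × κ)) → F) where
  toFun f := fun mp => D (f (fun i => Matrix.single (mp.1 i).1 (mp.1 i).2 1)) mp.2
  map_add' := by
    intro f g
    ext mp
    simp
  map_smul' := by
    intro c f
    ext mp
    simp

theorem finrank_words {n : ℕ} (L : Matrix κ κ F →ₗ[F] P) (D : P →ₗ[F] (κ × κ → F))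
    (hD : Function.Injective D) (DZ : Matrix κ κ ℤ → κ × κ → ℤ)
    (hDZ : ∀ X : Matrix κ κ ℤ, D (L (X.map (Int.cast : ℤ → F))) = fun p => ((DZ X p : ℤ) : F)) :
    Module.finrank F (Submodule.span F (Set.range fun σ : Equiv.Perm (Fin n) =>
      fun x : Fin n → Matrix κ κ F => L (WF F σ x))) =
    Module.finrank ℚ (Submodule.span ℚ (Set.range fun σ : Equiv.Perm (Fin n) =>
      fun mp : (Fin n → κ × κ) × (κ × κ) => ((DZ (WZ σ mp.1) mp.2 : ℤ) : ℚ))) := by
  rw [← rank_cast F (fun (σ : Equiv.Perm (Fin n)) (mp : (Fin n → κ × κ) × (κ × κ)) =>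
    DZ (WZ σ mp.1) mp.2)]
  set Sp := Submodule.span F (Set.range fun σ : Equiv.Perm (Fin n) =>
      fun x : Fin n → Matrix κ κ F => L (WF F σ x)) with hSp
  have h1 : Sp.map (evT F (n := n) D) = Submodule.span F (Set.range fun σ : Equiv.Perm (Fin n) =>
      fun mp : (Fin n → κ × κ) × (κ × κ) => ((DZ (WZ σ mp.1) mp.2 : ℤ) : F)) := by
    rw [hSp, Submodule.map_span, ← Set.range_comp]
    congr 2
    ext σ mp
    show D (L (WF F σ _)) mp.2 = _
    rw [WF_single, hDZ]
  have h2 : ∀ f ∈ Sp, ∃ g : MultilinearMap F (fun _ : Fin n => Matrix κ κ F) P, f = g := by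
    intro f hf
    refine Submodule.span_induction (p := fun (f : (Fin n → Matrix κ κ F) → P) _ =>
      ∃ g : MultilinearMap F (fun _ : Fin n => Matrix κ κ F) P, f = ⇑g) ?_ ?_ ?_ ?_ hf
    · rintro _ ⟨σ, rfl⟩
      refine ⟨L.compMultilinearMap (mlW F σ), ?_⟩
      ext x
      rw [LinearMap.compMultilinearMap_apply, mlW_apply]
    · exact ⟨0, rfl⟩
    · rintro f f' _ _ ⟨g, rfl⟩ ⟨g', rfl⟩
      exact ⟨g + g', rfl⟩
    · rintro c f _ ⟨g, rfl⟩
      exact ⟨c • g, rfl⟩
  have h3 : Function.Injective ((evT F (n := n) D).domRestrict Sp) := by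
    rw [injective_iff_map_eq_zero]
    intro f hf
    obtain ⟨g, hg⟩ := h2 f.1 f.2
    have h4 : g = 0 := by
      refine Module.Basis.ext_multilinear (fun _ => Matrix.stdBasis F κ κ) fun m => ?_
      apply hD
      ext p
      have h5 := congrFun hf (m, p)
      have h6 : (evT F (n := n) D).domRestrict Sp f (m, p) =
        D (f.1 (fun i => Matrix.single (m i).1 (m i).2 1)) p := rfl
      rw [h6, hg] at h5
      have h7 : (fun i => Matrix.stdBasis F κ κ (m i)) =
          fun i => Matrix.single (m i).1 (m i).2 (1 : F) := by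
        ext i : 1
        exact Matrix.stdBasis_eq_single F (m i).1 (m i).2
      rw [h7, h5]
      simp
    apply Subtype.ext
    rw [hg, h4]
    rfl
  rw [← h1, ← LinearMap.range_domRestrict]
  exact (LinearMap.finrank_range_of_inj h3).symm

end Q257.CR
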