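import Pool.Agent.Q257.CR.Lim
import Pool.Agent.Q257.CR.FieldInd

/-!
The limit of the ratio of central to ordinary codimensions of matrix algebras.
-/

set_option autoImplicit false
set_option linter.unusedSectionVars false
set_option linter.unusedDecidableInType false
set_option linter.unusedTactic false
set_option linter.unreachableTactic false
set_option linter.unusedSimpArgs false

namespace Q257.CR

open Matrix Finset Filter

variable (F : Type) [Field F] [CharZero F] {κ : Type} [Fintype κ] [DecidableEq κ]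

/-- the center -/
abbrev ZZ (κ : Type) [Fintype κ] [DecidableEq κ] : Submodule F (Matrix κ κ F) :=
  Subalgebra.toSubmodule (Subalgebra.center F (Matrix κ κ F))

lemma mem_ZZ {X : Matrix κ κ F} : X ∈ ZZ F κ ↔ ∃ c : F, X = c • (1 : Matrix κ κ F) := by
  show X ∈ Set.center (Matrix κ κ F) ↔ _
  rw [Matrix.center_eq_range]
  constructor
  · rintro ⟨c, rfl⟩
    exact ⟨c, by rw [Matrix.smul_one_eq_diagonal]; rfl⟩
  · rintro ⟨c, rfl⟩
    exact ⟨c, by rw [Matrix.smul_one_eq_diagonal]; rfl⟩

/-- the entries -/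
def D1 : Matrix κ κ F →ₗ[F] (κ × κ → F) where
  toFun X := fun p => X p.1 p.2
  map_add' := fun _ _ => rfl
  map_smul' := fun _ _ => rfl

lemma D1_injective : Function.Injective (D1 F (κ := κ)) := by
  intro X Y h
  ext p q
  exact congrFun h (p, q)

/-- coordinates modulo the center -/
def D2 (o : κ) : Matrix κ κ F →ₗ[F] (κ × κ → F) where
  toFun X := fun p => if p.1 = p.2 then X p.1 p.1 - X o o else X p.1 p.2
  map_add' := by
    intro X Y
    ext p
    simp only [Pi.add_apply, Matrix.add_apply]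
    split_ifs
    · ring
    · rfl
  map_smul' := by
    intro c X
    ext p
    simp only [Pi.smul_apply, Matrix.smul_apply, smul_eq_mul, RingHom.id_apply]
    split_ifs
    · ring
    · rfl

lemma ker_D2 (o : κ) : LinearMap.ker (D2 F o) = ZZ F κ := by
  ext X
  rw [LinearMap.mem_ker, mem_ZZ]
  constructor
  · intro h
    refine ⟨X o o, ?_⟩
    ext p q
    have h1 : (if p = q then X p p - X o o else X p q) = 0 := congrFun h (p, q)
    rw [Matrix.smul_apply, smul_eq_mul]
    split_ifs at h1 with hpq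
    · subst hpq
      rw [Matrix.one_apply_eq, mul_one]
      exact sub_eq_zero.1 h1
    · rw [Matrix.one_apply_ne hpq, mul_zero]
      exact h1
  · rintro ⟨c, rfl⟩
    ext p
    show (if p.1 = p.2 then (c • (1 : Matrix κ κ F)) p.1 p.1 - (c • (1 : Matrix κ κ F)) o o
      else (c • (1 : Matrix κ κ F)) p.1 p.2) = 0
    split_ifs with h
    · simp
    · rw [Matrix.smul_apply, Matrix.one_apply_ne h, smul_zero]

/-- the rational rank for ordinary codimensions -/
noncomputable def r1 (κ : Type) [Fintype κ] [DecidableEq κ] (n : ℕ) : ℕ :=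
  Module.finrank ℚ (Submodule.span ℚ (Set.range fun σ : Equiv.Perm (Fin n) =>
      fun mp : (Fin n → κ × κ) × (κ × κ) => (((WZ σ mp.1) mp.2.1 mp.2.2 : ℤ) : ℚ)))

/-- the rational rank for central codimensions -/
noncomputable def r2 (o : κ) (n : ℕ) : ℕ :=
  Module.finrank ℚ (Submodule.span ℚ (Set.range fun σ : Equiv.Perm (Fin n) =>
      fun mp : (Fin n → κ × κ) × (κ × κ) => (((if mp.2.1 = mp.2.2 then
        (WZ σ mp.1) mp.2.1 mp.2.1 - (WZ σ mp.1) o o else (WZ σ mp.1) mp.2.1 mp.2.2) : ℤ) : ℚ)))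

lemma codim_eq (n : ℕ) :
    Module.finrank F (Submodule.span F (Set.range (fun σ : Equiv.Perm (Fin n) =>
      fun x : Fin n → Matrix κ κ F => (List.ofFn (fun i => x (σ i))).prod))) = r1 κ n :=
  finrank_words F (n := n) LinearMap.id (D1 F) (D1_injective F) (fun X p => X p.1 p.2)
    (fun _ => rfl)

lemma codimz_eq (o : κ) (n : ℕ) :
    Module.finrank F (Submodule.span F (Set.range (fun σ : Equiv.Perm (Fin n) =>
      fun x : Fin n → Matrix κ κ F => Submodule.mkQ (ZZ F κ)
        (List.ofFn (fun i => x (σ i))).prod))) = r2 o n := by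
  refine finrank_words F (n := n) (Submodule.mkQ (ZZ F κ))
    ((ZZ F κ).liftQ (D2 F o) (ker_D2 F o).ge) ?_
    (fun X p => if p.1 = p.2 then X p.1 p.1 - X o o else X p.1 p.2) ?_
  · rw [← LinearMap.ker_eq_bot]
    exact Submodule.ker_liftQ_eq_bot _ _ _ (ker_D2 F o).le
  · intro X
    rw [Submodule.mkQ_apply, Submodule.liftQ_apply]
    ext p
    show (if p.1 = p.2 then (X.map (Int.cast : ℤ → F)) p.1 p.1 - (X.map (Int.cast : ℤ → F)) o o
      else (X.map (Int.cast : ℤ → F)) p.1 p.2) = _
    split_ifs <;> simp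

lemma TT_eq (n : ℕ) : TT κ (univ : Finset (Fin n)) = Submodule.span ℂ (Set.range
    (fun σ : Equiv.Perm (Fin n) => fun x : Fin n → Matrix κ κ ℂ =>
      (List.ofFn (fun i => x (σ i))).prod)) := by
  have hw : ∀ (σ : Equiv.Perm (Fin n)), wd κ (List.ofFn σ) =
      fun x : Fin n → Matrix κ κ ℂ => (List.ofFn (fun i => x (σ i))).prod := by
    intro σ
    ext x : 1
    unfold wd
    rw [List.map_ofFn]
    rfl
  unfold TT
  congr 1
  ext f
  constructor
  · rintro ⟨l, h1, h2, rfl⟩
    have hlen : l.length = n := by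
      rw [← List.toFinset_card_of_nodup h1, h2, Finset.card_univ, Fintype.card_fin]
    have hbij : Function.Bijective (fun i : Fin n => l.get (Fin.cast hlen.symm i)) := by
      rw [Fintype.bijective_iff_injective_and_card]
      refine ⟨fun a b h => ?_, rfl⟩
      exact Fin.cast_injective _ (List.nodup_iff_injective_get.1 h1 h)
    refine ⟨Equiv.ofBijective _ hbij, ?_⟩
    show (fun x : Fin n → Matrix κ κ ℂ =>
      (List.ofFn (fun i => x ((Equiv.ofBijective _ hbij) i))).prod) = _
    rw [← hw]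
    congr 1
    apply List.ext_getElem
    · rw [List.length_ofFn, hlen]
    · intro i hi1 hi2
      rw [List.getElem_ofFn]
      rfl
  · rintro ⟨σ, rfl⟩
    refine ⟨List.ofFn σ, List.nodup_ofFn.2 σ.injective, ?_, (hw σ).symm⟩
    rw [Finset.eq_univ_iff_forall]
    intro i
    rw [List.mem_toFinset, List.mem_ofFn]
    exact ⟨σ.symm i, σ.apply_symm_apply i⟩

lemma r1_eq (n : ℕ) : r1 κ n = cc κ n := by
  rw [← codim_eq ℂ n]
  unfold cc
  rw [TT_eq]

lemma r2_eq (o : κ) (n : ℕ) : r2 o n + zz κ n = cc κ n := by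
  rw [← codimz_eq ℂ o n]
  set Λ : ((Fin n → Matrix κ κ ℂ) → Matrix κ κ ℂ) →ₗ[ℂ]
      ((Fin n → Matrix κ κ ℂ) → Matrix κ κ ℂ ⧸ ZZ ℂ κ) :=
    (Submodule.mkQ (ZZ ℂ κ)).compLeft (Fin n → Matrix κ κ ℂ) with hΛ
  have h1 : Submodule.span ℂ (Set.range (fun σ : Equiv.Perm (Fin n) =>
      fun x : Fin n → Matrix κ κ ℂ => Submodule.mkQ (ZZ ℂ κ)
        (List.ofFn (fun i => x (σ i))).prod)) = (TT κ (univ : Finset (Fin n))).map Λ := by
    rw [TT_eq, Submodule.map_span, ← Set.range_comp]
    rfl
  rw [h1]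
  have h2 := LinearMap.finrank_range_add_finrank_ker (Λ.domRestrict (TT κ (univ : Finset (Fin n))))
  rw [LinearMap.range_domRestrict] at h2
  have h3 : LinearMap.ker Λ = Cen κ (Fin n) := by
    ext f
    rw [LinearMap.mem_ker]
    constructor
    · intro h x
      have h4 : Submodule.mkQ (ZZ ℂ κ) (f x) = 0 := congrFun h x
      rw [Submodule.mkQ_apply, Submodule.Quotient.mk_eq_zero, mem_ZZ] at h4
      exact h4
    · intro h
      ext x : 1
      show Submodule.mkQ (ZZ ℂ κ) (f x) = 0
      rw [Submodule.mkQ_apply, Submodule.Quotient.mk_eq_zero, mem_ZZ]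
      exact h x
  have h5 : Module.finrank ℂ (LinearMap.ker (Λ.domRestrict (TT κ (univ : Finset (Fin n))))) =
      zz κ n := by
    unfold zz
    have h6 : LinearMap.ker (Λ.domRestrict (TT κ (univ : Finset (Fin n)))) =
        (Cen κ (Fin n)).comap (TT κ (univ : Finset (Fin n))).subtype := by
      rw [← h3]
      rfl
    rw [h6, ← Submodule.map_comap_subtype]
    exact (Submodule.equivMapOfInjective _ (Submodule.subtype_injective _) _).finrank_eq
  rw [h5] at h2
  unfold cc
  exact h2

lemma cc_pos [Nonempty κ] (n : ℕ) : 0 < cc κ n := by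
  unfold cc
  rw [Module.finrank_pos_iff_exists_ne_zero]
  refine ⟨⟨wd κ (List.finRange n), ?_⟩, ?_⟩
  · refine Submodule.subset_span ⟨List.finRange n, List.nodup_finRange n, ?_, rfl⟩
    ext i
    simp
  · intro h
    have h1 := congrFun (congrArg Subtype.val h) (fun _ => 1)
    have h2 : wd κ (List.finRange n) (fun _ => (1 : Matrix κ κ ℂ)) = 1 := by
      unfold wd
      simp
    have h3 : (1 : Matrix κ κ ℂ) = 0 := by
      rw [← h2]
      exact h1
    exact one_ne_zero h3

theorem main (k : ℕ) (hk : 1 ≤ k) : ∃ α : ℝ, 0 ≤ α ∧ α ≤ 1 ∧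
    Filter.Tendsto (fun n : ℕ =>
      (Module.finrank F (Submodule.span F (Set.range (fun σ : Equiv.Perm (Fin n) =>
          fun x : Fin n → Matrix (Fin k) (Fin k) F =>
            Submodule.mkQ (Subalgebra.toSubmodule (Subalgebra.center F (Matrix (Fin k) (Fin k) F)))
              (List.ofFn (fun i => x (σ i))).prod))) : ℝ) /
      (Module.finrank F (Submodule.span F (Set.range (fun σ : Equiv.Perm (Fin n) =>
          fun x : Fin n → Matrix (Fin k) (Fin k) F =>
            (List.ofFn (fun i => x (σ i))).prod))) : ℝ))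
      Filter.atTop (nhds α) := by
  have : Nonempty (Fin k) := ⟨⟨0, hk⟩⟩
  have hk1 : (1 : ℝ) ≤ (k : ℝ) ^ 2 := by
    have : (1 : ℝ) ≤ k := by exact_mod_cast hk
    nlinarith
  refine ⟨1 - 1 / (k : ℝ) ^ 2, ?_, ?_, ?_⟩
  · rw [sub_nonneg, div_le_one (by linarith)]
    exact hk1
  · have : 0 ≤ 1 / (k : ℝ) ^ 2 := by positivity
    linarith
  · have h1 := (ratio_lim (κ := Fin k)).const_sub 1
    rw [Fintype.card_fin] at h1
    refine h1.congr fun n => ?_
    have h2 := codimz_eq F (κ := Fin k) ⟨0, hk⟩ n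
    have h3 := codim_eq F (κ := Fin k) n
    have h4 : (0 : ℝ) < cc (Fin k) n := by exact_mod_cast cc_pos n
    rw [h2, h3, r1_eq, ← r2_eq (κ := Fin k) ⟨0, hk⟩ n]
    rw [← r2_eq (κ := Fin k) ⟨0, hk⟩ n] at h4
    push_cast at h4 ⊢
    field_simp
    ring

end Q257.CR
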