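import Pool.Agent.Q257.CR.Words

/-!
Alternating words absorb all equivariant maps.
-/

set_option autoImplicit false
set_option linter.unusedSectionVars false
set_option linter.unusedDecidableInType false
set_option linter.unusedTactic false
set_option linter.unreachableTactic false
set_option linter.unusedSimpArgs false

namespace Q257.CR

open Matrix Finset

variable {κ : Type} [Fintype κ] [DecidableEq κ] {V : Type} [DecidableEq V]

/-- the map is alternating in the variables `α i` -/
def AltOn (α : Fin (dd κ) → V) (f : (V → Matrix κ κ ℂ) → Matrix κ κ ℂ) : Prop :=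
  ∀ (x : V → Matrix κ κ ℂ) (i j : Fin (dd κ)), i ≠ j → x (α i) = x (α j) → f x = 0

lemma extend_update' {α : Fin (dd κ) → V} (hα : Function.Injective α) (v : Fin (dd κ) → Matrix κ κ ℂ)
    (x : V → Matrix κ κ ℂ) (i : Fin (dd κ)) (a : Matrix κ κ ℂ) :
    Function.extend α (Function.update v i a) x = Function.update (Function.extend α v x) (α i) a := by
  ext p : 1
  by_cases hp : ∃ j, α j = p
  · obtain ⟨j, rfl⟩ := hp
    rw [hα.extend_apply]
    by_cases hj : j = i
    · subst hj
      simp
    · rw [Function.update_of_ne hj, Function.update_of_ne (fun h => hj (hα h)), hα.extend_apply]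
  · rw [Function.extend_apply' _ _ _ hp, Function.update_of_ne, Function.extend_apply' _ _ _ hp]
    rintro rfl
    exact hp ⟨i, rfl⟩

/-- the alternating map of a map in the span of words -/
noncomputable def altMap {S : Finset V} {f : (V → Matrix κ κ ℂ) → Matrix κ κ ℂ} (hf : f ∈ TT κ S)
    {α : Fin (dd κ) → V} (hα : Function.Injective α) (hS : ∀ i, α i ∈ S) (ha : AltOn α f)
    (x : V → Matrix κ κ ℂ) : (Matrix κ κ ℂ) [⋀^Fin (dd κ)]→ₗ[ℂ] (Matrix κ κ ℂ) where
  toFun v := f (Function.extend α v x)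
  map_update_add' := by
    intro inst v i a b
    rw [Subsingleton.elim inst (instDecidableEqFin _)]
    rw [extend_update' hα, extend_update' hα, extend_update' hα]
    exact TT_update_add hf (hS i) _ a b
  map_update_smul' := by
    intro inst v i c a
    rw [Subsingleton.elim inst (instDecidableEqFin _)]
    rw [extend_update' hα, extend_update' hα]
    exact TT_update_smul hf (hS i) _ c a
  map_eq_zero_of_eq' := by
    intro v i j hv hij
    refine ha _ i j hij ?_
    rw [hα.extend_apply, hα.extend_apply, hv]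

lemma altMap_apply {S : Finset V} {f : (V → Matrix κ κ ℂ) → Matrix κ κ ℂ} (hf : f ∈ TT κ S)
    {α : Fin (dd κ) → V} (hα : Function.Injective α) (hS : ∀ i, α i ∈ S) (ha : AltOn α f)
    (x : V → Matrix κ κ ℂ) (v : Fin (dd κ) → Matrix κ κ ℂ) :
    altMap hf hα hS ha x v = f (Function.extend α v x) := rfl

lemma extend_self {α : Fin (dd κ) → V} (hα : Function.Injective α) (x : V → Matrix κ κ ℂ) :
    Function.extend α (x ∘ α) x = x := by
  ext p : 1
  by_cases hp : ∃ j, α j = p
  · obtain ⟨j, rfl⟩ := hp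
    rw [hα.extend_apply]
    rfl
  · rw [Function.extend_apply' _ _ _ hp]

/-- absorption of a trace -/
theorem TT_trace [Nonempty κ] {S : Finset V} {f : (V → Matrix κ κ ℂ) → Matrix κ κ ℂ} (hf : f ∈ TT κ S)
    {α : Fin (dd κ) → V} (hα : Function.Injective α) (hS : ∀ i, α i ∈ S) (ha : AltOn α f)
    {j : V} (hj : j ∉ S) : (fun x => (x j).trace • f x) ∈ TT κ (insert j S) := by
  have hk : (Fintype.card κ : ℂ) ≠ 0 := Nat.cast_ne_zero.2 Fintype.card_ne_zero
  have h1 : (fun x : V → Matrix κ κ ℂ => (x j).trace • f x) =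
      (Fintype.card κ : ℂ)⁻¹ • ∑ i, fun x => f (Function.update x (α i) (x j * x (α i))) := by
    ext x : 1
    rw [Pi.smul_apply, Finset.sum_apply]
    have h2 := star_alt (altMap hf hα hS ha x) (x ∘ α) (x j)
    simp only [altMap_apply, extend_update' hα, extend_self hα] at h2
    have h3 : ∑ i, f (Function.update x (α i) (x j * x (α i))) =
      ((Fintype.card κ : ℂ) * (x j).trace) • f x := h2
    rw [h3, smul_smul, ← mul_assoc, inv_mul_cancel₀ hk, one_mul]
  rw [h1]
  refine Submodule.smul_mem _ _ (Submodule.sum_mem _ fun i _ => ?_)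
  exact TT_subst' hf (hS i) hj

/-- the matrix valued map obtained from a form by opening the slot `s` -/
noncomputable def EE {γ : Type} [DecidableEq γ] (Q : (γ → Matrix κ κ ℂ) → ℂ) (s : γ)
    (y : γ → Matrix κ κ ℂ) : Matrix κ κ ℂ :=
  Matrix.of fun q p => Q (Function.update y s (Matrix.single p q 1))

/-- absorption property -/
def Good (κ : Type) [Fintype κ] [DecidableEq κ] (V : Type) [DecidableEq V] (γ : Type) [Fintype γ]
    [DecidableEq γ] (s : γ) (E : (γ → Matrix κ κ ℂ) → Matrix κ κ ℂ) : Prop :=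
  ∀ (S : Finset V) (f : (V → Matrix κ κ ℂ) → Matrix κ κ ℂ), f ∈ TT κ S →
    ∀ α : Fin (dd κ) → V, Function.Injective α → (∀ i, α i ∈ S) → AltOn α f →
      ∀ ν : γ → V, (∀ i j, i ≠ s → j ≠ s → ν i = ν j → i = j) → (∀ i, i ≠ s → ν i ∉ S) →
        (fun x => f x * E (x ∘ ν)) ∈ TT κ (S ∪ (univ.erase s).image ν)

/-- products of entries along a permutation -/
noncomputable def QQ {γ : Type} [Fintype γ] [DecidableEq γ] (σ : Equiv.Perm γ) (X : γ → Matrix κ κ ℂ) : ℂ :=
  ∑ a : γ → κ, ∏ i, X i (a i) (a (σ i))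

lemma QQ_succ_zero {n : ℕ} (σ : Equiv.Perm (Fin n)) (X : Fin (n + 1) → Matrix κ κ ℂ) :
    QQ (Equiv.Perm.decomposeFin.symm (0, σ)) X = (X 0).trace * QQ σ (fun i => X i.succ) := by
  unfold QQ
  rw [← (Fin.consEquiv (fun _ : Fin (n + 1) => κ)).sum_comp, Fintype.sum_prod_type]
  unfold Matrix.trace
  rw [Finset.sum_mul]
  refine Finset.sum_congr rfl fun c _ => ?_
  rw [Finset.mul_sum]
  refine Finset.sum_congr rfl fun a _ => ?_
  rw [Fin.prod_univ_succ]
  simp only [Fin.consEquiv_apply, Equiv.Perm.decomposeFin_symm_apply_zero, Fin.cons_zero,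
    Equiv.Perm.decomposeFin_symm_apply_succ, Equiv.swap_self, Equiv.refl_apply, Fin.cons_succ]
  rfl

lemma QQ_succ_succ {n : ℕ} (σ : Equiv.Perm (Fin n)) (j : Fin n) (X : Fin (n + 1) → Matrix κ κ ℂ) :
    QQ (Equiv.Perm.decomposeFin.symm (j.succ, σ)) X =
      QQ σ (Function.update (fun i => X i.succ) (σ.symm j) (X (σ.symm j).succ * X 0)) := by
  unfold QQ
  rw [← (Fin.consEquiv (fun _ : Fin (n + 1) => κ)).sum_comp, Fintype.sum_prod_type_right]
  refine Finset.sum_congr rfl fun a _ => ?_
  rw [← Finset.mul_prod_erase univ _ (mem_univ (σ.symm j)), Function.update_self, Matrix.mul_apply,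
    Finset.sum_mul]
  refine Finset.sum_congr rfl fun c _ => ?_
  rw [Fin.prod_univ_succ, ← Finset.mul_prod_erase univ (fun i : Fin n => _) (mem_univ (σ.symm j))]
  simp only [Fin.consEquiv_apply, Equiv.Perm.decomposeFin_symm_apply_zero, Fin.cons_zero,
    Equiv.Perm.decomposeFin_symm_apply_succ, Fin.cons_succ, Equiv.apply_symm_apply,
    Equiv.swap_apply_right]
  have h : ∏ x ∈ univ.erase (σ.symm j), X x.succ (a x)
        ((Fin.cons c a : Fin (n + 1) → κ) ((Equiv.swap 0 j.succ) (σ x).succ)) =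
      ∏ x ∈ univ.erase (σ.symm j),
        (Function.update (fun i => X i.succ) (σ.symm j) (X (σ.symm j).succ * X 0)) x (a x) (a (σ x)) := by
    refine Finset.prod_congr rfl fun x hx => ?_
    have hx1 : x ≠ σ.symm j := (Finset.mem_erase.1 hx).1
    have hx2 : σ x ≠ j := fun h => hx1 (by rw [← h, Equiv.symm_apply_apply])
    rw [Function.update_of_ne hx1, Equiv.swap_apply_of_ne_of_ne (Fin.succ_ne_zero _)
      (fun h => hx2 (Fin.succ_injective _ h)), Fin.cons_succ]
  rw [h]
  ring

end Q257.CR
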