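import Pool.Agent.Q257.CR.Good

/-!
The absorption property for the permutation forms.
-/

set_option autoImplicit false
set_option linter.unusedSectionVars false
set_option linter.unusedDecidableInType false
set_option linter.unusedTactic false
set_option linter.unreachableTactic false
set_option linter.unusedSimpArgs false

namespace Q257.CR

open Matrix Finset

variable {κ : Type} [Fintype κ] [DecidableEq κ] {V : Type} [DecidableEq V]

lemma EE_congr {γ : Type} [DecidableEq γ] (Q : (γ → Matrix κ κ ℂ) → ℂ) (s : γ)
    {y y' : γ → Matrix κ κ ℂ} (h : ∀ i, i ≠ s → y i = y' i) : EE Q s y = EE Q s y' := by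
  have : ∀ z, Function.update y s z = Function.update y' s z := by
    intro z
    ext i : 1
    by_cases hi : i = s
    · subst hi; simp
    · rw [Function.update_of_ne hi, Function.update_of_ne hi, h i hi]
  unfold EE
  simp only [this]

lemma QQ_update {γ : Type} [Fintype γ] [DecidableEq γ] (σ : Equiv.Perm γ) (X : γ → Matrix κ κ ℂ)
    (s : γ) (z : Matrix κ κ ℂ) : QQ σ (Function.update X s z) =
      ∑ p, ∑ q, z p q * QQ σ (Function.update X s (Matrix.single p q 1)) := by
  have h1 : ∀ (z : Matrix κ κ ℂ) (a : γ → κ), ∏ i, (Function.update X s z) i (a i) (a (σ i)) =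
      z (a s) (a (σ s)) * ∏ i ∈ univ.erase s, X i (a i) (a (σ i)) := by
    intro z a
    rw [← Finset.mul_prod_erase univ _ (mem_univ s), Function.update_self]
    congr 1
    refine Finset.prod_congr rfl fun i hi => ?_
    rw [Function.update_of_ne (Finset.mem_erase.1 hi).1]
  unfold QQ
  simp only [h1, Finset.mul_sum]
  simp_rw [Finset.sum_comm (s := (univ : Finset κ)) (t := (univ : Finset (γ → κ)))]
  refine Finset.sum_congr rfl fun a _ => ?_
  simp only [← mul_assoc, ← Finset.sum_mul]
  congr 1
  rw [Finset.sum_eq_single (a s), Finset.sum_eq_single (a (σ s))]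
  · simp
  · intro q _ hq
    rw [Matrix.single_apply, if_neg (fun h => hq h.2), mul_zero]
  · intro h; exact absurd (mem_univ _) h
  · intro p _ hp
    refine Finset.sum_eq_zero fun q _ => ?_
    rw [Matrix.single_apply, if_neg (fun h => hp h.1), mul_zero]
  · intro h; exact absurd (mem_univ _) h

lemma update_succ {n : ℕ} (X : Fin (n + 1 + 1) → Matrix κ κ ℂ) (i : Fin (n + 1)) (z : Matrix κ κ ℂ) :
    (fun j => Function.update X i.succ z j.succ) = Function.update (fun j : Fin (n + 1) => X j.succ) i z := by
  ext j : 1
  by_cases h : j = i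
  · subst h; simp
  · rw [Function.update_of_ne h, Function.update_of_ne (fun h' => h (Fin.succ_injective _ h'))]

lemma update_zero {n : ℕ} (X : Fin (n + 1 + 1) → Matrix κ κ ℂ) (i : Fin (n + 1)) (z : Matrix κ κ ℂ) :
    Function.update X i.succ z 0 = X 0 := Function.update_of_ne (Fin.succ_ne_zero _).symm _ _

lemma image_succ {n : ℕ} (ν : Fin (n + 1 + 1) → V) (S : Finset V) :
    insert (ν 0) (S ∪ ((univ : Finset (Fin (n + 1))).erase (Fin.last n)).image (fun i => ν i.succ)) =
      S ∪ ((univ : Finset (Fin (n + 1 + 1))).erase (Fin.last (n + 1))).image ν := by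
  ext v
  simp only [mem_insert, mem_union, mem_image, mem_erase, mem_univ, and_true]
  constructor
  · rintro (h | h | ⟨i, hi, rfl⟩)
    · exact Or.inr ⟨0, (Fin.last_pos.ne), h.symm⟩
    · exact Or.inl h
    · refine Or.inr ⟨i.succ, ?_, rfl⟩
      rw [← Fin.succ_last]
      exact fun h => hi (Fin.succ_injective _ h)
  · rintro (h | ⟨i, hi, rfl⟩)
    · exact Or.inr (Or.inl h)
    · rcases Fin.eq_zero_or_eq_succ i with h | ⟨j, rfl⟩
      · subst h; exact Or.inl rfl
      · refine Or.inr (Or.inr ⟨j, ?_, rfl⟩)
        rintro rfl
        exact hi (Fin.succ_last n)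

lemma EE_one (σ : Equiv.Perm (Fin 1)) (y : Fin 1 → Matrix κ κ ℂ) : EE (QQ σ) 0 y = 1 := by
  ext q p
  unfold EE
  rw [Matrix.of_apply]
  unfold QQ
  have : σ = 1 := Subsingleton.elim _ _
  subst this
  rw [← (Equiv.funUnique (Fin 1) κ).symm.sum_comp]
  simp only [Fin.prod_univ_succ, Fin.prod_univ_zero, mul_one, Equiv.funUnique_symm_apply,
    uniqueElim_const, Equiv.Perm.coe_one, id_eq, Function.update_self, Matrix.single_apply,
    Matrix.one_apply]
  by_cases h : q = p
  · subst h; simp
  · rw [if_neg h]
    refine Finset.sum_eq_zero fun a _ => ?_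
    rw [if_neg]
    rintro ⟨h1, h2⟩
    exact h (h2.trans h1.symm)

theorem good_fin [Nonempty κ] : ∀ (n : ℕ) (σ : Equiv.Perm (Fin (n + 1))),
    Good κ V (Fin (n + 1)) (Fin.last n) (EE (QQ σ) (Fin.last n)) := by
  intro n
  induction n with
  | zero =>
    intro σ S f hf α hα hS ha ν h1 h2
    have e1 : ((univ : Finset (Fin (0 + 1))).erase (Fin.last 0)) = ∅ := by decide
    rw [e1, image_empty, union_empty]
    have e2 : ∀ y : Fin (0 + 1) → Matrix κ κ ℂ, EE (QQ σ) (Fin.last 0) y = 1 := fun y => EE_one σ y
    simp only [e2, mul_one]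
    exact hf
  | succ n ih =>
    intro σ S f hf α hα hS ha ν h1 h2
    obtain ⟨⟨p, σ'⟩, rfl⟩ := (Equiv.Perm.decomposeFin (n := n + 1)).symm.surjective σ
    have hlast : Fin.last (n + 1) = (Fin.last n).succ := (Fin.succ_last n).symm
    have hν1 : ∀ i j : Fin (n + 1), i ≠ Fin.last n → j ≠ Fin.last n → ν i.succ = ν j.succ → i = j := by
      intro i j hi hj h
      apply Fin.succ_injective
      apply h1 _ _ _ _ h
      · rw [hlast]; exact fun h => hi (Fin.succ_injective _ h)
      · rw [hlast]; exact fun h => hj (Fin.succ_injective _ h)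
    have hν2 : ∀ i : Fin (n + 1), i ≠ Fin.last n → ν i.succ ∉ S := by
      intro i hi
      apply h2
      rw [hlast]; exact fun h => hi (Fin.succ_injective _ h)
    have h0last : (0 : Fin (n + 1 + 1)) ≠ Fin.last (n + 1) := Fin.last_pos.ne
    have hν0 : ν 0 ∉ S := h2 _ h0last
    have hν3 : ∀ i : Fin (n + 1), i ≠ Fin.last n → ν 0 ≠ ν i.succ := by
      intro i hi h
      have := h1 0 i.succ h0last (by rw [hlast]; exact fun h => hi (Fin.succ_injective _ h)) h
      exact (Fin.succ_ne_zero _) this.symm
    have hν4 : ν 0 ∉ S ∪ ((univ : Finset (Fin (n + 1))).erase (Fin.last n)).image (fun i => ν i.succ) := by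
      simp only [mem_union, mem_image, mem_erase, mem_univ, and_true, not_or, not_exists, not_and]
      exact ⟨hν0, fun i hi h => hν3 i hi h.symm⟩
    rw [← image_succ]
    have hF' := ih σ' S f hf α hα hS ha (fun i => ν i.succ) hν1 hν2
    rcases Fin.eq_zero_or_eq_succ p with rfl | ⟨j, rfl⟩
    · have e1 : ∀ X : Fin (n + 1 + 1) → Matrix κ κ ℂ,
          EE (QQ (Equiv.Perm.decomposeFin.symm (0, σ'))) (Fin.last (n + 1)) X =
          (X 0).trace • EE (QQ σ') (Fin.last n) (fun i => X i.succ) := by
        intro X
        ext q p
        rw [Matrix.smul_apply, smul_eq_mul]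
        unfold EE
        rw [Matrix.of_apply, Matrix.of_apply, QQ_succ_zero, hlast, update_zero, update_succ]
      have e2 := TT_trace hF' hα (fun i => mem_union_left _ (hS i)) (fun x i j hij hx => by
        show f x * _ = 0
        rw [ha x i j hij hx, zero_mul]) hν4
      have e3 : (fun x : V → Matrix κ κ ℂ => f x *
          EE (QQ (Equiv.Perm.decomposeFin.symm (0, σ'))) (Fin.last (n + 1)) (x ∘ ν)) =
          (fun x => (x (ν 0)).trace • (f x * EE (QQ σ') (Fin.last n) (x ∘ fun i => ν i.succ))) := by
        ext x : 1
        rw [e1, mul_smul_comm]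
        rfl
      rw [e3]
      exact e2
    · by_cases hi0 : σ'.symm j = Fin.last n
      · have e1 : ∀ X : Fin (n + 1 + 1) → Matrix κ κ ℂ,
            EE (QQ (Equiv.Perm.decomposeFin.symm (j.succ, σ'))) (Fin.last (n + 1)) X =
            X 0 * EE (QQ σ') (Fin.last n) (fun i => X i.succ) := by
          intro X
          ext q p
          rw [Matrix.mul_apply]
          unfold EE
          simp only [Matrix.of_apply]
          rw [QQ_succ_succ, hlast, hi0, update_zero, update_succ, Function.update_self,
            Function.update_idem, QQ_update, Finset.sum_eq_single p]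
          · refine Finset.sum_congr rfl fun r _ => ?_
            rw [Matrix.single_mul_apply_same, one_mul]
          · intro p' _ hp'
            refine Finset.sum_eq_zero fun r _ => ?_
            rw [Matrix.single_mul_apply_of_ne _ _ _ _ _ hp', zero_mul]
          · intro h; exact absurd (mem_univ _) h
        have e2 := ih σ' (insert (ν 0) S) (fun x => f x * x (ν 0)) (TT_mul_right hf hν0) α hα
          (fun i => mem_insert_of_mem (hS i)) (fun x i j hij hx => by
            show f x * _ = 0
            rw [ha x i j hij hx, zero_mul]) (fun i => ν i.succ) hν1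
          (fun i hi h => by
            rcases mem_insert.1 h with h | h
            · exact hν3 i hi h.symm
            · exact hν2 i hi h)
        rw [insert_union] at e2
        have e3 : (fun x : V → Matrix κ κ ℂ => f x *
            EE (QQ (Equiv.Perm.decomposeFin.symm (j.succ, σ'))) (Fin.last (n + 1)) (x ∘ ν)) =
            (fun x => f x * x (ν 0) * EE (QQ σ') (Fin.last n) (x ∘ fun i => ν i.succ)) := by
          ext x : 1
          rw [e1, ← mul_assoc]
          rfl
        rw [e3]
        exact e2
      · set i0 := σ'.symm j with hi0def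
        have e1 : ∀ X : Fin (n + 1 + 1) → Matrix κ κ ℂ,
            EE (QQ (Equiv.Perm.decomposeFin.symm (j.succ, σ'))) (Fin.last (n + 1)) X =
            EE (QQ σ') (Fin.last n) (Function.update (fun i => X i.succ) i0 (X i0.succ * X 0)) := by
          intro X
          ext q p
          unfold EE
          simp only [Matrix.of_apply]
          rw [QQ_succ_succ, hlast, update_zero, update_succ, ← hi0def, Function.update_of_ne
            (fun h => hi0 (Fin.succ_injective _ h)), Function.update_comm (fun h => hi0 h.symm)]
        have hp : ν i0.succ ∈ S ∪ ((univ : Finset (Fin (n + 1))).erase (Fin.last n)).image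
            (fun i => ν i.succ) := by
          refine mem_union_right _ (mem_image.2 ⟨i0, ?_, rfl⟩)
          exact mem_erase.2 ⟨hi0, mem_univ _⟩
        have e2 := TT_subst hF' hp hν4
        have e3 : (fun x : V → Matrix κ κ ℂ => f x *
            EE (QQ (Equiv.Perm.decomposeFin.symm (j.succ, σ'))) (Fin.last (n + 1)) (x ∘ ν)) =
            (fun x => f (Function.update x (ν i0.succ) (x (ν i0.succ) * x (ν 0))) *
              EE (QQ σ') (Fin.last n) ((Function.update x (ν i0.succ) (x (ν i0.succ) * x (ν 0))) ∘
                fun i => ν i.succ)) := by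
          ext x : 1
          rw [e1]
          congr 1
          · apply TT_congr hf
            intro i hi
            rw [Function.update_of_ne]
            rintro rfl
            exact hν2 i0 hi0 hi
          · apply EE_congr
            intro i hi
            show _ = Function.update x (ν i0.succ) (x (ν i0.succ) * x (ν 0)) (ν i.succ)
            by_cases hii : i = i0
            · subst hii
              rw [Function.update_self, Function.update_self]
              rfl
            · rw [Function.update_of_ne hii, Function.update_of_ne]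
              · rfl
              · exact fun h => hii (hν1 _ _ hi hi0 h)
        rw [e3]
        exact e2

end Q257.CR
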