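import Mathlib

/-!
Invariants of a matrix representation of a compact group, and the ratios of the moments.
-/

set_option autoImplicit false
set_option linter.unusedSectionVars false
set_option linter.unusedDecidableInType false

namespace Q257.CR

open MeasureTheory Matrix Filter

section group

variable {G : Type} [Group G] [TopologicalSpace G] [IsTopologicalGroup G] [CompactSpace G]
  [MeasurableSpace G] [BorelSpace G] (μ : Measure G) [μ.IsHaarMeasure] [IsProbabilityMeasure μ]

variable {J : Type} [Fintype J] [DecidableEq J] (A : G → Matrix J J ℂ)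

/-- the averaging matrix -/
noncomputable def RR : Matrix J J ℂ := fun i j => ∫ g, A g i j ∂μ

/-- the invariants -/
def Inv : Submodule ℂ (J → ℂ) where
  carrier := {v | ∀ g, A g *ᵥ v = v}
  add_mem' := by
    intro a b ha hb g
    rw [mulVec_add, ha g, hb g]
  zero_mem' := fun g => mulVec_zero _
  smul_mem' := by
    intro c a ha g
    rw [mulVec_smul, ha g]

variable {A}

lemma mem_Inv {v : J → ℂ} : v ∈ Inv A ↔ ∀ g, A g *ᵥ v = v := Iff.rfl

lemma integrable_of_cont {f : G → ℂ} (hf : Continuous f) : Integrable f μ := by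
  exact hf.integrable_of_hasCompactSupport (HasCompactSupport.of_compactSpace _)

lemma RR_mulVec (hA : ∀ i j, Continuous fun g => A g i j) (v : J → ℂ) (i : J) :
    (RR μ A *ᵥ v) i = ∫ g, (A g *ᵥ v) i ∂μ := by
  unfold RR mulVec dotProduct
  rw [integral_finsetSum]
  · refine Finset.sum_congr rfl fun j _ => ?_
    rw [integral_mul_const]
  · intro j _
    exact (integrable_of_cont μ (hA i j)).mul_const _

lemma RR_mem (hA : ∀ i j, Continuous fun g => A g i j) (hmul : ∀ g h, A (g * h) = A g * A h)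
    (v : J → ℂ) : RR μ A *ᵥ v ∈ Inv A := by
  rw [mem_Inv]
  intro g
  have hc : ∀ i, Continuous fun h => (A h *ᵥ v) i := by
    intro i
    unfold mulVec dotProduct
    exact continuous_finsetSum _ fun j _ => (hA i j).mul continuous_const
  ext i
  rw [RR_mulVec μ hA]
  have h1 : (A g *ᵥ (RR μ A *ᵥ v)) i = ∫ h, (A g *ᵥ (A h *ᵥ v)) i ∂μ := by
    have h2 : (A g *ᵥ (RR μ A *ᵥ v)) i = ∑ j, A g i j * (RR μ A *ᵥ v) j := rfl
    rw [h2]
    have h3 : ∀ h, (A g *ᵥ (A h *ᵥ v)) i = ∑ j, A g i j * (A h *ᵥ v) j := fun h => rfl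
    simp only [h3]
    rw [integral_finsetSum]
    · refine Finset.sum_congr rfl fun j _ => ?_
      rw [integral_const_mul, RR_mulVec μ hA]
    · intro j _
      exact (integrable_of_cont μ (hc j)).const_mul _
  rw [h1]
  have h2 : ∀ h, (A g *ᵥ (A h *ᵥ v)) i = (A (g * h) *ᵥ v) i := by
    intro h
    rw [mulVec_mulVec, ← hmul]
  simp only [h2]
  exact integral_mul_left_eq_self (fun h => (A h *ᵥ v) i) g

lemma RR_fix (hA : ∀ i j, Continuous fun g => A g i j) {v : J → ℂ} (hv : v ∈ Inv A) :
    RR μ A *ᵥ v = v := by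
  ext i
  rw [RR_mulVec μ hA]
  have : ∀ g, (A g *ᵥ v) i = v i := fun g => by rw [mem_Inv.1 hv g]
  simp only [this]
  simp

theorem finrank_Inv (hA : ∀ i j, Continuous fun g => A g i j)
    (hmul : ∀ g h, A (g * h) = A g * A h) :
    (Module.finrank ℂ (Inv A) : ℂ) = ∫ g, (A g).trace ∂μ := by
  have h1 : LinearMap.IsProj (Inv A) (Matrix.toLin' (RR μ A)) := by
    constructor
    · intro v
      rw [Matrix.toLin'_apply]
      exact RR_mem μ hA hmul v
    · intro v hv
      rw [Matrix.toLin'_apply]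
      exact RR_fix μ hA hv
  rw [← h1.trace, Matrix.trace_toLin'_eq]
  unfold Matrix.trace
  rw [integral_finsetSum]
  · rfl
  · intro j _
    exact integrable_of_cont μ (hA j j)

end group

section moments

variable {X : Type} [TopologicalSpace X] [CompactSpace X] [MeasurableSpace X] [BorelSpace X]
  (μ : Measure X) [IsProbabilityMeasure μ] [μ.IsOpenPosMeasure]

/-- the moments -/
noncomputable def mom (f : X → ℝ) (n : ℕ) : ℝ := ∫ x, f x ^ n ∂μ

lemma integrable_of_cont' {f : X → ℝ} (hf : Continuous f) : Integrable f μ := by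
  exact hf.integrable_of_hasCompactSupport (HasCompactSupport.of_compactSpace _)

variable {f : X → ℝ} (hf : Continuous f) (h0 : ∀ x, 0 ≤ f x)

include hf h0 in
lemma mom_lower (L : ℝ) (x₀ : X) (hx : f x₀ = L) (ε : ℝ) (hε : 0 < ε) (hεL : ε ≤ L) :
    ∃ c : ℝ, 0 < c ∧ ∀ n, c * (L - ε) ^ n ≤ mom μ f n := by
  set S : Set X := {x | L - ε < f x} with hS
  have hSo : IsOpen S := isOpen_lt continuous_const hf
  have hSm : MeasurableSet S := hSo.measurableSet
  have hSpos : 0 < μ.real S := by
    rw [measureReal_def, ENNReal.toReal_pos_iff]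
    refine ⟨hSo.measure_pos μ ⟨x₀, ?_⟩, measure_lt_top _ _⟩
    show L - ε < f x₀
    rw [hx]; linarith
  refine ⟨μ.real S, hSpos, fun n => ?_⟩
  calc μ.real S * (L - ε) ^ n = ∫ _x in S, (L - ε) ^ n ∂μ := by
        rw [setIntegral_const, smul_eq_mul]
    _ ≤ ∫ x in S, f x ^ n ∂μ := by
        apply setIntegral_mono_on
        · exact integrableOn_const (measure_ne_top _ _)
        · exact (integrable_of_cont' μ (hf.pow n)).integrableOn
        · exact hSm
        · intro x hx
          exact pow_le_pow_left₀ (by linarith) (le_of_lt hx) n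
    _ ≤ mom μ f n := by
        apply setIntegral_le_integral (integrable_of_cont' μ (hf.pow n))
        exact Filter.Eventually.of_forall fun x => pow_nonneg (h0 x) n

include hf h0 in
lemma mom_ratio (L : ℝ) (hL : 0 < L) (x₀ : X) (hx : f x₀ = L) (hle : ∀ x, f x ≤ L) :
    Tendsto (fun n => mom μ f (n + 1) / mom μ f n) atTop (nhds L) := by
  have hpos : ∀ n, 0 < mom μ f n := by
    intro n
    obtain ⟨c, hc, hc2⟩ := mom_lower μ hf h0 L x₀ hx (L / 2) (by linarith) (by linarith)
    exact lt_of_lt_of_le (mul_pos hc (pow_pos (by linarith) n)) (hc2 n)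
  have hint : ∀ n, Integrable (fun x => f x ^ n) μ := fun n => integrable_of_cont' μ (hf.pow n)
  have hupper : ∀ n, mom μ f (n + 1) / mom μ f n ≤ L := by
    intro n
    rw [div_le_iff₀ (hpos n)]
    unfold mom
    rw [← integral_const_mul]
    apply integral_mono (hint (n + 1)) ((hint n).const_mul L)
    intro x
    show f x ^ (n + 1) ≤ L * f x ^ n
    rw [pow_succ, mul_comm]
    exact mul_le_mul_of_nonneg_right (hle x) (pow_nonneg (h0 x) n)
  have hlower : ∀ ε : ℝ, 0 < ε → ε < L → ∀ n,
      (L - ε) * (mom μ f n - (L - ε) ^ n) ≤ mom μ f (n + 1) := by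
    intro ε hε hεL n
    have h1 : ∀ x, (L - ε) * (f x ^ n - (L - ε) ^ n) ≤ f x ^ (n + 1) := by
      intro x
      by_cases hx : L - ε ≤ f x
      · rw [pow_succ]
        have h2 : 0 ≤ f x ^ n := pow_nonneg (h0 x) n
        have h3 : 0 ≤ (L - ε) ^ n := pow_nonneg (by linarith) n
        nlinarith [mul_nonneg (by linarith : 0 ≤ L - ε) h3, mul_le_mul_of_nonneg_left hx h2]
      · push Not at hx
        have h2 : f x ^ n ≤ (L - ε) ^ n := pow_le_pow_left₀ (h0 x) hx.le n
        have h3 : 0 ≤ f x ^ (n + 1) := pow_nonneg (h0 x) _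
        nlinarith
    calc (L - ε) * (mom μ f n - (L - ε) ^ n)
        = ∫ x, (L - ε) * (f x ^ n - (L - ε) ^ n) ∂μ := by
          rw [integral_const_mul, integral_sub (hint n) (integrable_const _)]
          simp [mom]
      _ ≤ mom μ f (n + 1) := by
          apply integral_mono _ (hint (n + 1)) h1
          exact ((hint n).sub (integrable_const _)).const_mul _
  rw [Metric.tendsto_atTop]
  intro ε' hε'
  set ε := min (ε' / 2) (L / 2) with hεdef
  have hε : 0 < ε := lt_min (by linarith) (by linarith)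
  have hε1 : ε ≤ ε' / 2 := min_le_left _ _
  have hε2 : ε ≤ L / 2 := min_le_right _ _
  obtain ⟨c, hc, hc2⟩ := mom_lower μ hf h0 L x₀ hx (ε / 2) (by linarith) (by linarith)
  have hq : (L - ε) / (L - ε / 2) < 1 := by
    rw [div_lt_one (by linarith)]
    linarith
  have hq0 : 0 ≤ (L - ε) / (L - ε / 2) := div_nonneg (by linarith) (by linarith)
  have hlim := (tendsto_pow_atTop_nhds_zero_of_lt_one hq0 hq)
  have hev := hlim.eventually (gt_mem_nhds (show 0 < c * (ε / L) by positivity))
  obtain ⟨N, hN⟩ := eventually_atTop.1 hev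
  refine ⟨N, fun n hn => ?_⟩
  rw [Real.dist_eq, abs_lt]
  refine ⟨?_, by linarith [hupper n]⟩
  have h1 := hN n hn
  rw [div_pow, div_lt_iff₀ (pow_pos (by linarith) n)] at h1
  have h2 := hc2 n
  -- (L-ε)^n < ε/L * mom n
  have h3 : (L - ε) ^ n ≤ ε / L * mom μ f n := by
    calc (L - ε) ^ n ≤ c * (ε / L) * (L - ε / 2) ^ n := h1.le
      _ = ε / L * (c * (L - ε / 2) ^ n) := by ring
      _ ≤ ε / L * mom μ f n := mul_le_mul_of_nonneg_left h2 (by positivity)
  have h4 := hlower ε hε (by linarith) n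
  have h5 : (L - ε) * (1 - ε / L) ≤ mom μ f (n + 1) / mom μ f n := by
    rw [le_div_iff₀ (hpos n)]
    have : 0 ≤ L - ε := by linarith
    nlinarith [mul_le_mul_of_nonneg_left h3 this]
  have h6 : (L - ε) * (1 - ε / L) = L - 2 * ε + ε ^ 2 / L := by
    field_simp
    ring
  have h7 : 0 < ε ^ 2 / L := by positivity
  linarith

end moments

end Q257.CR
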