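import Pool.Agent.Q257.CR.FFT
import Pool.Agent.Q257.CR.Haar

/-!
Tensor invariants of the unitary group.
-/

set_option autoImplicit false
set_option linter.unusedSectionVars false
set_option linter.unusedDecidableInType false

namespace Q257.CR

open Matrix Finset MeasureTheory Filter

variable {κ : Type} [Fintype κ] [DecidableEq κ] {ι : Type} [Fintype ι] [DecidableEq ι]

/-- the action on one matrix -/
noncomputable def Ad (U : Matrix κ κ ℂ) : Matrix (κ × κ) (κ × κ) ℂ := fun p q => U p.1 q.1 * star (U p.2 q.2)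

lemma Ad_mul (U V : Matrix κ κ ℂ) : Ad (U * V) = Ad U * Ad V := by
  ext p q
  rw [Matrix.mul_apply, Fintype.sum_prod_type]
  unfold Ad
  simp only [Matrix.mul_apply, star_sum, star_mul']
  rw [Finset.sum_mul_sum]
  refine Finset.sum_congr rfl fun a _ => Finset.sum_congr rfl fun b _ => ?_
  ring

/-- the action on tensors -/
noncomputable def AA (ι : Type) [Fintype ι] (U : Matrix.unitaryGroup κ ℂ) :
    Matrix (ι → κ × κ) (ι → κ × κ) ℂ := fun m m' => ∏ i, Ad U.1 (m i) (m' i)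

lemma AA_mul (U V : Matrix.unitaryGroup κ ℂ) : AA ι (U * V) = AA ι U * AA ι V := by
  ext m m'
  rw [Matrix.mul_apply]
  unfold AA
  have h : (U * V).1 = U.1 * V.1 := rfl
  simp only [h, Ad_mul, Matrix.mul_apply]
  rw [Finset.prod_univ_sum, Fintype.piFinset_univ]
  exact Finset.sum_congr rfl fun c _ => Finset.prod_mul_distrib

/-- the invariant tensors -/
noncomputable abbrev CC (κ : Type) [Fintype κ] [DecidableEq κ] (ι : Type) [Fintype ι] [DecidableEq ι] :
    Submodule ℂ ((ι → κ × κ) → ℂ) := Inv (AA (κ := κ) ι)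

/-- the tensor as a matrix -/
def matF (F : (ι → κ × κ) → ℂ) : Matrix (ι → κ) (ι → κ) ℂ := fun a b => F (fun i => (a i, b i))

lemma AA_mulVec (U : Matrix.unitaryGroup κ ℂ) (F : (ι → κ × κ) → ℂ) (m : ι → κ × κ) :
    (AA ι U *ᵥ F) m = ((TU U.1 : Matrix (ι → κ) (ι → κ) ℂ) * matF F *
      (TU (star U.1) : Matrix (ι → κ) (ι → κ) ℂ)) (fun i => (m i).1) (fun i => (m i).2) := by
  have h1 : (AA ι U *ᵥ F) m = ∑ m', AA ι U m m' * F m' := rfl
  rw [h1, Matrix.mul_apply]
  simp only [Matrix.mul_apply, Finset.sum_mul]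
  rw [Finset.sum_comm, ← Fintype.sum_prod_type']
  refine Fintype.sum_equiv (Equiv.arrowProdEquivProdArrow ι (fun _ => κ) (fun _ => κ)) _ _ (fun m' => ?_)
  unfold AA Ad TU matF
  simp only [Equiv.arrowProdEquivProdArrow, Equiv.coe_fn_mk, Matrix.star_apply,
    Finset.prod_mul_distrib]
  ring

lemma TU_unitary (U : Matrix.unitaryGroup κ ℂ) :
    (TU (star U.1) : Matrix (ι → κ) (ι → κ) ℂ) * TU U.1 = 1 := by
  rw [← TU_mul, Matrix.mem_unitaryGroup_iff'.1 U.2, TU_one]

lemma comm_of_mem_CC {F : (ι → κ × κ) → ℂ} (hF : F ∈ CC κ ι) (U : Matrix κ κ ℂ)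
    (hU : U ∈ Matrix.unitaryGroup κ ℂ) : matF F * TU U = TU U * matF F := by
  have h1 : (TU U : Matrix (ι → κ) (ι → κ) ℂ) * matF F * (TU (star U)) = matF F := by
    ext a b
    have h2 := congrFun (hF ⟨U, hU⟩) (fun i => (a i, b i))
    rw [AA_mulVec] at h2
    exact h2
  have h2 := TU_unitary (ι := ι) (⟨U, hU⟩ : Matrix.unitaryGroup κ ℂ)
  calc matF F * TU U = (TU U : Matrix (ι → κ) (ι → κ) ℂ) * matF F * (TU (star U)) * TU U := by rw [h1]
    _ = TU U * matF F := by rw [mul_assoc _ (TU (star U)) (TU U), h2, mul_one]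

/-- the permutation tensors -/
def PP (σ : Equiv.Perm ι) : (ι → κ × κ) → ℂ := fun m =>
  if (fun i => (m i).2) = (fun i => (m (σ i)).1) then 1 else 0

theorem CC_le_span : CC κ ι ≤ Submodule.span ℂ (Set.range (PP (κ := κ) (ι := ι))) := by
  intro F hF
  have h1 := fft (matF F) (comm_of_mem_CC hF)
  have h2 : ∀ X ∈ (PS : Submodule ℂ (Matrix (ι → κ) (ι → κ) ℂ)),
      (fun m : ι → κ × κ => X (fun i => (m i).1) (fun i => (m i).2)) ∈
        Submodule.span ℂ (Set.range (PP (κ := κ) (ι := ι))) := by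
    intro X hX
    refine Submodule.span_induction ?_ ?_ ?_ ?_ hX
    · rintro _ ⟨σ, rfl⟩
      apply Submodule.subset_span
      exact ⟨σ, rfl⟩
    · exact Submodule.zero_mem _
    · intro x y _ _ hx hy
      exact Submodule.add_mem _ hx hy
    · intro c x _ hx
      exact Submodule.smul_mem _ c hx
  exact h2 _ h1

/-- the form of a tensor -/
noncomputable def phi (F : (ι → κ × κ) → ℂ) (x : ι → Matrix κ κ ℂ) : ℂ := ∑ m, F m * ∏ i, x i (m i).1 (m i).2

lemma phi_PP (σ : Equiv.Perm ι) (x : ι → Matrix κ κ ℂ) :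
    phi (PP σ) x = ∑ a : ι → κ, ∏ i, x i (a i) (a (σ i)) := by
  unfold phi
  rw [← Fintype.sum_equiv (Equiv.arrowProdEquivProdArrow ι (fun _ => κ) (fun _ => κ)).symm
    (fun ab => PP σ (fun i => (ab.1 i, ab.2 i)) * ∏ i, x i (ab.1 i) (ab.2 i)) _ (fun _ => rfl),
    Fintype.sum_prod_type]
  refine Finset.sum_congr rfl fun a _ => ?_
  unfold PP
  simp

lemma phi_single (F : (ι → κ × κ) → ℂ) (m : ι → κ × κ) :
    phi F (fun i => Matrix.single (m i).1 (m i).2 1) = F m := by
  unfold phi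
  rw [Finset.sum_eq_single m]
  · simp
  · intro m' _ hm
    obtain ⟨i, hi⟩ := Function.ne_iff.1 hm
    rw [Finset.prod_eq_zero (mem_univ i), mul_zero]
    show Matrix.single (m i).1 (m i).2 (1 : ℂ) (m' i).1 (m' i).2 = 0
    rw [Matrix.single_apply, if_neg]
    rintro ⟨h1, h2⟩
    exact hi (Prod.ext h1.symm h2.symm)
  · intro h; exact absurd (mem_univ m) h

/-- equivariance of the form -/
lemma phi_AA (U : Matrix.unitaryGroup κ ℂ) (F : (ι → κ × κ) → ℂ) (x : ι → Matrix κ κ ℂ) :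
    phi (AA ι U *ᵥ F) x = phi F (fun i => U.1ᵀ * x i * (U.1ᵀ)ᴴ) := by
  unfold phi
  have h1 : ∀ m, (AA ι U *ᵥ F) m = ∑ m', AA ι U m m' * F m' := fun m => rfl
  simp only [h1, Finset.sum_mul]
  rw [Finset.sum_comm]
  refine Finset.sum_congr rfl fun m' _ => ?_
  have h2 : ∀ i, (U.1ᵀ * x i * (U.1ᵀ)ᴴ) (m' i).1 (m' i).2 =
      ∑ p : κ × κ, Ad U.1 p (m' i) * x i p.1 p.2 := by
    intro i
    rw [Fintype.sum_prod_type, Matrix.mul_apply]
    simp only [Matrix.mul_apply, Finset.sum_mul, Matrix.transpose_apply,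
      Matrix.conjTranspose_apply]
    rw [Finset.sum_comm]
    refine Finset.sum_congr rfl fun a _ => Finset.sum_congr rfl fun b _ => ?_
    unfold Ad
    ring
  simp only [h2]
  rw [Finset.prod_univ_sum, Fintype.piFinset_univ, Finset.mul_sum]
  refine Finset.sum_congr rfl fun m _ => ?_
  unfold AA
  rw [Finset.prod_mul_distrib]
  ring

section haar

noncomputable instance : MeasurableSpace (Matrix.unitaryGroup κ ℂ) := borel _
instance : BorelSpace (Matrix.unitaryGroup κ ℂ) := ⟨rfl⟩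

instance : CompactSpace (Matrix.unitaryGroup κ ℂ) := by
  refine isCompact_iff_compactSpace.1 (?_ : IsCompact (Matrix.unitaryGroup κ ℂ : Set (Matrix κ κ ℂ)))
  have h1 : IsCompact (Set.univ.pi (fun _ : κ => Set.univ.pi (fun _ : κ => Metric.closedBall (0 : ℂ) 1))) :=
    isCompact_univ_pi fun _ => isCompact_univ_pi fun _ => isCompact_closedBall _ _
  refine h1.of_isClosed_subset ?_ ?_
  · have : (Matrix.unitaryGroup κ ℂ : Set (Matrix κ κ ℂ)) = {U | U * star U = 1} := by
      ext U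
      exact Matrix.mem_unitaryGroup_iff
    rw [this]
    have hc : Continuous fun U : Matrix κ κ ℂ => U * star U := continuous_id.mul continuous_star
    exact isClosed_eq hc continuous_const
  · intro U hU
    simp only [Set.mem_pi, Set.mem_univ, true_implies]
    intro i j
    rw [mem_closedBall_zero_iff]
    exact entry_norm_bound_of_unitary hU i j

lemma exists_haar : ∃ μ : Measure (Matrix.unitaryGroup κ ℂ), μ.IsHaarMeasure ∧
    IsProbabilityMeasure μ := by
  refine ⟨Measure.haarMeasure ⊤, inferInstance, ⟨?_⟩⟩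
  have := Measure.haarMeasure_self (G := Matrix.unitaryGroup κ ℂ) (K₀ := ⊤)
  simpa using this

lemma AA_cont (m m' : ι → κ × κ) :
    Continuous fun U : Matrix.unitaryGroup κ ℂ => AA ι U m m' := by
  unfold AA Ad
  apply continuous_finsetProd
  intro i _
  have h : ∀ a b : κ, Continuous fun U : Matrix.unitaryGroup κ ℂ => U.1 a b := fun a b =>
    (continuous_apply_apply a b).comp continuous_subtype_val
  exact (h _ _).mul (continuous_star.comp (h _ _))

/-- the squared absolute value of the trace -/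
noncomputable def trsq (U : Matrix.unitaryGroup κ ℂ) : ℝ := ‖U.1.trace‖ ^ 2

lemma AA_trace (U : Matrix.unitaryGroup κ ℂ) :
    (AA ι U).trace = ((trsq U ^ Fintype.card ι : ℝ) : ℂ) := by
  have h1 : (AA ι U).trace = ∏ _i : ι, ∑ p : κ × κ, Ad U.1 p p := by
    rw [Finset.prod_univ_sum, Fintype.piFinset_univ]
    rfl
  have h2 : ∑ p : κ × κ, Ad U.1 p p = ((trsq U : ℝ) : ℂ) := by
    unfold Ad trsq
    rw [Fintype.sum_prod_type]
    simp only
    rw [← Finset.sum_mul_sum, ← star_sum]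
    have h3 : ∑ i, U.1 i i = U.1.trace := rfl
    rw [h3, RCLike.star_def, Complex.mul_conj, Complex.normSq_eq_norm_sq]
  rw [h1, h2, Finset.prod_const, Finset.card_univ]
  push_cast
  rfl

lemma trsq_cont : Continuous (trsq (κ := κ)) := by
  unfold trsq Matrix.trace
  apply Continuous.pow
  apply Continuous.norm
  apply continuous_finsetSum
  intro i _
  exact (continuous_apply_apply i i).comp continuous_subtype_val

lemma trsq_le (U : Matrix.unitaryGroup κ ℂ) : trsq U ≤ (Fintype.card κ : ℝ) ^ 2 := by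
  unfold trsq
  apply pow_le_pow_left₀ (norm_nonneg _)
  refine (norm_sum_le _ _).trans ?_
  calc ∑ i, ‖U.1.diag i‖ ≤ ∑ _i : κ, (1 : ℝ) :=
        Finset.sum_le_sum fun i _ => entry_norm_bound_of_unitary U.2 i i
    _ = Fintype.card κ := by simp

lemma trsq_one : trsq (1 : Matrix.unitaryGroup κ ℂ) = (Fintype.card κ : ℝ) ^ 2 := by
  unfold trsq
  have : ((1 : Matrix.unitaryGroup κ ℂ)).1 = 1 := rfl
  rw [this, Matrix.trace_one]
  simp

/-- the dimension of the space of invariants -/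
noncomputable def tt (κ : Type) [Fintype κ] [DecidableEq κ] (n : ℕ) : ℕ :=
  Module.finrank ℂ (CC κ (Fin n))

lemma finrank_CC (μ : Measure (Matrix.unitaryGroup κ ℂ)) [μ.IsHaarMeasure]
    [IsProbabilityMeasure μ] (ι : Type) [Fintype ι] [DecidableEq ι] :
    (Module.finrank ℂ (CC κ ι) : ℝ) = mom μ (trsq (κ := κ)) (Fintype.card ι) := by
  have h1 := finrank_Inv μ (A := AA (κ := κ) ι) AA_cont AA_mul
  simp only [AA_trace] at h1
  have h2 : ∫ g : Matrix.unitaryGroup κ ℂ, ((trsq g ^ Fintype.card ι : ℝ) : ℂ) ∂μ =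
      ((∫ g : Matrix.unitaryGroup κ ℂ, trsq g ^ Fintype.card ι ∂μ : ℝ) : ℂ) := integral_ofReal
  rw [h2] at h1
  exact_mod_cast h1

lemma finrank_CC_eq (ι : Type) [Fintype ι] [DecidableEq ι] :
    Module.finrank ℂ (CC κ ι) = tt κ (Fintype.card ι) := by
  obtain ⟨μ, h1, h2⟩ := exists_haar (κ := κ)
  have h3 := finrank_CC (κ := κ) μ ι
  have h4 := finrank_CC (κ := κ) μ (Fin (Fintype.card ι))
  rw [Fintype.card_fin] at h4
  have : (Module.finrank ℂ (CC κ ι) : ℝ) = tt κ (Fintype.card ι) := by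
    rw [h3]; exact h4.symm
  exact_mod_cast this

theorem tt_ratio [Nonempty κ] : Tendsto (fun n => (tt κ (n + 1) : ℝ) / tt κ n) atTop
    (nhds ((Fintype.card κ : ℝ) ^ 2)) := by
  obtain ⟨μ, h1, h2⟩ := exists_haar (κ := κ)
  have h3 := mom_ratio μ (f := trsq (κ := κ)) trsq_cont (fun U => sq_nonneg _)
    ((Fintype.card κ : ℝ) ^ 2) (by have := Fintype.card_pos (α := κ); positivity) 1 trsq_one trsq_le
  have h4 : ∀ n, mom μ (trsq (κ := κ)) n = tt κ n := by
    intro n
    have := finrank_CC (κ := κ) μ (Fin n)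
    rw [Fintype.card_fin] at this
    exact this.symm
  simpa only [h4] using h3

theorem tt_lower [Nonempty κ] (ε : ℝ) (hε : 0 < ε) (hε1 : ε ≤ (Fintype.card κ : ℝ) ^ 2) :
    ∃ c : ℝ, 0 < c ∧ ∀ n, c * ((Fintype.card κ : ℝ) ^ 2 - ε) ^ n ≤ tt κ n := by
  obtain ⟨μ, h1, h2⟩ := exists_haar (κ := κ)
  obtain ⟨c, hc, hc2⟩ := mom_lower μ (f := trsq (κ := κ)) trsq_cont (fun U => sq_nonneg _)
    ((Fintype.card κ : ℝ) ^ 2) 1 trsq_one ε hε hε1
  refine ⟨c, hc, fun n => ?_⟩
  have := finrank_CC (κ := κ) μ (Fin n)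
  rw [Fintype.card_fin] at this
  unfold tt
  rw [this]
  exact hc2 n

end haar

end Q257.CR
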