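import Pool.Agent.Q257.CR.Good2
import Pool.Agent.Q257.CR.Tens

/-!
The absorption property for all invariant tensors.
-/

set_option autoImplicit false
set_option linter.unusedSectionVars false
set_option linter.unusedDecidableInType false
set_option linter.unusedTactic false
set_option linter.unreachableTactic false
set_option linter.unusedSimpArgs false

namespace Q257.CR

open Matrix Finset

variable {κ : Type} [Fintype κ] [DecidableEq κ] {V : Type} [DecidableEq V]

lemma QQ_equiv {γ δ : Type} [Fintype γ] [DecidableEq γ] [Fintype δ] [DecidableEq δ] (e : γ ≃ δ)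
    (σ : Equiv.Perm γ) (X : γ → Matrix κ κ ℂ) : QQ σ X = QQ (e.permCongr σ) (X ∘ e.symm) := by
  unfold QQ
  rw [← (Equiv.arrowCongr e (Equiv.refl κ)).sum_comp]
  refine Finset.sum_congr rfl fun a _ => ?_
  rw [← e.prod_comp]
  refine Finset.prod_congr rfl fun i _ => ?_
  simp [Equiv.arrowCongr, Equiv.permCongr_apply]

lemma EE_equiv {γ δ : Type} [Fintype γ] [DecidableEq γ] [Fintype δ] [DecidableEq δ] (e : γ ≃ δ)
    (σ : Equiv.Perm γ) (s : γ) (y : γ → Matrix κ κ ℂ) :
    EE (QQ σ) s y = EE (QQ (e.permCongr σ)) (e s) (y ∘ e.symm) := by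
  ext q p
  unfold EE
  rw [Matrix.of_apply, Matrix.of_apply, QQ_equiv e]
  congr 1
  ext i : 1
  by_cases hi : i = e s
  · subst hi
    simp
  · rw [Function.update_of_ne hi]
    show Function.update y s _ (e.symm i) = _
    rw [Function.update_of_ne]
    · rfl
    · rintro h
      exact hi (by rw [← h, Equiv.apply_symm_apply])

theorem good_QQ [Nonempty κ] {γ : Type} [Fintype γ] [DecidableEq γ] (s : γ) (σ : Equiv.Perm γ) :
    Good κ V γ s (EE (QQ σ) s) := by
  obtain ⟨n, hn⟩ : ∃ n, Fintype.card γ = n + 1 :=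
    ⟨Fintype.card γ - 1, (Nat.succ_pred_eq_of_pos (Fintype.card_pos_iff.2 ⟨s⟩)).symm⟩
  obtain ⟨e, he⟩ : ∃ e : γ ≃ Fin (n + 1), e s = Fin.last n := by
    let e0 : γ ≃ Fin (n + 1) := Fintype.equivFinOfCardEq hn
    exact ⟨e0.trans (Equiv.swap (e0 s) (Fin.last n)), by simp⟩
  intro S f hf α hα hS ha ν h1 h2
  have h3 := good_fin (κ := κ) (V := V) n (e.permCongr σ) S f hf α hα hS ha (ν ∘ e.symm)
    (fun i j hi hj h => by
      apply e.symm.injective
      apply h1 _ _ _ _ h
      · intro h'; exact hi (by rw [← he, ← h', Equiv.apply_symm_apply])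
      · intro h'; exact hj (by rw [← he, ← h', Equiv.apply_symm_apply]))
    (fun i hi => by
      apply h2
      intro h'; exact hi (by rw [← he, ← h', Equiv.apply_symm_apply]))
  have e1 : (univ.erase (Fin.last n)).image (ν ∘ e.symm) = (univ.erase s).image ν := by
    ext v
    simp only [mem_image, mem_erase, mem_univ, and_true, Function.comp_apply]
    constructor
    · rintro ⟨i, hi, rfl⟩
      exact ⟨e.symm i, fun h => hi (by rw [← he, ← h, Equiv.apply_symm_apply]), rfl⟩
    · rintro ⟨i, hi, rfl⟩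
      exact ⟨e i, fun h => hi (e.injective (h.trans he.symm)), by simp⟩
  rw [e1] at h3
  have e2 : (fun x : V → Matrix κ κ ℂ => f x * EE (QQ σ) s (x ∘ ν)) =
      (fun x => f x * EE (QQ (e.permCongr σ)) (Fin.last n) (x ∘ ν ∘ e.symm)) := by
    ext x : 1
    rw [EE_equiv e σ s, he]
    rfl
  rw [e2]
  exact h3

lemma good_add {γ : Type} [Fintype γ] [DecidableEq γ] {s : γ} {E E' : (γ → Matrix κ κ ℂ) → Matrix κ κ ℂ}
    (h : Good κ V γ s E) (h' : Good κ V γ s E') : Good κ V γ s (fun y => E y + E' y) := by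
  intro S f hf α hα hS ha ν h1 h2
  have := Submodule.add_mem _ (h S f hf α hα hS ha ν h1 h2) (h' S f hf α hα hS ha ν h1 h2)
  convert this using 1
  ext x : 1
  rw [Pi.add_apply, mul_add]

lemma good_smul {γ : Type} [Fintype γ] [DecidableEq γ] {s : γ} {E : (γ → Matrix κ κ ℂ) → Matrix κ κ ℂ}
    (h : Good κ V γ s E) (c : ℂ) : Good κ V γ s (fun y => c • E y) := by
  intro S f hf α hα hS ha ν h1 h2
  have := Submodule.smul_mem _ c (h S f hf α hα hS ha ν h1 h2)
  convert this using 1
  ext x : 1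
  rw [Pi.smul_apply, mul_smul_comm]

lemma good_zero {γ : Type} [Fintype γ] [DecidableEq γ] {s : γ} :
    Good κ V γ s (fun _ => 0) := by
  intro S f hf α hα hS ha ν h1 h2
  have : (fun x : V → Matrix κ κ ℂ => f x * (0 : Matrix κ κ ℂ)) = 0 := by
    ext x : 1
    rw [mul_zero]
    rfl
  rw [this]
  exact Submodule.zero_mem _

lemma phi_add {γ : Type} [Fintype γ] [DecidableEq γ] (F G : (γ → κ × κ) → ℂ) (x : γ → Matrix κ κ ℂ) :
    phi (F + G) x = phi F x + phi G x := by
  unfold phi
  rw [← Finset.sum_add_distrib]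
  exact Finset.sum_congr rfl fun m _ => by rw [Pi.add_apply, add_mul]

lemma phi_smul {γ : Type} [Fintype γ] [DecidableEq γ] (c : ℂ) (F : (γ → κ × κ) → ℂ)
    (x : γ → Matrix κ κ ℂ) : phi (c • F) x = c * phi F x := by
  unfold phi
  rw [Finset.mul_sum]
  exact Finset.sum_congr rfl fun m _ => by rw [Pi.smul_apply, smul_eq_mul, mul_assoc]

lemma phi_zero {γ : Type} [Fintype γ] [DecidableEq γ] (x : γ → Matrix κ κ ℂ) :
    phi (0 : (γ → κ × κ) → ℂ) x = 0 := by
  unfold phi
  exact Finset.sum_eq_zero fun m _ => by rw [Pi.zero_apply, zero_mul]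

theorem good_CC [Nonempty κ] {γ : Type} [Fintype γ] [DecidableEq γ] (s : γ) {F : (γ → κ × κ) → ℂ}
    (hF : F ∈ CC κ γ) : Good κ V γ s (EE (phi F) s) := by
  refine Submodule.span_induction (p := fun F _ => Good κ V γ s (EE (phi F) s)) ?_ ?_ ?_ ?_
    (CC_le_span hF)
  · rintro _ ⟨σ, rfl⟩
    have : phi (PP σ) = QQ (κ := κ) σ := by
      ext x
      rw [phi_PP]
      rfl
    rw [this]
    exact good_QQ s σ
  · have : EE (phi (0 : (γ → κ × κ) → ℂ)) s = fun _ => 0 := by
      ext y q p
      unfold EE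
      rw [Matrix.of_apply, phi_zero]
      rfl
    rw [this]
    exact good_zero
  · intro F G _ _ hF hG
    have : EE (phi (F + G)) s = fun y => EE (phi F) s y + EE (phi G) s y := by
      ext y q p
      unfold EE
      rw [Matrix.of_apply, phi_add]
      rfl
    rw [this]
    exact good_add hF hG
  · intro c F _ hF
    have : EE (phi (c • F)) s = fun y => c • EE (phi F) s y := by
      ext y q p
      unfold EE
      rw [Matrix.of_apply, phi_smul]
      rfl
    rw [this]
    exact good_smul hF c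

end Q257.CR
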