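import Pool.Agent.Q257.CR.Cap

/-!
The conductor and tensors of forms.
-/

set_option autoImplicit false
set_option linter.unusedSectionVars false
set_option linter.unusedDecidableInType false
set_option linter.unusedTactic false
set_option linter.unreachableTactic false
set_option linter.unusedSimpArgs false

namespace Q257.CR

open Matrix Finset

variable {κ : Type} [Fintype κ] [DecidableEq κ] {V : Type} [DecidableEq V]
  {γ : Type} [Fintype γ] [DecidableEq γ]

/-- the tensor of a form -/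
def ten (Q : (γ → Matrix κ κ ℂ) → ℂ) : (γ → κ × κ) → ℂ :=
  fun m => Q (fun i => Matrix.single (m i).1 (m i).2 1)

lemma phi_ten (Q : MultilinearMap ℂ (fun _ : γ => Matrix κ κ ℂ) ℂ) (x : γ → Matrix κ κ ℂ) :
    phi (ten Q) x = Q x := by
  have h1 : x = fun i => ∑ p : κ × κ, x i p.1 p.2 • Matrix.single p.1 p.2 (1 : ℂ) := by
    ext i : 1
    rw [Fintype.sum_prod_type]
    conv_lhs => rw [Matrix.matrix_eq_sum_single (x i)]
    refine Finset.sum_congr rfl fun p _ => Finset.sum_congr rfl fun q _ => ?_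
    rw [Matrix.smul_single, smul_eq_mul, mul_one]
  conv_rhs => rw [h1, MultilinearMap.map_sum]
  unfold phi
  refine Finset.sum_congr rfl fun m _ => ?_
  rw [MultilinearMap.map_smul_univ, smul_eq_mul, mul_comm]
  rfl

/-- elements of the span of words are multilinear -/
noncomputable def mlT {δ : Type} [Fintype δ] [I : DecidableEq δ]
    {f : (δ → Matrix κ κ ℂ) → Matrix κ κ ℂ} (hf : f ∈ TT κ (univ : Finset δ)) :
    MultilinearMap ℂ (fun _ : δ => Matrix κ κ ℂ) (Matrix κ κ ℂ) where
  toFun := f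
  map_update_add' := by
    intro inst x i a b
    have e : inst = I := Subsingleton.elim _ _
    subst e
    exact TT_update_add hf (mem_univ i) x a b
  map_update_smul' := by
    intro inst x i c a
    have e : inst = I := Subsingleton.elim _ _
    subst e
    exact TT_update_smul hf (mem_univ i) x c a

lemma TT_conj {S : Finset V} {f : (V → Matrix κ κ ℂ) → Matrix κ κ ℂ} (hf : f ∈ TT κ S)
    {A B : Matrix κ κ ℂ} (h : A * B = 1) (h' : B * A = 1) (x : V → Matrix κ κ ℂ) :
    f (fun i => A * x i * B) = A * f x * B := by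
  refine Submodule.span_induction (p := fun f _ => f (fun i => A * x i * B) = A * f x * B)
    ?_ ?_ ?_ ?_ hf
  · rintro _ ⟨l, h1, h2, rfl⟩
    clear h1 h2
    unfold wd
    induction l with
    | nil => simp [h]
    | cons i l ih =>
      rw [List.map_cons, List.prod_cons, ih, List.map_cons, List.prod_cons]
      calc A * x i * B * (A * (List.map x l).prod * B) =
          A * x i * (B * A) * (List.map x l).prod * B := by simp only [mul_assoc]
        _ = _ := by rw [h', mul_one]; simp only [mul_assoc]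
  · show (0 : Matrix κ κ ℂ) = A * 0 * B
    simp
  · intro f g _ _ hf hg
    show f _ + g _ = A * (f x + g x) * B
    rw [hf, hg, mul_add, add_mul]
  · intro c f _ hf
    show c • f _ = A * (c • f x) * B
    rw [hf, mul_smul_comm, smul_mul_assoc]

lemma mem_CC_iff {F : (γ → κ × κ) → ℂ} : F ∈ CC κ γ ↔
    ∀ A ∈ Matrix.unitaryGroup κ ℂ, ∀ x, phi F (fun i => A * x i * Aᴴ) = phi F x := by
  constructor
  · intro hF A hA x
    have hA' : Aᵀ ∈ Matrix.unitaryGroup κ ℂ := by
      rw [Matrix.mem_unitaryGroup_iff]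
      have h1 := Matrix.mem_unitaryGroup_iff'.1 hA
      have h2 := congrArg Matrix.transpose h1
      rw [Matrix.transpose_mul, Matrix.transpose_one] at h2
      exact h2
    have h1 := phi_AA (ι := γ) ⟨Aᵀ, hA'⟩ F x
    rw [(mem_Inv (A := AA (κ := κ) γ)).1 hF] at h1
    rw [h1]
    simp only [Matrix.transpose_transpose]
  · intro h
    refine (mem_Inv (A := AA (κ := κ) γ)).2 fun U => ?_
    ext m
    rw [← phi_single (AA γ U *ᵥ F) m, phi_AA]
    have hU : U.1ᵀ ∈ Matrix.unitaryGroup κ ℂ := by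
      rw [Matrix.mem_unitaryGroup_iff]
      have h1 := Matrix.mem_unitaryGroup_iff'.1 U.2
      have h2 := congrArg Matrix.transpose h1
      rw [Matrix.transpose_mul, Matrix.transpose_one] at h2
      exact h2
    rw [h _ hU, phi_single]

lemma ten_trace_phi {f : (γ → Matrix κ κ ℂ) → Matrix κ κ ℂ} (hf : f ∈ TT κ (univ : Finset γ))
    (x : γ → Matrix κ κ ℂ) : phi (ten fun x => (f x).trace) x = (f x).trace := by
  have := phi_ten ((Matrix.traceLinearMap κ ℂ ℂ).compMultilinearMap (mlT hf)) x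
  exact this

lemma ten_trace_mem {f : (γ → Matrix κ κ ℂ) → Matrix κ κ ℂ} (hf : f ∈ TT κ (univ : Finset γ)) :
    (ten fun x => (f x).trace) ∈ CC κ γ := by
  rw [mem_CC_iff]
  intro A hA x
  have h1 : A * Aᴴ = 1 := Matrix.mem_unitaryGroup_iff.1 hA
  have h2 : Aᴴ * A = 1 := Matrix.mem_unitaryGroup_iff'.1 hA
  rw [ten_trace_phi hf, ten_trace_phi hf, TT_conj hf h1 h2, Matrix.trace_mul_cycle, h2, one_mul]

/-- the Capelli tensor -/
noncomputable def FQ (κ : Type) [Fintype κ] [DecidableEq κ] : (G3 κ → κ × κ) → ℂ := ten Qc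

lemma FQ_mem : FQ κ ∈ CC κ (G3 κ) := ten_trace_mem Cap_mem'

lemma phi_FQ : phi (FQ κ) = Qc := by
  ext x
  exact ten_trace_phi Cap_mem' x

lemma FQ_ne [Nonempty κ] : ∃ m, FQ κ m ≠ 0 := by
  by_contra hcon
  push Not at hcon
  obtain ⟨X, hX⟩ := Qc_ne (κ := κ)
  apply hX
  rw [← phi_FQ]
  unfold phi
  exact Finset.sum_eq_zero fun m _ => by rw [hcon, zero_mul]

/-- the conductor property -/
theorem key [Nonempty κ] (s : γ) {F : (γ → κ × κ) → ℂ} (hF : F ∈ CC κ γ)
    (ν : G3 κ ⊕ G3 κ → V) (hν : Function.Injective ν) (μ : γ → V)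
    (hμ : ∀ i j, i ≠ s → j ≠ s → μ i = μ j → i = j) (hμν : ∀ i, i ≠ s → ∀ b, μ i ≠ ν b) :
    (fun x : V → Matrix κ κ ℂ => (Qc (fun i => x (ν (Sum.inl i))) * Qc (fun i => x (ν (Sum.inr i)))) •
      EE (phi F) s (x ∘ μ)) ∈ TT κ (univ.image ν ∪ (univ.erase s).image μ) := by
  set ν1 : G3 κ → V := fun i => ν (Sum.inl i) with hν1
  set ν2 : G3 κ → V := fun i => ν (Sum.inr i) with hν2
  have hν1i : Function.Injective ν1 := fun a b h => Sum.inl_injective (hν h)
  have hν2i : Function.Injective ν2 := fun a b h => Sum.inr_injective (hν h)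
  have hν12 : ∀ a b, ν1 a ≠ ν2 b := fun a b h => by
    have := hν h
    simp at this
  have h1 : (fun x : V → Matrix κ κ ℂ => (Qc (fun i => x (ν1 i)) * Qc (fun i => x (ν2 i))) •
      EE (phi F) s (x ∘ μ)) = ∑ i : Fin (dd κ), fun x : V → Matrix κ κ ℂ =>
        x (ν1 (i, 1)) * ((Cap (x ∘ ν2) * EE (phi (FQ κ)) (i, 1) (x ∘ ν1)) * EE (phi F) s (x ∘ μ)) := by
    ext x : 1
    rw [Finset.sum_apply]
    have h2 := Qc_identity (x ∘ ν1) (Cap (x ∘ ν2))
    have h3 : (Qc (fun i => x (ν1 i)) * Qc (fun i => x (ν2 i))) • EE (phi F) s (x ∘ μ) =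
        ((Qc (x ∘ ν1) * (Cap (x ∘ ν2)).trace) • (1 : Matrix κ κ ℂ)) * EE (phi F) s (x ∘ μ) := by
      rw [smul_mul_assoc, one_mul]
      rfl
    rw [h3, ← h2, Finset.sum_mul]
    refine Finset.sum_congr rfl fun i _ => ?_
    rw [phi_FQ]
    simp only [mul_assoc]
    rfl
  rw [h1]
  refine Submodule.sum_mem _ fun i _ => ?_
  have hα : Function.Injective (fun j : Fin (dd κ) => ν2 (j, 1)) := fun a b h => by
    have := hν2i h
    simpa using this
  have hS : ∀ j : Fin (dd κ), ν2 (j, 1) ∈ (univ.image ν2) := fun j =>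
    mem_image_of_mem _ (mem_univ _)
  have g1 := good_CC (V := V) ((i, 1) : G3 κ) (FQ_mem (κ := κ)) (univ.image ν2) _
    (Cap_mem ν2 hν2i) _ hα hS (Cap_alt ν2) ν1 (fun a b _ _ h => hν1i h)
    (fun a _ h => by
      obtain ⟨b, -, hb⟩ := mem_image.1 h
      exact hν12 a b hb.symm)
  have g2 := good_CC (V := V) s hF _ _ g1 _ hα (fun j => mem_union_left _ (hS j))
    (fun x a b hab hx => by
      have h0 : Cap (x ∘ ν2) = 0 := Cap_alt ν2 x a b hab hx
      show Cap (x ∘ ν2) * _ = 0
      rw [h0, zero_mul]) μ hμ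
    (fun a ha h => by
      rcases mem_union.1 h with h | h
      · obtain ⟨b, -, hb⟩ := mem_image.1 h
        exact hμν a ha _ hb.symm
      · obtain ⟨b, -, hb⟩ := mem_image.1 h
        exact hμν a ha _ hb.symm)
  have hnot : ν1 (i, 1) ∉ (univ.image ν2 ∪ (univ.erase (i, 1)).image ν1) ∪ (univ.erase s).image μ := by
    intro h
    rcases mem_union.1 h with h | h
    · rcases mem_union.1 h with h | h
      · obtain ⟨b, -, hb⟩ := mem_image.1 h
        exact hν12 _ _ hb.symm
      · obtain ⟨b, hb1, hb⟩ := mem_image.1 h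
        exact (mem_erase.1 hb1).1 (hν1i hb)
    · obtain ⟨b, hb1, hb⟩ := mem_image.1 h
      exact hμν b (mem_erase.1 hb1).1 _ hb
  have g3 := TT_mul_left g2 hnot
  have e1 : insert (ν1 (i, 1)) ((univ.image ν2 ∪ (univ.erase (i, 1)).image ν1) ∪
      (univ.erase s).image μ) = univ.image ν ∪ (univ.erase s).image μ := by
    ext v
    simp only [mem_insert, mem_union, mem_image, mem_erase, mem_univ, and_true, true_and]
    constructor
    · rintro (h | (⟨b, rfl⟩ | ⟨b, _, rfl⟩) | h)
      · exact Or.inl ⟨_, h.symm⟩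
      · exact Or.inl ⟨_, rfl⟩
      · exact Or.inl ⟨_, rfl⟩
      · exact Or.inr h
    · rintro (⟨b, rfl⟩ | h)
      · rcases b with b | b
        · by_cases hb : b = (i, 1)
          · subst hb; exact Or.inl rfl
          · exact Or.inr (Or.inl (Or.inr ⟨b, hb, rfl⟩))
        · exact Or.inr (Or.inl (Or.inl ⟨b, rfl⟩))
      · exact Or.inr (Or.inr h)
  rw [e1] at g3
  exact g3

end Q257.CR
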