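import Pool.Agent.Q257.CR.Dim

/-!
The limit of the ratio of codimensions over the complex numbers.
-/

set_option autoImplicit false
set_option linter.unusedSectionVars false
set_option linter.unusedDecidableInType false
set_option linter.unusedTactic false
set_option linter.unreachableTactic false
set_option linter.unusedSimpArgs false

namespace Q257.CR

open Matrix Finset Filter

variable {κ : Type} [Fintype κ] [DecidableEq κ]
  {ι : Type} [Fintype ι] [DecidableEq ι]

/-- the tensor of the trace form with an additional slot -/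
noncomputable def tenL (κ : Type) [Fintype κ] [DecidableEq κ] (n : ℕ) :
    ((Fin n → Matrix κ κ ℂ) → Matrix κ κ ℂ) →ₗ[ℂ] ((Option (Fin n) → κ × κ) → ℂ) where
  toFun f := ten fun y : Option (Fin n) → Matrix κ κ ℂ => (f (fun i => y (some i)) * y none).trace
  map_add' := by
    intro f g
    ext m
    show ((f _ + g _) * _).trace = (f _ * _).trace + (g _ * _).trace
    rw [add_mul, Matrix.trace_add]
  map_smul' := by
    intro c f
    ext m
    show ((c • f _) * _).trace = c • (f _ * _).trace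
    rw [smul_mul_assoc, Matrix.trace_smul]

lemma tenL_mem {n : ℕ} {f : (Fin n → Matrix κ κ ℂ) → Matrix κ κ ℂ}
    (hf : f ∈ TT κ (univ : Finset (Fin n))) : tenL κ n f ∈ CC κ (Option (Fin n)) := by
  have h1 := pull_mem (a := (some : Fin n → Option (Fin n))) (Option.some_injective _).injOn hf
  have h2 := TT_mul_right h1 (j := none) (by simp)
  have h3 : insert none ((univ : Finset (Fin n)).image some) = univ := by
    rw [Finset.eq_univ_iff_forall]
    intro o
    rcases o with _ | i <;> simp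
  rw [h3] at h2
  exact ten_trace_mem h2

lemma tenL_inj {n : ℕ} {f : (Fin n → Matrix κ κ ℂ) → Matrix κ κ ℂ}
    (hf : f ∈ TT κ (univ : Finset (Fin n))) (h : tenL κ n f = 0) : f = 0 := by
  ext x q p
  have h1 := phi_ten ((Matrix.entryLinearMap ℂ ℂ q p).compMultilinearMap (mlT hf)) x
  have h2 : (ten ((Matrix.entryLinearMap ℂ ℂ q p).compMultilinearMap (mlT hf)) :
      (Fin n → κ × κ) → ℂ) = 0 := by
    ext m
    have h3 := congrFun h (fun o => o.elim (p, q) m)
    have h4 : tenL κ n f (fun o => o.elim (p, q) m) =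
      (f (fun i => Matrix.single (m i).1 (m i).2 1) * Matrix.single p q 1).trace := rfl
    rw [h4, Matrix.trace_mul_single] at h3
    simp only [MulOpposite.op_one, one_smul, Pi.zero_apply] at h3
    exact h3
  rw [h2, phi_zero] at h1
  exact h1.symm

lemma cc_le (n : ℕ) : cc κ n ≤ tt κ (n + 1) := by
  have h1 : Module.finrank ℂ (CC κ (Option (Fin n))) = tt κ (n + 1) := by
    rw [finrank_CC_eq, Fintype.card_option, Fintype.card_fin]
  rw [← h1]
  unfold cc
  refine LinearMap.finrank_le_finrank_of_injective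
    (f := (tenL κ n).restrict (p := TT κ (univ : Finset (Fin n))) (q := CC κ (Option (Fin n)))
      (fun f hf => tenL_mem hf)) ?_
  rw [injective_iff_map_eq_zero]
  intro f hf
  apply Subtype.ext
  exact tenL_inj f.2 (congrArg Subtype.val hf)

/-- the tensor of the trace -/
noncomputable def tenT (κ : Type) [Fintype κ] [DecidableEq κ] (n : ℕ) :
    ((Fin n → Matrix κ κ ℂ) → Matrix κ κ ℂ) →ₗ[ℂ] ((Fin n → κ × κ) → ℂ) where
  toFun f := ten fun y : Fin n → Matrix κ κ ℂ => (f y).trace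
  map_add' := by
    intro f g
    ext m
    show (f _ + g _).trace = (f _).trace + (g _).trace
    rw [Matrix.trace_add]
  map_smul' := by
    intro c f
    ext m
    show (c • f _).trace = c • (f _).trace
    rw [Matrix.trace_smul]

lemma zz_le [Nonempty κ] (n : ℕ) : zz κ n ≤ tt κ n := by
  unfold tt zz
  refine LinearMap.finrank_le_finrank_of_injective
    (f := (tenT κ n).restrict (p := TT κ (univ : Finset (Fin n)) ⊓ Cen κ (Fin n)) (q := CC κ (Fin n))
      (fun f hf => ten_trace_mem hf.1)) ?_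
  rw [injective_iff_map_eq_zero]
  intro f hf
  apply Subtype.ext
  have h1 : ∀ x, (f.1 x).trace = 0 := by
    intro x
    rw [← ten_trace_phi f.2.1 x]
    have h2 : (ten fun x => (f.1 x).trace : (Fin n → κ × κ) → ℂ) = 0 := congrArg Subtype.val hf
    rw [h2, phi_zero]
  ext x : 1
  obtain ⟨c, hc⟩ := f.2.2 x
  have h3 := h1 x
  rw [hc, Matrix.trace_smul, Matrix.trace_one, smul_eq_mul] at h3
  have h4 : c = 0 := by
    rcases mul_eq_zero.1 h3 with h | h
    · exact h
    · exact absurd h (Nat.cast_ne_zero.2 Fintype.card_ne_zero)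
  rw [hc, h4, zero_smul]
  rfl

/-- the standard blocks -/
def sb {β ρ : Type} {q : ℕ} (j : Fin q) (b : β) : (Fin q × β) ⊕ ρ := Sum.inl (j, b)

lemma card_bad {β ρ : Type} [Fintype β] [DecidableEq β] [Fintype ρ] [DecidableEq ρ] {q : ℕ}
    (m0 : β → κ × κ) : Fintype.card (Bad (sb (β := β) (ρ := ρ) (q := q)) m0) ≤
      (dd κ ^ Fintype.card β - 1) ^ q * dd κ ^ Fintype.card ρ := by
  have h1 : Fintype.card (Bad (sb (β := β) (ρ := ρ) (q := q)) m0) ≤
      Fintype.card ((Fin q → {b : β → κ × κ // b ≠ m0}) × (ρ → κ × κ)) := by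
    refine Fintype.card_le_of_injective
      (fun m => (fun j => ⟨fun b => m.1 (sb j b), m.2 j⟩, fun r => m.1 (Sum.inr r))) ?_
    intro m m' h
    apply Subtype.ext
    ext1 i
    rcases i with ⟨j, b⟩ | r
    · have h2 := congrFun (congrArg Prod.fst h) j
      have h3 := congrFun (congrArg Subtype.val h2) b
      exact h3
    · have h2 := congrFun (congrArg Prod.snd h) r
      exact h2
  refine h1.trans (le_of_eq ?_)
  rw [Fintype.card_prod, Fintype.card_fun, Fintype.card_fin, Fintype.card_fun]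
  congr 2
  have h4 : Fintype.card {b : β → κ × κ // b ≠ m0} = Fintype.card (β → κ × κ) - 1 :=
    Set.card_ne_eq m0
  rw [h4, Fintype.card_fun]

/-- the block length -/
noncomputable abbrev NN (κ : Type) [Fintype κ] : ℕ := Fintype.card (G3 κ ⊕ G3 κ)

lemma tt_le_cc [Nonempty κ] (q r : ℕ) : tt κ (q * NN κ + r + 1) ≤ cc κ (q * NN κ + r) +
    (dd κ ^ NN κ - 1) ^ q * dd κ ^ (r + 1) := by
  obtain ⟨m0, h0⟩ := Fh_ne (κ := κ)
  have hc : Fintype.card ((Fin q × (G3 κ ⊕ G3 κ)) ⊕ Fin (r + 1)) = q * NN κ + r + 1 := by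
    rw [Fintype.card_sum, Fintype.card_prod, Fintype.card_fin, Fintype.card_fin, add_assoc]
  have hinj : ∀ j : Fin q, Function.Injective
      (sb (β := G3 κ ⊕ G3 κ) (ρ := Fin (r + 1)) j) := by
    intro j a b h
    unfold sb at h
    simpa using h
  have h1 := finrank_le (κ := κ) (sb (β := G3 κ ⊕ G3 κ) (ρ := Fin (r + 1)) (q := q)) hinj
    (fun j j' b b' hj h => by
      unfold sb at h
      simp only [Sum.inl.injEq, Prod.mk.injEq] at h
      exact hj h.1) Fh_mem m0 h0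
  have h2 := finrank_le_cc (κ := κ) (sb (β := G3 κ ⊕ G3 κ) (ρ := Fin (r + 1)) (q := q)) hinj
    (Sum.inr 0) (fun j b h => by
      unfold sb at h
      simp at h)
  have h3 := card_bad (κ := κ) (β := G3 κ ⊕ G3 κ) (ρ := Fin (r + 1)) (q := q) m0
  rw [finrank_CC_eq, hc] at h1
  rw [hc, Nat.add_sub_cancel] at h2
  rw [Fintype.card_fin] at h3
  exact h1.trans (Nat.add_le_add h2 h3)

lemma tt_le_zz [Nonempty κ] (q r : ℕ) : tt κ (q * NN κ + r) ≤ zz κ (q * NN κ + r) +
    (dd κ ^ NN κ - 1) ^ q * dd κ ^ r := by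
  obtain ⟨m0, h0⟩ := Fh_ne (κ := κ)
  have hc : Fintype.card ((Fin q × (G3 κ ⊕ G3 κ)) ⊕ Fin r) = q * NN κ + r := by
    rw [Fintype.card_sum, Fintype.card_prod, Fintype.card_fin, Fintype.card_fin]
  have hinj : ∀ j : Fin q, Function.Injective
      (sb (β := G3 κ ⊕ G3 κ) (ρ := Fin r) j) := by
    intro j a b h
    unfold sb at h
    simpa using h
  have h1 := finrank_le (κ := κ) (sb (β := G3 κ ⊕ G3 κ) (ρ := Fin r) (q := q)) hinj
    (fun j j' b b' hj h => by
      unfold sb at h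
      simp only [Sum.inl.injEq, Prod.mk.injEq] at h
      exact hj h.1) Fh_mem m0 h0
  have h2 := finrank_le_zz (κ := κ) (sb (β := G3 κ ⊕ G3 κ) (ρ := Fin r) (q := q)) hinj
  have h3 := card_bad (κ := κ) (β := G3 κ ⊕ G3 κ) (ρ := Fin r) (q := q) m0
  rw [finrank_CC_eq, hc] at h1
  rw [hc] at h2
  rw [Fintype.card_fin] at h3
  exact h1.trans (Nat.add_le_add h2 h3)

/-- the error term -/
noncomputable def Bd (κ : Type) [Fintype κ] (n : ℕ) : ℝ :=
  ((dd κ ^ NN κ - 1 : ℕ) : ℝ) ^ (n / NN κ) * (dd κ : ℝ) ^ (n % NN κ)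

lemma dd_eq : (dd κ : ℝ) = (Fintype.card κ : ℝ) ^ 2 := by
  unfold dd
  rw [Fintype.card_prod]
  push_cast
  ring

lemma dd_pos [Nonempty κ] : (1 : ℝ) ≤ dd κ := by
  have : 1 ≤ dd κ := Fintype.card_pos_iff.2 inferInstance
  exact_mod_cast this

lemma NN_pos [Nonempty κ] : 0 < NN κ := by
  have hd : 0 < dd κ := Fintype.card_pos_iff.2 inferInstance
  exact Fintype.card_pos_iff.2 ⟨Sum.inl (⟨0, hd⟩, 0)⟩

lemma tt_pos [Nonempty κ] (n : ℕ) : (0 : ℝ) < tt κ n := by
  have hd := dd_pos (κ := κ)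
  rw [dd_eq] at hd
  obtain ⟨c, hc, hc2⟩ := tt_lower (κ := κ) (1 / 2) (by norm_num) (by linarith)
  exact lt_of_lt_of_le (mul_pos hc (pow_pos (by linarith) n)) (hc2 n)

lemma Bd_small [Nonempty κ] : Tendsto (fun n => Bd κ n / tt κ n) atTop (nhds 0) := by
  set d : ℝ := (dd κ : ℝ) with hd
  have hd1 : (1 : ℝ) ≤ d := dd_pos
  have hN := NN_pos (κ := κ)
  have hex : ∃ ε : ℝ, 0 < ε ∧ ε < d ∧ d ^ NN κ - 1 < (d - ε) ^ NN κ := by
    have hcont : ContinuousAt (fun ε : ℝ => (d - ε) ^ NN κ) 0 := by fun_prop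
    have h1 : ∀ᶠ ε in nhds (0 : ℝ), d ^ NN κ - 1 < (d - ε) ^ NN κ := by
      apply hcont.eventually_const_lt
      simp
    have h2 : ∀ᶠ ε in nhds (0 : ℝ), ε < d := eventually_lt_nhds (by linarith)
    have h3 := ((h1.and h2).filter_mono nhdsWithin_le_nhds).and
      (self_mem_nhdsWithin : ∀ᶠ ε in nhdsWithin (0 : ℝ) (Set.Ioi 0), ε ∈ Set.Ioi 0)
    obtain ⟨ε, ⟨h4, h5⟩, h6⟩ := h3.exists
    exact ⟨ε, h6, h5, h4⟩
  obtain ⟨ε, hε0, hεd, hε⟩ := hex
  obtain ⟨c, hc, hc2⟩ := tt_lower (κ := κ) ε hε0 (by rw [← dd_eq]; exact hεd.le)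
  rw [← dd_eq, ← hd] at hc2
  set ρ : ℝ := (d ^ NN κ - 1) / (d - ε) ^ NN κ with hρ
  have hde : 0 < d - ε := by linarith
  have hρ0 : 0 ≤ ρ := div_nonneg (by linarith [one_le_pow₀ hd1 (n := NN κ)]) (by positivity)
  have hρ1 : ρ < 1 := by
    rw [hρ, div_lt_one (by positivity)]
    exact hε
  have hlim : Tendsto (fun n : ℕ => (1 / c * (d / (d - ε)) ^ NN κ) * ρ ^ (n / NN κ)) atTop (nhds 0) := by
    have h1 := (tendsto_pow_atTop_nhds_zero_of_lt_one hρ0 hρ1).comp
      (Nat.tendsto_div_const_atTop hN.ne')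
    have h2 := h1.const_mul (1 / c * (d / (d - ε)) ^ NN κ)
    rw [mul_zero] at h2
    exact h2
  refine squeeze_zero (fun n => ?_) (fun n => ?_) hlim
  · exact div_nonneg (mul_nonneg (pow_nonneg (Nat.cast_nonneg _) _) (pow_nonneg (Nat.cast_nonneg _) _))
      (tt_pos n).le
  · have h1 : (((dd κ ^ NN κ - 1 : ℕ) : ℝ)) = d ^ NN κ - 1 := by
      rw [Nat.cast_sub (Nat.one_le_pow _ _ (Fintype.card_pos_iff.2 inferInstance))]
      push_cast
      rfl
    have h2 : n = NN κ * (n / NN κ) + n % NN κ := (Nat.div_add_mod n _).symm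
    have h3 : (d - ε) ^ n = ((d - ε) ^ NN κ) ^ (n / NN κ) * (d - ε) ^ (n % NN κ) := by
      conv_lhs => rw [h2]
      rw [pow_add, pow_mul]
    have h4 : Bd κ n = (d ^ NN κ - 1) ^ (n / NN κ) * d ^ (n % NN κ) := by
      unfold Bd
      rw [h1]
    have h5 : 0 ≤ Bd κ n := by
      rw [h4]
      exact mul_nonneg (pow_nonneg (by linarith [one_le_pow₀ hd1 (n := NN κ)]) _) (by positivity)
    calc Bd κ n / tt κ n ≤ Bd κ n / (c * (d - ε) ^ n) :=
          div_le_div_of_nonneg_left h5 (by positivity) (hc2 n)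
      _ = (1 / c * (d / (d - ε)) ^ (n % NN κ)) * ρ ^ (n / NN κ) := by
          rw [h4, h3, hρ, div_pow, div_pow]
          field_simp
      _ ≤ (1 / c * (d / (d - ε)) ^ NN κ) * ρ ^ (n / NN κ) := by
          apply mul_le_mul_of_nonneg_right _ (pow_nonneg hρ0 _)
          apply mul_le_mul_of_nonneg_left _ (by positivity)
          apply pow_le_pow_right₀
          · rw [one_le_div hde]; linarith
          · exact (Nat.mod_lt _ hN).le

lemma tt_le_cc' [Nonempty κ] (n : ℕ) : (tt κ (n + 1) : ℝ) ≤ cc κ n + (dd κ : ℝ) * Bd κ n := by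
  have h1 := tt_le_cc (κ := κ) (n / NN κ) (n % NN κ)
  have h2 : n / NN κ * NN κ + n % NN κ = n := by
    rw [mul_comm]; exact Nat.div_add_mod n _
  rw [h2] at h1
  have h3 : ((tt κ (n + 1) : ℕ) : ℝ) ≤ ((cc κ n + (dd κ ^ NN κ - 1) ^ (n / NN κ) *
    dd κ ^ (n % NN κ + 1) : ℕ) : ℝ) := by exact_mod_cast h1
  refine h3.trans (le_of_eq ?_)
  unfold Bd
  rw [Nat.cast_add, Nat.cast_mul, Nat.cast_pow, Nat.cast_pow, pow_succ]
  ring

lemma tt_le_zz' [Nonempty κ] (n : ℕ) : (tt κ n : ℝ) ≤ zz κ n + Bd κ n := by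
  have h1 := tt_le_zz (κ := κ) (n / NN κ) (n % NN κ)
  have h2 : n / NN κ * NN κ + n % NN κ = n := by
    rw [mul_comm]; exact Nat.div_add_mod n _
  rw [h2] at h1
  have h3 : ((tt κ n : ℕ) : ℝ) ≤ ((zz κ n + (dd κ ^ NN κ - 1) ^ (n / NN κ) *
    dd κ ^ (n % NN κ) : ℕ) : ℝ) := by exact_mod_cast h1
  refine h3.trans (le_of_eq ?_)
  unfold Bd
  rw [Nat.cast_add, Nat.cast_mul, Nat.cast_pow, Nat.cast_pow]

theorem ratio_lim [Nonempty κ] : Tendsto (fun n => (zz κ n : ℝ) / cc κ n) atTop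
    (nhds (1 / (Fintype.card κ : ℝ) ^ 2)) := by
  have hd0 : (Fintype.card κ : ℝ) ^ 2 ≠ 0 := by
    have := Fintype.card_pos (α := κ)
    positivity
  have h1 : Tendsto (fun n => (tt κ n : ℝ) / tt κ (n + 1)) atTop
      (nhds (1 / (Fintype.card κ : ℝ) ^ 2)) := by
    have := (tt_ratio (κ := κ)).inv₀ hd0
    rw [one_div]
    refine this.congr fun n => ?_
    rw [inv_div]
  have h2 : Tendsto (fun n => (zz κ n : ℝ) / tt κ n) atTop (nhds 1) := by
    have h3 : Tendsto (fun n => 1 - Bd κ n / tt κ n) atTop (nhds 1) := by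
      simpa using (Bd_small (κ := κ)).const_sub 1
    refine tendsto_of_tendsto_of_tendsto_of_le_of_le h3 tendsto_const_nhds (fun n => ?_) (fun n => ?_)
    · show 1 - Bd κ n / tt κ n ≤ (zz κ n : ℝ) / tt κ n
      have := tt_le_zz' (κ := κ) n
      have hp := tt_pos (κ := κ) n
      rw [sub_le_iff_le_add, ← add_div, one_le_div hp]
      exact this
    · show (zz κ n : ℝ) / tt κ n ≤ 1
      rw [div_le_one (tt_pos n)]
      exact_mod_cast zz_le n
  have h4 : Tendsto (fun n => (cc κ n : ℝ) / tt κ (n + 1)) atTop (nhds 1) := by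
    have h3 : Tendsto (fun n => 1 - (dd κ : ℝ) * (Bd κ n / tt κ n) * (tt κ n / tt κ (n + 1))) atTop
        (nhds 1) := by
      have := (((Bd_small (κ := κ)).const_mul (dd κ : ℝ)).mul h1).const_sub 1
      simpa using this
    refine tendsto_of_tendsto_of_tendsto_of_le_of_le h3 tendsto_const_nhds (fun n => ?_) (fun n => ?_)
    · show 1 - (dd κ : ℝ) * (Bd κ n / tt κ n) * (tt κ n / tt κ (n + 1)) ≤ (cc κ n : ℝ) / tt κ (n + 1)
      have h5 := tt_le_cc' (κ := κ) n
      have hp := tt_pos (κ := κ) n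
      have hp1 := tt_pos (κ := κ) (n + 1)
      have h6 : (dd κ : ℝ) * (Bd κ n / tt κ n) * (tt κ n / tt κ (n + 1)) =
          (dd κ : ℝ) * Bd κ n / tt κ (n + 1) := by
        field_simp
      rw [h6, sub_le_iff_le_add, ← add_div, one_le_div hp1]
      exact h5
    · show (cc κ n : ℝ) / tt κ (n + 1) ≤ 1
      rw [div_le_one (tt_pos _)]
      exact_mod_cast cc_le n
  have h5 := (h2.mul h1).mul (h4.inv₀ one_ne_zero)
  rw [inv_one, one_mul, mul_one] at h5
  refine h5.congr fun n => ?_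
  have hp := tt_pos (κ := κ) n
  have hp1 := tt_pos (κ := κ) (n + 1)
  rw [inv_div]
  field_simp

end Q257.CR
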