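import Mathlib

/-!
Spans of multilinear words and the absorption of traces by alternating words.
-/

set_option autoImplicit false
set_option linter.unusedSectionVars false
set_option linter.unusedDecidableInType false

namespace Q257.CR

open Matrix Finset

variable {κ : Type} [Fintype κ] [DecidableEq κ] {V : Type} [DecidableEq V]

/-- the word map -/
noncomputable def wd (κ : Type) [Fintype κ] [DecidableEq κ] {V : Type} (l : List V) :
    (V → Matrix κ κ ℂ) → Matrix κ κ ℂ := fun x => (l.map x).prod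

/-- the span of the multilinear words with support `S` -/
noncomputable def TT (κ : Type) [Fintype κ] [DecidableEq κ] {V : Type} [DecidableEq V] (S : Finset V) :
    Submodule ℂ ((V → Matrix κ κ ℂ) → Matrix κ κ ℂ) :=
  Submodule.span ℂ {f | ∃ l : List V, l.Nodup ∧ l.toFinset = S ∧ f = wd κ l}

lemma wd_mem_TT {l : List V} (h : l.Nodup) : wd κ l ∈ TT κ l.toFinset :=
  Submodule.subset_span ⟨l, h, rfl, rfl⟩

/-- induction on the span -/
lemma TT_map {S S' : Finset V} (L : ((V → Matrix κ κ ℂ) → Matrix κ κ ℂ) →ₗ[ℂ]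
    ((V → Matrix κ κ ℂ) → Matrix κ κ ℂ)) (h : ∀ l : List V, l.Nodup → l.toFinset = S →
      L (wd κ l) ∈ TT κ S') {f : (V → Matrix κ κ ℂ) → Matrix κ κ ℂ} (hf : f ∈ TT κ S) :
    L f ∈ TT κ S' := by
  have : TT κ S ≤ (TT κ S').comap L := by
    unfold TT
    rw [Submodule.span_le]
    rintro f ⟨l, h1, h2, rfl⟩
    exact h l h1 h2
  exact this hf

/-- left multiplication by a variable -/
lemma TT_mul_left {S : Finset V} {f : (V → Matrix κ κ ℂ) → Matrix κ κ ℂ} (hf : f ∈ TT κ S) {j : V}
    (hj : j ∉ S) : (fun x => x j * f x) ∈ TT κ (insert j S) := by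
  refine TT_map (S' := insert j S)
    { toFun := fun f x => x j * f x
      map_add' := fun f g => by ext x : 1; simp [mul_add]
      map_smul' := fun c f => by ext x : 1; simp } ?_ hf
  intro l h1 h2
  refine Submodule.subset_span ⟨j :: l, ?_, ?_, ?_⟩
  · rw [List.nodup_cons]
    refine ⟨fun h => hj (h2 ▸ List.mem_toFinset.2 h), h1⟩
  · rw [List.toFinset_cons, h2]
  · ext x : 1
    simp [wd]

/-- right multiplication by a variable -/
lemma TT_mul_right {S : Finset V} {f : (V → Matrix κ κ ℂ) → Matrix κ κ ℂ} (hf : f ∈ TT κ S) {j : V}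
    (hj : j ∉ S) : (fun x => f x * x j) ∈ TT κ (insert j S) := by
  refine TT_map (S' := insert j S)
    { toFun := fun f x => f x * x j
      map_add' := fun f g => by ext x : 1; simp [add_mul]
      map_smul' := fun c f => by ext x : 1; simp } ?_ hf
  intro l h1 h2
  refine Submodule.subset_span ⟨l ++ [j], ?_, ?_, ?_⟩
  · rw [List.nodup_append]
    refine ⟨h1, List.nodup_singleton _, ?_⟩
    intro a ha b hb hab
    rw [List.mem_singleton] at hb
    subst hab; subst hb
    exact hj (h2 ▸ List.mem_toFinset.2 ha)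
  · rw [List.toFinset_append, h2]
    ext a
    simp
  · ext x : 1
    simp [wd]

/-- words only depend on the letters which occur -/
lemma wd_congr {l : List V} {x y : V → Matrix κ κ ℂ} (h : ∀ i ∈ l, x i = y i) :
    wd κ l x = wd κ l y := by
  unfold wd
  rw [List.map_congr_left h]

lemma TT_congr {S : Finset V} {f : (V → Matrix κ κ ℂ) → Matrix κ κ ℂ} (hf : f ∈ TT κ S)
    {x y : V → Matrix κ κ ℂ} (h : ∀ i ∈ S, x i = y i) : f x = f y := by
  refine Submodule.span_induction (p := fun f _ => f x = f y) ?_ ?_ ?_ ?_ hf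
  · rintro _ ⟨l, h1, h2, rfl⟩
    exact wd_congr fun i hi => h i (h2 ▸ List.mem_toFinset.2 hi)
  · rfl
  · intro f g _ _ hf hg
    show f x + g x = f y + g y
    rw [hf, hg]
  · intro c f _ hf
    show c • f x = c • f y
    rw [hf]

/-- splitting a word at a letter -/
lemma wd_split {l : List V} (hl : l.Nodup) {p : V} (hp : p ∈ l) : ∃ l1 l2 : List V,
    l = l1 ++ p :: l2 ∧ p ∉ l1 ∧ p ∉ l2 ∧ ∀ (x : V → Matrix κ κ ℂ) (a : Matrix κ κ ℂ),
      wd κ l (Function.update x p a) = wd κ l1 x * a * wd κ l2 x := by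
  obtain ⟨l1, l2, rfl⟩ := List.append_of_mem hp
  rw [List.nodup_append] at hl
  obtain ⟨h1, h2, h3⟩ := hl
  rw [List.nodup_cons] at h2
  have hp1 : p ∉ l1 := fun h => h3 p h p List.mem_cons_self rfl
  refine ⟨l1, l2, rfl, hp1, h2.1, ?_⟩
  intro x a
  have e1 : wd κ l1 (Function.update x p a) = wd κ l1 x := by
    apply wd_congr
    intro i hi
    rw [Function.update_of_ne]
    rintro rfl
    exact hp1 hi
  have e2 : wd κ l2 (Function.update x p a) = wd κ l2 x := by
    apply wd_congr
    intro i hi
    rw [Function.update_of_ne]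
    rintro rfl
    exact h2.1 hi
  have e3 : wd κ (l1 ++ p :: l2) (Function.update x p a) =
      wd κ l1 (Function.update x p a) * ((Function.update x p a) p * wd κ l2 (Function.update x p a)) := by
    simp [wd]
  rw [e3, e1, e2, Function.update_self, mul_assoc]

lemma TT_update_add {S : Finset V} {f : (V → Matrix κ κ ℂ) → Matrix κ κ ℂ} (hf : f ∈ TT κ S)
    {p : V} (hp : p ∈ S) (x : V → Matrix κ κ ℂ) (a b : Matrix κ κ ℂ) :
    f (Function.update x p (a + b)) = f (Function.update x p a) + f (Function.update x p b) := by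
  refine Submodule.span_induction (p := fun f _ => f (Function.update x p (a + b)) =
    f (Function.update x p a) + f (Function.update x p b)) ?_ ?_ ?_ ?_ hf
  · rintro _ ⟨l, h1, h2, rfl⟩
    obtain ⟨l1, l2, -, -, -, h3⟩ := wd_split (κ := κ) h1 (p := p) (by rw [← List.mem_toFinset, h2]; exact hp)
    rw [h3, h3, h3, mul_add, add_mul]
  · show (0 : Matrix κ κ ℂ) = 0 + 0
    rw [add_zero]
  · intro f g _ _ hf hg
    show f _ + g _ = (f _ + g _) + (f _ + g _)
    rw [hf, hg]
    abel
  · intro c f _ hf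
    show c • f _ = c • f _ + c • f _
    rw [hf, smul_add]

lemma TT_update_smul {S : Finset V} {f : (V → Matrix κ κ ℂ) → Matrix κ κ ℂ} (hf : f ∈ TT κ S)
    {p : V} (hp : p ∈ S) (x : V → Matrix κ κ ℂ) (c : ℂ) (a : Matrix κ κ ℂ) :
    f (Function.update x p (c • a)) = c • f (Function.update x p a) := by
  refine Submodule.span_induction (p := fun f _ => f (Function.update x p (c • a)) =
    c • f (Function.update x p a)) ?_ ?_ ?_ ?_ hf
  · rintro _ ⟨l, h1, h2, rfl⟩
    obtain ⟨l1, l2, -, -, -, h3⟩ := wd_split (κ := κ) h1 (p := p) (by rw [← List.mem_toFinset, h2]; exact hp)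
    rw [h3, h3, mul_smul_comm, smul_mul_assoc]
  · show (0 : Matrix κ κ ℂ) = c • 0
    rw [smul_zero]
  · intro f g _ _ hf hg
    show f _ + g _ = c • (f _ + g _)
    rw [hf, hg, smul_add]
  · intro d f _ hf
    show d • f _ = c • d • f _
    rw [hf, smul_comm]

/-- substitution of a product for a letter -/
lemma TT_subst {S : Finset V} {f : (V → Matrix κ κ ℂ) → Matrix κ κ ℂ} (hf : f ∈ TT κ S)
    {p j : V} (hp : p ∈ S) (hj : j ∉ S) :
    (fun x => f (Function.update x p (x p * x j))) ∈ TT κ (insert j S) := by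
  refine TT_map (S' := insert j S)
    { toFun := fun f x => f (Function.update x p (x p * x j))
      map_add' := fun f g => by ext x : 1; simp
      map_smul' := fun c f => by ext x : 1; simp } ?_ hf
  intro l h1 h2
  obtain ⟨l1, l2, h3, h4, h5, h6⟩ := wd_split (κ := κ) h1 (p := p) (by rw [← List.mem_toFinset, h2]; exact hp)
  have hjl : j ∉ l := fun h => hj (h2 ▸ List.mem_toFinset.2 h)
  refine Submodule.subset_span ⟨l1 ++ p :: j :: l2, ?_, ?_, ?_⟩
  · have : (l1 ++ p :: j :: l2).Perm (j :: l) := by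
      rw [h3]
      have e : (l1 ++ p :: j :: l2) = (l1 ++ [p]) ++ j :: l2 := by simp
      rw [e]
      refine List.perm_middle.trans ?_
      simp
    rw [this.nodup_iff, List.nodup_cons]
    exact ⟨hjl, h1⟩
  · rw [← h2, h3]
    ext a
    simp only [List.mem_toFinset, List.mem_append, List.mem_cons, mem_insert]
    tauto
  · ext x : 1
    show wd κ l _ = _
    rw [h6]
    simp [wd, mul_assoc]

lemma TT_subst' {S : Finset V} {f : (V → Matrix κ κ ℂ) → Matrix κ κ ℂ} (hf : f ∈ TT κ S)
    {p j : V} (hp : p ∈ S) (hj : j ∉ S) :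
    (fun x => f (Function.update x p (x j * x p))) ∈ TT κ (insert j S) := by
  refine TT_map (S' := insert j S)
    { toFun := fun f x => f (Function.update x p (x j * x p))
      map_add' := fun f g => by ext x : 1; simp
      map_smul' := fun c f => by ext x : 1; simp } ?_ hf
  intro l h1 h2
  obtain ⟨l1, l2, h3, h4, h5, h6⟩ := wd_split (κ := κ) h1 (p := p) (by rw [← List.mem_toFinset, h2]; exact hp)
  have hjl : j ∉ l := fun h => hj (h2 ▸ List.mem_toFinset.2 h)
  refine Submodule.subset_span ⟨l1 ++ j :: p :: l2, ?_, ?_, ?_⟩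
  · have : (l1 ++ j :: p :: l2).Perm (j :: l) := by
      rw [h3]
      exact List.perm_middle
    rw [this.nodup_iff, List.nodup_cons]
    exact ⟨hjl, h1⟩
  · rw [← h2, h3]
    ext a
    simp only [List.mem_toFinset, List.mem_append, List.mem_cons, mem_insert]
    tauto
  · ext x : 1
    show wd κ l _ = _
    rw [h6]
    simp [wd, mul_assoc]

section cramer

/-- the number of matrix units -/
noncomputable abbrev dd (κ : Type) [Fintype κ] : ℕ := Fintype.card (κ × κ)

/-- the basis of matrix units -/
noncomputable def eb (κ : Type) [Fintype κ] [DecidableEq κ] :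
    Module.Basis (Fin (dd κ)) ℂ (Matrix κ κ ℂ) :=
  (Matrix.stdBasis ℂ κ κ).reindex (Fintype.equivFin (κ × κ))

/-- Cramer's rule for alternating maps of top degree -/
lemma cramer_alt {W : Type} [AddCommGroup W] [Module ℂ W]
    (g : (Matrix κ κ ℂ) [⋀^Fin (dd κ)]→ₗ[ℂ] W)
    (φ : Matrix κ κ ℂ →ₗ[ℂ] ℂ) (v : Fin (dd κ) → Matrix κ κ ℂ) (z : Matrix κ κ ℂ) :
    ∑ i, φ (v i) • g (Function.update v i z) = φ z • g v := by
  have hg : ∀ w, g w = (eb κ).det w • g (eb κ) := by
    intro w
    have h1 : g = (LinearMap.toSpanSingleton ℂ W (g (eb κ))).compAlternatingMap (eb κ).det := by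
      refine Module.Basis.ext_alternating (eb κ) ?_
      intro v hv
      have h2 : ∃ σ : Equiv.Perm (Fin (dd κ)), ∀ i, v i = σ i := by
        refine ⟨Equiv.ofBijective v ⟨hv, Finite.injective_iff_surjective.1 hv⟩, fun i => rfl⟩
      obtain ⟨σ, hσ⟩ := h2
      have h3 : (fun i => eb κ (v i)) = (eb κ) ∘ σ := by
        ext i : 1
        simp [hσ i]
      rw [h3, LinearMap.compAlternatingMap_apply, AlternatingMap.map_perm, AlternatingMap.map_perm,
        Module.Basis.det_self]
      simp [LinearMap.toSpanSingleton_apply]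
    conv_lhs => rw [h1]
    rfl
  have h2 : ∀ p : Fin (dd κ), ∑ i, (eb κ).repr (v i) p * (eb κ).det (Function.update v i z) =
      (eb κ).repr z p * (eb κ).det v := by
    intro p
    have h3 := congrFun (Matrix.mulVec_cramer ((eb κ).toMatrix v) (fun q => (eb κ).repr z q)) p
    rw [Matrix.mulVec, dotProduct, Pi.smul_apply, smul_eq_mul] at h3
    rw [mul_comm, Module.Basis.det_apply, ← h3]
    refine Finset.sum_congr rfl fun i _ => ?_
    rw [Module.Basis.toMatrix_apply, Matrix.cramer_apply, Module.Basis.det_apply,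
      Module.Basis.toMatrix_update]
  have h4 : ∀ u : Matrix κ κ ℂ, φ u = ∑ p, (eb κ).repr u p * φ (eb κ p) := by
    intro u
    conv_lhs => rw [← (eb κ).sum_repr u]
    rw [map_sum]
    simp
  rw [hg v]
  simp only [hg (Function.update v _ z), smul_smul]
  rw [← Finset.sum_smul]
  congr 1
  simp only [h4 (v _), h4 z, Finset.sum_mul]
  rw [Finset.sum_comm]
  refine Finset.sum_congr rfl fun p _ => ?_
  have := h2 p
  calc ∑ i, (eb κ).repr (v i) p * φ (eb κ p) * (eb κ).det (Function.update v i z) =
      φ (eb κ p) * ∑ i, (eb κ).repr (v i) p * (eb κ).det (Function.update v i z) := by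
        rw [Finset.mul_sum]
        exact Finset.sum_congr rfl fun i _ => by ring
    _ = _ := by rw [this]; ring

/-- the derivation rule -/
lemma star_alt {W : Type} [AddCommGroup W] [Module ℂ W]
    (g : (Matrix κ κ ℂ) [⋀^Fin (dd κ)]→ₗ[ℂ] W)
    (v : Fin (dd κ) → Matrix κ κ ℂ) (z : Matrix κ κ ℂ) :
    ∑ i, g (Function.update v i (z * v i)) = ((Fintype.card κ : ℂ) * z.trace) • g v := by
  have h1 : ∀ i, g (Function.update v i (z * v i)) =
      ∑ p : κ, ∑ q : κ, (v i p q) • g (Function.update v i (z * Matrix.single p q 1)) := by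
    intro i
    have h2 : z * v i = ∑ p : κ, ∑ q : κ, (v i p q) • (z * Matrix.single p q (1 : ℂ)) := by
      conv_lhs => rw [Matrix.matrix_eq_sum_single (v i)]
      rw [Finset.mul_sum]
      refine Finset.sum_congr rfl fun p _ => ?_
      rw [Finset.mul_sum]
      refine Finset.sum_congr rfl fun q _ => ?_
      rw [← mul_smul_comm, Matrix.smul_single, smul_eq_mul, mul_one]
    rw [h2, AlternatingMap.map_update_sum]
    refine Finset.sum_congr rfl fun p _ => ?_
    rw [AlternatingMap.map_update_sum]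
    refine Finset.sum_congr rfl fun q _ => ?_
    rw [AlternatingMap.map_update_smul]
  simp only [h1]
  rw [Finset.sum_comm]
  have h3 : ∀ p q : κ, ∑ i, (v i p q) • g (Function.update v i (z * Matrix.single p q 1)) =
      (z p p) • g v := by
    intro p q
    have := cramer_alt g (Matrix.entryLinearMap ℂ ℂ p q) v (z * Matrix.single p q 1)
    simp only [Matrix.entryLinearMap_apply] at this
    rw [this, Matrix.mul_single_apply_same, mul_one]
  have h4 : ∀ p : κ, ∑ i, ∑ q : κ, (v i p q) • g (Function.update v i (z * Matrix.single p q 1)) =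
      (Fintype.card κ : ℂ) • (z p p) • g v := by
    intro p
    rw [Finset.sum_comm]
    simp only [h3]
    rw [Finset.sum_const, Finset.card_univ, ← Nat.cast_smul_eq_nsmul ℂ]
  simp only [h4]
  rw [← Finset.smul_sum, ← Finset.sum_smul, smul_smul]
  rfl

end cramer

end Q257.CR
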